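import Pool.Agent.Lib.MP_a387ab_co.Kill

/-!
# Clustering of sparse configurations
-/

namespace Pool.Agent.Lib.MP_a387ab_co.LB

open Module

variable {W : Type*} [AddCommGroup W] [Module (ZMod 2) W]
variable {β : LinearMap.BilinForm (ZMod 2) W}
variable {E : Type*} [NormedAddCommGroup E] [InnerProductSpace ℝ E]
variable {ι : Type*} [DecidableEq ι]

/-- The cluster with label `a`. -/
def cls (J : Finset ι) (cl : ι → ι) (a : ι) : Finset ι := J.filter fun j => cl j = a

lemma mem_cls {J : Finset ι} {cl : ι → ι} {a j : ι} : j ∈ cls J cl a ↔ j ∈ J ∧ cl j = a := by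
  unfold cls; rw [Finset.mem_filter]

lemma cls_pos {J : Finset ι} {cl : ι → ι} {a : ι} (ha : a ∈ J.image cl) :
    1 ≤ (cls J cl a).card := by
  obtain ⟨j, hj, rfl⟩ := Finset.mem_image.mp ha
  exact Finset.card_pos.mpr ⟨j, mem_cls.mpr ⟨hj, rfl⟩⟩

/-- A clustering: `cl j` is the label of `j`, `cen a` the centre of the cluster with label `a`. -/
structure Lab (β : LinearMap.BilinForm (ZMod 2) W) (n l N : ℕ) (J : Finset ι)
    (A : ι → Submodule (ZMod 2) W) (cl : ι → ι) (cen : ι → Submodule (ZMod 2) W) : Prop where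
  lag : ∀ a ∈ J.image cl, Lag β (cen a)
  size : ∀ a ∈ J.image cl, (cls J cl a).card ≤ N
  near : ∀ j ∈ J, Near n (((cls J cl (cl j)).card - 1) * l) (cen (cl j)) (A j)

/-- Every ball of radius `2 N l` contains at most `N` members of the family. -/
def Sparse (β : LinearMap.BilinForm (ZMod 2) W) (n l N : ℕ) (J : Finset ι)
    (A : ι → Submodule (ZMod 2) W) : Prop :=
  ∀ C, Lag β C → ∀ X ⊆ J, (∀ j ∈ X, Near n (2 * N * l) C (A j)) → X.card ≤ N

variable [Finite W]

lemma merge {n l N : ℕ} (hW : Sympl β n) {J : Finset ι} {A : ι → Submodule (ZMod 2) W}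
    (hsp : Sparse β n l N J A)
    {cl : ι → ι} {cen : ι → Submodule (ZMod 2) W} (h : Lab β n l N J A cl cen) {a b : ι}
    (ha : a ∈ J.image cl) (hb : b ∈ J.image cl) (hab : a ≠ b)
    (hnear : Near n (((cls J cl a).card + (cls J cl b).card) * l) (cen a) (cen b)) :
    ∃ (cl' : ι → ι) (cen' : ι → Submodule (ZMod 2) W), Lab β n l N J A cl' cen' ∧
      (J.image cl').card < (J.image cl).card := by
  set sa := (cls J cl a).card with hsa
  set sb := (cls J cl b).card with hsb
  have hsa1 : 1 ≤ sa := cls_pos ha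
  have hsb1 : 1 ≤ sb := cls_pos hb
  have hsaN : sa ≤ N := h.size a ha
  have hsbN : sb ≤ N := h.size b hb
  obtain ⟨M, hM, hM1, hM2⟩ := midpoint hW (h.lag b hb) (sa * l) (sb * l) (h.lag a ha)
    (by rw [← add_mul, add_comm sb sa]; exact hnear)
  set cl' : ι → ι := fun j => if cl j = b then a else cl j with hcl'
  have himg : J.image cl' ⊆ (J.image cl).erase b := by
    intro x hx
    obtain ⟨j, hj, rfl⟩ := Finset.mem_image.mp hx
    rw [Finset.mem_erase]
    by_cases hjb : cl j = b
    · simp only [hcl', if_pos hjb]; exact ⟨hab, ha⟩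
    · simp only [hcl', if_neg hjb]; exact ⟨hjb, Finset.mem_image_of_mem cl hj⟩
  have hcls : ∀ c, c ≠ a → c ≠ b → cls J cl' c = cls J cl c := by
    intro c hca hcb
    ext j
    rw [mem_cls, mem_cls]
    by_cases hjb : cl j = b
    · simp only [hcl', if_pos hjb]
      constructor
      · rintro ⟨-, h1⟩; exact absurd h1.symm hca
      · rintro ⟨-, h1⟩; exact absurd (h1.symm.trans hjb) hcb
    · simp only [hcl', if_neg hjb]
  have hclsa : cls J cl' a = cls J cl a ∪ cls J cl b := by
    ext j
    rw [Finset.mem_union, mem_cls, mem_cls, mem_cls]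
    by_cases hjb : cl j = b
    · simp only [hcl', if_pos hjb]; tauto
    · simp only [hcl', if_neg hjb]; tauto
  have hcarda : (cls J cl' a).card = sa + sb := by
    rw [hclsa, Finset.card_union_of_disjoint]
    rw [Finset.disjoint_left]
    intro j hj hj'
    rw [mem_cls] at hj hj'
    exact hab (hj.2.symm.trans hj'.2)
  have hnear' : ∀ j ∈ cls J cl' a, Near n ((sa + sb - 1) * l) M (A j) := by
    intro j hj
    rw [hclsa, Finset.mem_union, mem_cls, mem_cls] at hj
    rcases hj with ⟨hj, hja⟩ | ⟨hj, hjb⟩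
    · have h1 := h.near j hj
      rw [hja, ← hsa] at h1
      have h2 := hM1.symm.trans ((h.lag a ha).finrank hW) h1
      refine h2.mono (le_of_eq ?_)
      rw [← add_mul]
      congr 1
      omega
    · have h1 := h.near j hj
      rw [hjb, ← hsb] at h1
      have h2 := hM2.trans ((h.lag b hb).finrank hW) h1
      refine h2.mono (le_of_eq ?_)
      rw [← add_mul]
      congr 1
      omega
  have hsub : cls J cl' a ⊆ J := Finset.filter_subset _ _
  have hsize : (cls J cl' a).card ≤ N := by
    refine hsp M hM _ hsub fun j hj => (hnear' j hj).mono ?_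
    refine Nat.mul_le_mul_right l ?_
    omega
  refine ⟨cl', Function.update cen a M, ⟨?_, ?_, ?_⟩, ?_⟩
  · intro c hc
    rcases eq_or_ne c a with rfl | hca
    · rw [Function.update_self]; exact hM
    · rw [Function.update_of_ne hca]
      exact h.lag c (Finset.mem_of_mem_erase (himg hc))
  · intro c hc
    rcases eq_or_ne c a with rfl | hca
    · exact hsize
    · have hc' := Finset.mem_erase.mp (himg hc)
      rw [hcls c hca hc'.1]
      exact h.size c hc'.2
  · intro j hj
    rcases eq_or_ne (cl' j) a with hja | hja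
    · rw [hja, Function.update_self, hcarda]
      exact hnear' j (mem_cls.mpr ⟨hj, hja⟩)
    · have hc' := Finset.mem_erase.mp (himg (Finset.mem_image_of_mem cl' hj))
      have hjj : cl' j = cl j := by
        simp only [hcl']
        rw [if_neg]
        intro hjb
        apply hja
        simp only [hcl']
        rw [if_pos hjb]
      rw [Function.update_of_ne hja, hcls _ hja hc'.1, hjj]
      exact h.near j hj
  · calc (J.image cl').card ≤ ((J.image cl).erase b).card := Finset.card_le_card himg
      _ < (J.image cl).card := Finset.card_erase_lt_of_mem hb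

lemma exists_sep {n l N : ℕ} (hW : Sympl β n) {J : Finset ι} {A : ι → Submodule (ZMod 2) W}
    (hsp : Sparse β n l N J A) : ∀ (k : ℕ) (cl : ι → ι) (cen : ι → Submodule (ZMod 2) W),
    (J.image cl).card ≤ k → Lab β n l N J A cl cen →
    ∃ (cl' : ι → ι) (cen' : ι → Submodule (ZMod 2) W), Lab β n l N J A cl' cen' ∧
      ∀ a ∈ J.image cl', ∀ b ∈ J.image cl', a ≠ b →
        ¬ Near n (((cls J cl' a).card + (cls J cl' b).card) * l) (cen' a) (cen' b) := by
  intro k
  induction k with
  | zero =>
    intro cl cen hk h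
    have h0 : J.image cl = ∅ := Finset.card_eq_zero.mp (Nat.le_zero.mp hk)
    refine ⟨cl, cen, h, ?_⟩
    rw [h0]
    intro a ha
    exact absurd ha (Finset.notMem_empty _)
  | succ k ih =>
    intro cl cen hk h
    by_cases hsep : ∀ a ∈ J.image cl, ∀ b ∈ J.image cl, a ≠ b →
        ¬ Near n (((cls J cl a).card + (cls J cl b).card) * l) (cen a) (cen b)
    · exact ⟨cl, cen, h, hsep⟩
    · push Not at hsep
      obtain ⟨a, ha, b, hb, hab, hnear⟩ := hsep
      obtain ⟨cl', cen', h', hlt⟩ := merge hW hsp h ha hb hab hnear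
      exact ih cl' cen' (by omega) h'

lemma lab_init {n l N : ℕ} (hW : Sympl β n) (hN : 1 ≤ N) {J : Finset ι}
    {A : ι → Submodule (ZMod 2) W} (hA : ∀ j ∈ J, Lag β (A j)) : Lab β n l N J A id A := by
  refine ⟨?_, ?_, ?_⟩
  · intro a ha
    rw [Finset.image_id] at ha
    exact hA a ha
  · intro a ha
    refine le_trans (Finset.card_le_one.mpr ?_) hN
    intro x hx y hy
    rw [mem_cls] at hx hy
    exact hx.2.trans hy.2.symm
  · intro j hj
    exact Near.refl ((hA j hj).finrank hW)

end Pool.Agent.Lib.MP_a387ab_co.LB
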