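import Pool.Agent.Lib.MP_a387ab_co.SparseFalse

/-!
# Quadratic phases and the point mass as joint eigenvectors
-/

namespace Pool.Agent.Lib.MP_a387ab_co.LB

open Module

/-- The phase space of `F_2^n`. -/
abbrev WW (n : ℕ) : Type := (Fin n → ZMod 2) × (Fin n → ZMod 2)

/-- The form `β (a, b) (a', b') = a · b'`. -/
def bet (n : ℕ) : LinearMap.BilinForm (ZMod 2) (WW n) :=
  LinearMap.mk₂ (ZMod 2) (fun w z => w.1 ⬝ᵥ z.2)
    (fun w w' z => by simp [add_dotProduct])
    (fun c w z => by simp [smul_dotProduct])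
    (fun w z z' => by simp [dotProduct_add])
    (fun c w z => by simp [dotProduct_smul])

lemma bet_apply {n : ℕ} (w z : WW n) : bet n w z = w.1 ⬝ᵥ z.2 := rfl

lemma sympl_bet (n : ℕ) : Sympl (bet n) n := by
  constructor
  · rw [Module.finrank_prod, Module.finrank_fin_fun]; ring
  · intro w hw
    ext i
    · have := hw (0, Pi.single i 1)
      simpa [bet_apply] using this
    · have := hw (Pi.single i 1, 0)
      simpa [bet_apply] using this

/-- Real functions on `F_2^n` with the Euclidean inner product. -/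
abbrev EE (n : ℕ) : Type := EuclideanSpace ℝ (Fin n → ZMod 2)

/-- The Weyl operator: translation by `a` followed by multiplication by the character of `b`. -/
def opP {n : ℕ} (w : WW n) : EE n →ₗ[ℝ] EE n where
  toFun f := WithLp.toLp 2 fun x => phase (w.2 ⬝ᵥ x) * f (x + w.1)
  map_add' f g := by
    ext x
    simp [mul_add]
  map_smul' c f := by
    ext x
    simp only [PiLp.smul_apply, smul_eq_mul, RingHom.id_apply]
    ring

lemma opP_apply {n : ℕ} (w : WW n) (f : EE n) (x : Fin n → ZMod 2) :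
    opP w f x = phase (w.2 ⬝ᵥ x) * f (x + w.1) := rfl

/-- The Weyl system on `F_2^n`. -/
def weyl (n : ℕ) : Weyl (bet n) (EE n) where
  P := opP
  mul w z f := by
    ext x
    rw [opP_apply, opP_apply, PiLp.smul_apply, opP_apply, bet_apply, smul_eq_mul, Prod.fst_add,
      Prod.snd_add, dotProduct_add, add_dotProduct, phase_add, phase_add, add_assoc,
      dotProduct_comm z.2 w.1]
    ring
  one f := by
    ext x
    rw [opP_apply]
    simp [phase_zero]
  iso w f g := by
    simp only [PiLp.inner_apply, opP_apply, RCLike.inner_apply, conj_trivial]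
    rw [← Equiv.sum_comp (Equiv.addRight w.1) fun x => g x * f x]
    refine Finset.sum_congr rfl fun x _ => ?_
    rw [Equiv.coe_addRight]
    calc phase (w.2 ⬝ᵥ x) * g (x + w.1) * (phase (w.2 ⬝ᵥ x) * f (x + w.1))
        = (phase (w.2 ⬝ᵥ x) * phase (w.2 ⬝ᵥ x)) * (g (x + w.1) * f (x + w.1)) := by ring
      _ = _ := by rw [phase_sq, one_mul]

/-- The Lagrangian of the point mass. -/
def lagPt (n : ℕ) : Submodule (ZMod 2) (WW n) := LinearMap.ker (LinearMap.fst _ _ _)

lemma mem_lagPt {n : ℕ} {w : WW n} : w ∈ lagPt n ↔ w.1 = 0 := LinearMap.mem_ker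

lemma lag_lagPt (n : ℕ) : Lag (bet n) (lagPt n) := by
  constructor
  · intro w hw
    rw [mem_lagPt] at hw
    rw [bet_apply, hw, zero_dotProduct]
  · intro w hw
    rw [mem_lagPt]
    ext i
    have := hw (0, Pi.single i 1) (by rw [mem_lagPt])
    simpa [bet_apply] using this

/-- `AND_n` as a vector. -/
noncomputable def andV (n : ℕ) : EE n := WithLp.toLp 2 andFn

lemma andV_apply {n : ℕ} (x : Fin n → ZMod 2) : andV n x = andFn x := rfl

lemma andV_ne (n : ℕ) : andV n ≠ 0 := by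
  intro h
  have h1 : andV n (fun _ => 1) = (0 : EE n) (fun _ => 1) := by rw [h]
  rw [andV_apply] at h1
  simp [andFn] at h1

lemma eig_andV (n : ℕ) : Eig (weyl n) (lagPt n) (andV n) := by
  intro w hw
  rw [mem_lagPt] at hw
  have h1 : (weyl n).P w (andV n) = phase (w.2 ⬝ᵥ fun _ => 1) • andV n := by
    ext x
    change opP w (andV n) x = _
    rw [opP_apply, PiLp.smul_apply, hw, add_zero, smul_eq_mul, andV_apply]
    unfold andFn
    by_cases hx : x = fun _ => 1
    · rw [hx]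
    · rw [if_neg hx, mul_zero, mul_zero]
  rw [h1]
  rcases phase_eq (w.2 ⬝ᵥ fun _ => 1) with h | h
  · left; rw [h, one_smul]
  · right; rw [h, neg_smul, one_smul]

/-- The Lagrangian of a quadratic phase with bilinear form `B`. -/
def lagQ {n : ℕ} (B : (Fin n → ZMod 2) →ₗ[ZMod 2] (Fin n → ZMod 2) →ₗ[ZMod 2] ZMod 2) :
    Submodule (ZMod 2) (WW n) where
  carrier := {w | ∀ x, w.2 ⬝ᵥ x = B w.1 x + B x w.1}
  zero_mem' := by intro x; simp
  add_mem' := by
    intro w z hw hz x
    rw [Prod.snd_add, add_dotProduct, hw x, hz x, Prod.fst_add, map_add, map_add,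
      LinearMap.add_apply]
    ring
  smul_mem' := by
    intro c w hw x
    rw [Prod.smul_snd, smul_dotProduct, hw x, Prod.smul_fst, map_smul, map_smul,
      LinearMap.smul_apply, smul_add]

lemma mem_lagQ {n : ℕ} {B : (Fin n → ZMod 2) →ₗ[ZMod 2] (Fin n → ZMod 2) →ₗ[ZMod 2] ZMod 2}
    {w : WW n} : w ∈ lagQ B ↔ ∀ x, w.2 ⬝ᵥ x = B w.1 x + B x w.1 := Iff.rfl

lemma exists_vec {n : ℕ} (f : (Fin n → ZMod 2) →ₗ[ZMod 2] ZMod 2) :
    ∃ v : Fin n → ZMod 2, ∀ x, v ⬝ᵥ x = f x := by
  refine ⟨fun i => f (Pi.single i 1), fun x => ?_⟩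
  rw [LinearMap.pi_apply_eq_sum_univ f x, dotProduct]
  refine Finset.sum_congr rfl fun i _ => ?_
  rw [smul_eq_mul, mul_comm]
  congr 2
  ext j
  simp [Pi.single_apply, eq_comm]

lemma lag_lagQ {n : ℕ} (B : (Fin n → ZMod 2) →ₗ[ZMod 2] (Fin n → ZMod 2) →ₗ[ZMod 2] ZMod 2) :
    Lag (bet n) (lagQ B) := by
  constructor
  · intro w hw
    rw [bet_apply, dotProduct_comm, hw w.1]
    exact zmod2_add_self _
  · intro w hw x
    obtain ⟨v, hv⟩ := exists_vec (B x + B.flip x)
    have hz : ((x, v) : WW n) ∈ lagQ B := by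
      intro y
      rw [hv y]
      rfl
    have h1 := hw _ hz
    rw [bet_apply, bet_apply] at h1
    simp only at h1
    rw [dotProduct_comm w.1 v, hv w.1, LinearMap.add_apply, LinearMap.flip_apply] at h1
    rw [dotProduct_comm]
    have h2 : x ⬝ᵥ w.2 = (x ⬝ᵥ w.2 + ((B x) w.1 + (B w.1) x)) + ((B w.1) x + (B x) w.1) := by
      have := zmod2_add_self (B x w.1)
      have h3 := zmod2_add_self (B w.1 x)
      linear_combination -this - h3
    rw [h2, h1, zero_add]

/-- A phase as a vector. -/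
noncomputable def phV {n : ℕ} (q : (Fin n → ZMod 2) → ZMod 2) : EE n :=
  WithLp.toLp 2 fun x => phase (q x)

lemma phV_apply {n : ℕ} (q : (Fin n → ZMod 2) → ZMod 2) (x : Fin n → ZMod 2) :
    phV q x = phase (q x) := rfl

lemma eig_phV {n : ℕ} {q : (Fin n → ZMod 2) → ZMod 2}
    {B : (Fin n → ZMod 2) →ₗ[ZMod 2] (Fin n → ZMod 2) →ₗ[ZMod 2] ZMod 2}
    {l : (Fin n → ZMod 2) →ₗ[ZMod 2] ZMod 2} {c : ZMod 2} (hq : ∀ x, q x = B x x + l x + c) :
    Eig (weyl n) (lagQ B) (phV q) := by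
  intro w hw
  have h1 : (weyl n).P w (phV q) = phase (B w.1 w.1 + l w.1) • phV q := by
    ext x
    change opP w (phV q) x = _
    rw [opP_apply, PiLp.smul_apply, smul_eq_mul, phV_apply, phV_apply, hw x, ← phase_add,
      ← phase_add]
    congr 1
    rw [hq, hq]
    simp only [map_add, LinearMap.add_apply]
    have := zmod2_add_self (B x w.1)
    have h3 := zmod2_add_self (B w.1 x)
    linear_combination this + h3
  rw [h1]
  rcases phase_eq (B w.1 w.1 + l w.1) with h | h
  · left; rw [h, one_smul]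
  · right; rw [h, neg_smul, one_smul]

lemma lagPt_inf_lagQ {n : ℕ}
    (B : (Fin n → ZMod 2) →ₗ[ZMod 2] (Fin n → ZMod 2) →ₗ[ZMod 2] ZMod 2) :
    lagPt n ⊓ lagQ B = ⊥ := by
  rw [eq_bot_iff]
  rintro w ⟨h1, h2⟩
  rw [SetLike.mem_coe, mem_lagPt] at h1
  rw [Submodule.mem_bot]
  ext i
  · rw [h1]; rfl
  · have := h2 (Pi.single i 1)
    rw [h1] at this
    simpa using this

/-- The parametric lower bound. -/
theorem lower_param {n m K T l : ℕ} (hK : 1 ≤ K) (hn : 8 * K ^ 2 * l + 2 * T ≤ n)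
    (hl : 4 * (K * T) * K ≤ 2 ^ l) (h : Represents n m) : K * T < m := by
  by_contra hcon
  push Not at hcon
  obtain ⟨q, c, hq, hrep⟩ := h
  have hq' : ∀ i, ∃ (B : (Fin n → ZMod 2) →ₗ[ZMod 2] (Fin n → ZMod 2) →ₗ[ZMod 2] ZMod 2)
      (l : (Fin n → ZMod 2) →ₗ[ZMod 2] ZMod 2) (c : ZMod 2), ∀ x, q i x = B x x + l x + c :=
    fun i => (isQuad_iff_quadOn _).mp (hq i)
  choose B l' c' hB using hq'
  have hconf : Conf (weyl n) 0 (Finset.univ : Finset (Fin m)) (andV n) (lagPt n)
      (fun i => phV (q i)) (fun i => lagQ (B i)) := by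
    refine ⟨lag_lagPt n, fun i _ => lag_lagQ _, eig_andV n, fun i _ => eig_phV (hB i),
      andV_ne n, ⟨c, ?_⟩, fun i _ => ?_⟩
    · ext x
      rw [andV_apply, hrep x]
      simp [phV_apply]
    · rw [lagPt_inf_lagQ, finrank_bot]
  refine main_induction (sympl_bet n) hK hl T 0 _ _ _ _ _ hconf ?_ ?_ (by omega)
  · rw [Finset.card_univ, Fintype.card_fin]; exact hcon
  · rw [Finset.card_univ, Fintype.card_fin]; exact hcon

end Pool.Agent.Lib.MP_a387ab_co.LB
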