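import Pool.Agent.Lib.MP_a387ab_co.Defs

namespace Pool.Agent.Lib.MP_a387ab_co

open Finset

/-- The standard pairing on `F_2^d`. -/
def pair {d : ℕ} (u y : Fin d → ZMod 2) : ZMod 2 := ∑ j, u j * y j

/-- A (non normalised) Fourier coefficient. -/
noncomputable def four {d : ℕ} (F : (Fin d → ZMod 2) → ℝ) (u : Fin d → ZMod 2) : ℝ :=
  ∑ y, F y * phase (pair u y)

lemma pair_add {d : ℕ} (u y z : Fin d → ZMod 2) : pair u (y + z) = pair u y + pair u z := by
  simp [pair, mul_add, Finset.sum_add_distrib]

lemma pair_single {d : ℕ} (u : Fin d → ZMod 2) (v : Fin d) :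
    pair u (Pi.single v 1) = u v := by
  simp [pair, Pi.single_apply]

/-- If the polar form of a quadratic polynomial vanishes on pairs of coordinates outside `U`,
then its phase has at most `4 ^ |U|` nonzero Fourier coefficients. -/
lemma card_four_ne_zero_le {d : ℕ} (B : (Fin d → ZMod 2) →ₗ[ZMod 2] (Fin d → ZMod 2) →ₗ[ZMod 2] ZMod 2)
    (l : (Fin d → ZMod 2) →ₗ[ZMod 2] ZMod 2) (c : ZMod 2) (U : Finset (Fin d))
    (hU : ∀ u v, u ∉ U → v ∉ U →
      B (Pi.single u 1) (Pi.single v 1) + B (Pi.single v 1) (Pi.single u 1) = 0) :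
    (Finset.univ.filter fun w => four (fun y => phase (B y y + l y + c)) w ≠ 0).card
      ≤ 4 ^ U.card := by
  classical
  -- the coefficient of `y v` once the coordinates in `U` are fixed
  let ext : (U → ZMod 2) → (Fin d → ZMod 2) := fun z v => if h : v ∈ U then z ⟨v, h⟩ else 0
  let lam : (U → ZMod 2) → Fin d → ZMod 2 := fun z v =>
    B (ext z) (Pi.single v 1) + B (Pi.single v 1) (ext z) + B (Pi.single v 1) (Pi.single v 1)
      + l (Pi.single v 1)
  let res : (Fin d → ZMod 2) → (U → ZMod 2) := fun y u => y u
  have hlam : ∀ (y : Fin d → ZMod 2) (v : Fin d), v ∉ U →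
      B y (Pi.single v 1) + B (Pi.single v 1) y + B (Pi.single v 1) (Pi.single v 1)
      + l (Pi.single v 1) = lam (res y) v := by
    intro y v hv
    have hy : y = ext (res y) + ∑ u ∈ Uᶜ, y u • (Pi.single u (1 : ZMod 2) : Fin d → ZMod 2) := by
      ext w
      simp only [Pi.add_apply, Finset.sum_apply, Pi.smul_apply, smul_eq_mul, ext, res]
      by_cases hw : w ∈ U
      · have : ∑ u ∈ Uᶜ, y u * (Pi.single u (1 : ZMod 2) : Fin d → ZMod 2) w = 0 := by
          refine Finset.sum_eq_zero fun u hu => ?_
          have huw : w ≠ u := by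
            rintro rfl
            exact (Finset.mem_compl.mp hu) hw
          rw [Pi.single_eq_of_ne huw, mul_zero]
        rw [this]; simp [hw]
      · have : ∑ u ∈ Uᶜ, y u * (Pi.single u (1 : ZMod 2) : Fin d → ZMod 2) w = y w := by
          rw [Finset.sum_eq_single w]
          · simp
          · intro u _ huw
            rw [Pi.single_eq_of_ne (Ne.symm huw), mul_zero]
          · intro h
            exact absurd (Finset.mem_compl.mpr hw) h
        rw [this]; simp [hw]
    have key : B (∑ u ∈ Uᶜ, y u • (Pi.single u (1 : ZMod 2) : Fin d → ZMod 2)) (Pi.single v 1)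
        + B (Pi.single v 1) (∑ u ∈ Uᶜ, y u • (Pi.single u (1 : ZMod 2) : Fin d → ZMod 2)) = 0 := by
      simp only [map_sum, LinearMap.sum_apply, map_smul, LinearMap.smul_apply, smul_eq_mul]
      rw [← Finset.sum_add_distrib]
      refine Finset.sum_eq_zero fun u hu => ?_
      rw [← mul_add, hU u v (Finset.mem_compl.mp hu) hv, mul_zero]
    have e1 : B y (Pi.single v 1) = B (ext (res y)) (Pi.single v 1)
        + B (∑ u ∈ Uᶜ, y u • (Pi.single u (1 : ZMod 2) : Fin d → ZMod 2)) (Pi.single v 1) := by
      conv_lhs => rw [hy]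
      rw [map_add, LinearMap.add_apply]
    have e2 : B (Pi.single v 1) y = B (Pi.single v 1) (ext (res y))
        + B (Pi.single v 1) (∑ u ∈ Uᶜ, y u • (Pi.single u (1 : ZMod 2) : Fin d → ZMod 2)) := by
      conv_lhs => rw [hy]
      rw [map_add]
    simp only [lam]
    rw [e1, e2]
    linear_combination key
  -- nonzero coefficients are parametrised by two assignments on `U`
  have hsub : (Finset.univ.filter fun w =>
        four (fun y => phase (B y y + l y + c)) w ≠ 0) ⊆
      Finset.univ.image (fun p : (U → ZMod 2) × (U → ZMod 2) =>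
        (fun v => if h : v ∈ U then p.2 ⟨v, h⟩ else lam p.1 v : Fin d → ZMod 2)) := by
    intro w hw
    rw [Finset.mem_filter] at hw
    by_contra hcon
    apply hw.2
    have hz : ∀ z : U → ZMod 2, ∃ v, v ∉ U ∧ lam z v + w v = 1 := by
      intro z
      by_contra hno
      push Not at hno
      apply hcon
      rw [Finset.mem_image]
      refine ⟨(z, res w), Finset.mem_univ _, ?_⟩
      ext v
      by_cases hv : v ∈ U
      · simp [hv, res]
      · have h1 := hno v hv
        have key : ∀ a b : ZMod 2, a + b ≠ 1 → a = b := by decide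
        simp [hv, key _ _ h1]
    choose vz hvU hv1 using hz
    unfold four
    refine Finset.sum_involution (fun y _ => y + Pi.single (vz (res y)) 1) ?_ ?_ ?_ ?_
    · intro y _
      set v := vz (res y) with hv
      have hl := hlam y v (hvU _)
      have h1 := hv1 (res y)
      rw [← hv] at h1
      have h2 : B (y + Pi.single v 1) (y + Pi.single v 1) + l (y + Pi.single v 1) + c
          + pair w (y + Pi.single v 1) = (B y y + l y + c + pair w y) + 1 := by
        rw [pair_add, pair_single]
        simp only [map_add, LinearMap.add_apply]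
        linear_combination hl + h1
      rw [← phase_add, ← phase_add, h2, phase_add _ 1, phase_one]
      ring
    · intro y _ _ hcontra
      have : (Pi.single (vz (res y)) (1 : ZMod 2) : Fin d → ZMod 2) = 0 :=
        add_eq_left.mp hcontra
      have h2 := congrFun this (vz (res y))
      simp at h2
    · intro y _
      exact Finset.mem_univ _
    · intro y _
      have hres : res (y + Pi.single (vz (res y)) 1) = res y := by
        ext u
        simp only [res, Pi.add_apply]
        have : (u : Fin d) ≠ vz (res y) := by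
          rintro h
          exact hvU (res y) (h ▸ u.2)
        rw [Pi.single_eq_of_ne this, add_zero]
      simp only [hres]
      rw [add_assoc]
      have : (Pi.single (vz (res y)) (1 : ZMod 2) : Fin d → ZMod 2)
          + Pi.single (vz (res y)) 1 = 0 := by
        ext j
        simp only [Pi.add_apply, Pi.zero_apply]
        exact zmod2_add_self _
      rw [this, add_zero]
  calc _ ≤ (Finset.univ.image (fun p : (U → ZMod 2) × (U → ZMod 2) =>
        (fun v => if h : v ∈ U then p.2 ⟨v, h⟩ else lam p.1 v : Fin d → ZMod 2))).card :=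
        Finset.card_le_card hsub
    _ ≤ Fintype.card ((U → ZMod 2) × (U → ZMod 2)) := Finset.card_image_le
    _ = 4 ^ U.card := by
        rw [Fintype.card_prod, Fintype.card_fun, ZMod.card, Fintype.card_coe, ← mul_pow]
        norm_num

/-- If a combination of `m` functions is the indicator of the origin, then the numbers of
nonzero Fourier coefficients add up to at least `2 ^ d`. -/
lemma two_pow_le_sum_card {d m : ℕ} (F : Fin m → (Fin d → ZMod 2) → ℝ) (c : Fin m → ℝ)
    (h : ∀ y, (if y = 0 then (1 : ℝ) else 0) = ∑ i, c i * F i y) :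
    2 ^ d ≤ ∑ i, (Finset.univ.filter fun w => four (F i) w ≠ 0).card := by
  classical
  have hsum : ∀ w : Fin d → ZMod 2, ∑ i, c i * four (F i) w = 1 := by
    intro w
    have h1 : ∑ i, c i * four (F i) w = ∑ y, (∑ i, c i * F i y) * phase (pair w y) := by
      unfold four
      simp_rw [Finset.mul_sum, Finset.sum_mul]
      rw [Finset.sum_comm]
      exact Finset.sum_congr rfl fun i _ => Finset.sum_congr rfl fun j _ => by ring
    rw [h1]
    simp_rw [← h]
    simp [pair, phase_zero]
  have hcov : (Finset.univ : Finset (Fin d → ZMod 2)) ⊆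
      Finset.univ.biUnion fun i => Finset.univ.filter fun w => four (F i) w ≠ 0 := by
    intro w _
    rw [Finset.mem_biUnion]
    by_contra hcon
    push Not at hcon
    have h2 : ∀ i, four (F i) w = 0 := by
      intro i
      by_contra h3
      exact hcon i (Finset.mem_univ _) (Finset.mem_filter.mpr ⟨Finset.mem_univ _, h3⟩)
    have h4 := hsum w
    simp [h2] at h4
  calc 2 ^ d = (Finset.univ : Finset (Fin d → ZMod 2)).card := by
        rw [Finset.card_univ, Fintype.card_fun, ZMod.card, Fintype.card_fin]
    _ ≤ _ := Finset.card_le_card hcov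
    _ ≤ _ := Finset.card_biUnion_le

end Pool.Agent.Lib.MP_a387ab_co
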