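import Mathlib

namespace Pool.Agent.Lib.MP_a387ab_co

open Finset

/-- Polynomial functions of degree at most two in `n` variables over the field with two
elements, in the coordinates of the problem file. -/
def IsQuad {n : ℕ} (q : (Fin n → ZMod 2) → ZMod 2) : Prop :=
  ∃ (a : Fin n → Fin n → ZMod 2) (b : Fin n → ZMod 2) (c : ZMod 2),
    ∀ x, q x = ∑ i, ∑ j ∈ Finset.Ioi i, a i j * x i * x j + ∑ i, b i * x i + c

/-- The real sign `(-1)^z` of an element of the field with two elements. -/
def phase (z : ZMod 2) : ℝ := (-1) ^ z.val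

/-- The indicator function of the all ones point. -/
def andFn {n : ℕ} (x : Fin n → ZMod 2) : ℝ := if x = fun _ => 1 then 1 else 0

/-- `AND_n` is a real combination of `m` quadratic phases. -/
def Represents (n m : ℕ) : Prop :=
  ∃ (q : Fin m → (Fin n → ZMod 2) → ZMod 2) (c : Fin m → ℝ),
    (∀ i, IsQuad (q i)) ∧ ∀ x, andFn x = ∑ i, c i * phase (q i x)

/-- The least number of quadratic phases needed to represent `AND_n`. -/
noncomputable def minPhases (n : ℕ) : ℕ := sInf {m | Represents n m}

/-! ### Coordinate free version -/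

/-- Functions of the form bilinear plus linear plus constant on a vector space. -/
def QuadOn {V : Type*} [AddCommGroup V] [Module (ZMod 2) V] (q : V → ZMod 2) : Prop :=
  ∃ (B : V →ₗ[ZMod 2] V →ₗ[ZMod 2] ZMod 2) (l : V →ₗ[ZMod 2] ZMod 2) (c : ZMod 2),
    ∀ x, q x = B x x + l x + c

lemma zmod2_mul_self (z : ZMod 2) : z * z = z := by
  revert z; decide

lemma zmod2_add_self (z : ZMod 2) : z + z = 0 := by
  revert z; decide

lemma phase_add (a b : ZMod 2) : phase (a + b) = phase a * phase b := by
  have h0 : phase 0 = 1 := by simp [phase]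
  have h1 : phase 1 = -1 := by unfold phase; simp [ZMod.val_one]
  have key : ∀ z : ZMod 2, z = 0 ∨ z = 1 := by decide
  have h11 : (1 : ZMod 2) + 1 = 0 := by decide
  rcases key a with rfl | rfl <;> rcases key b with rfl | rfl <;> simp [h0, h1, h11]

lemma phase_zero : phase 0 = 1 := by simp [phase]

lemma phase_one : phase 1 = -1 := by
  unfold phase; simp [ZMod.val_one]

lemma phase_sq (a : ZMod 2) : phase a * phase a = 1 := by
  rw [← phase_add, zmod2_add_self, phase_zero]

section
variable {V W : Type*} [AddCommGroup V] [Module (ZMod 2) V] [AddCommGroup W] [Module (ZMod 2) W]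

lemma QuadOn.comp_affine {q : V → ZMod 2} (hq : QuadOn q) (f : W →ₗ[ZMod 2] V) (t : V) :
    QuadOn (fun w => q (f w + t)) := by
  obtain ⟨B, l, c, h⟩ := hq
  refine ⟨B.compl₁₂ f f, l ∘ₗ f + (B.flip t) ∘ₗ f + (B t) ∘ₗ f, B t t + l t + c, fun w => ?_⟩
  simp only [h, map_add, LinearMap.add_apply, LinearMap.compl₁₂_apply, LinearMap.comp_apply,
    LinearMap.flip_apply]
  ring

lemma QuadOn.add {q r : V → ZMod 2} (hq : QuadOn q) (hr : QuadOn r) :
    QuadOn (fun x => q x + r x) := by
  obtain ⟨B, l, c, h⟩ := hq
  obtain ⟨B', l', c', h'⟩ := hr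
  refine ⟨B + B', l + l', c + c', fun x => ?_⟩
  simp only [h, h', LinearMap.add_apply]
  ring

lemma QuadOn.const (c : ZMod 2) : QuadOn (fun _ : V => c) :=
  ⟨0, 0, c, fun x => by simp⟩

end

/-- The two notions of quadratic polynomial agree. -/
lemma isQuad_iff_quadOn {n : ℕ} (q : (Fin n → ZMod 2) → ZMod 2) : IsQuad q ↔ QuadOn q := by
  constructor
  · rintro ⟨a, b, c, h⟩
    refine ⟨∑ i, ∑ j ∈ Finset.Ioi i,
        (LinearMap.mk₂ (ZMod 2) (fun x y : Fin n → ZMod 2 => a i j * x i * y j)
          (fun _ _ _ => by simp; ring) (fun _ _ _ => by simp; ring)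
          (fun _ _ _ => by simp; ring) (fun _ _ _ => by simp; ring)),
      ∑ i, b i • LinearMap.proj i, c, fun x => ?_⟩
    rw [h]
    simp [LinearMap.sum_apply, LinearMap.mk₂_apply]
  · rintro ⟨B, l, c, h⟩
    refine ⟨fun i j => B (Pi.single i 1) (Pi.single j 1) + B (Pi.single j 1) (Pi.single i 1),
      fun i => B (Pi.single i 1) (Pi.single i 1) + l (Pi.single i 1), c, fun x => ?_⟩
    rw [h]
    have hx : x = ∑ i, x i • (Pi.single i 1 : Fin n → ZMod 2) := by
      ext j
      simp [Finset.sum_apply, Pi.single_apply]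
    have hB : B x x = ∑ i, ∑ j, x i * x j * B (Pi.single i 1) (Pi.single j 1) := by
      conv_lhs => rw [hx]
      simp only [map_sum, LinearMap.sum_apply, map_smul, LinearMap.smul_apply, smul_eq_mul]
      simp only [Finset.mul_sum]
      rw [Finset.sum_comm]
      refine Finset.sum_congr rfl fun i _ => Finset.sum_congr rfl fun j _ => by ring
    have hl : l x = ∑ i, x i * l (Pi.single i 1) := by
      conv_lhs => rw [hx]
      simp only [map_sum, map_smul, smul_eq_mul]
    have hsplit : ∀ F : Fin n → Fin n → ZMod 2,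
        ∑ i, ∑ j, F i j = ∑ i, ∑ j ∈ Finset.Ioi i, (F i j + F j i) + ∑ i, F i i := by
      intro F
      have h1 : ∀ i : Fin n, ∑ j, F i j = ∑ j ∈ Finset.Ioi i, F i j + F i i
          + ∑ j ∈ Finset.Iio i, F i j := by
        intro i
        have hu : (Finset.univ : Finset (Fin n)) = (Finset.Ioi i ∪ {i}) ∪ Finset.Iio i := by
          ext j; simp only [Finset.mem_univ, Finset.mem_union, Finset.mem_Ioi,
            Finset.mem_singleton, Finset.mem_Iio, true_iff]
          rcases lt_trichotomy i j with h | h | h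
          · exact Or.inl (Or.inl h)
          · exact Or.inl (Or.inr h.symm)
          · exact Or.inr h
        rw [hu, Finset.sum_union, Finset.sum_union, Finset.sum_singleton]
        · simp
        · rw [Finset.disjoint_left]
          intro j hj hj'
          simp only [Finset.mem_union, Finset.mem_Ioi, Finset.mem_singleton,
            Finset.mem_Iio] at hj hj'
          rcases hj with hj | hj
          · exact absurd hj (not_lt.mpr hj'.le)
          · exact absurd hj' (by rw [hj]; exact lt_irrefl _)
      simp_rw [h1, Finset.sum_add_distrib]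
      have h2 : ∑ i, ∑ j ∈ Finset.Iio i, F i j = ∑ i, ∑ j ∈ Finset.Ioi i, F j i := by
        rw [Finset.sum_sigma', Finset.sum_sigma']
        refine Finset.sum_bij' (fun p _ => ⟨p.2, p.1⟩) (fun p _ => ⟨p.2, p.1⟩) ?_ ?_ ?_ ?_ ?_
        · intro p hp; simpa using hp
        · intro p hp; simpa using hp
        · intro p hp; rfl
        · intro p hp; rfl
        · intro p hp; rfl
      rw [h2]
      ring
    rw [hB, hsplit, hl]
    have h3 : ∀ i, x i * x i = x i := fun i => zmod2_mul_self _
    simp_rw [h3]
    have h4 : ∑ i, (B (Pi.single i 1) (Pi.single i 1) + l (Pi.single i 1)) * x i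
        = ∑ i, x i * B (Pi.single i 1) (Pi.single i 1) + ∑ i, x i * l (Pi.single i 1) := by
      rw [← Finset.sum_add_distrib]
      exact Finset.sum_congr rfl fun i _ => by ring
    rw [h4]
    have h5 : ∑ i, ∑ j ∈ Finset.Ioi i, (x i * x j * B (Pi.single i 1) (Pi.single j 1)
          + x j * x i * B (Pi.single j 1) (Pi.single i 1))
        = ∑ i, ∑ j ∈ Finset.Ioi i, (B (Pi.single i 1) (Pi.single j 1)
          + B (Pi.single j 1) (Pi.single i 1)) * x i * x j :=
      Finset.sum_congr rfl fun i _ => Finset.sum_congr rfl fun j _ => by ring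
    rw [h5]
    ring

end Pool.Agent.Lib.MP_a387ab_co
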