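import Pool.Agent.Lib.MP_a387ab_co.Defs

namespace Pool.Agent.Lib.MP_a387ab_co

open Finset

/-- The integer sign of an element of the field with two elements. -/
def zph (z : ZMod 2) : ℤ := (-1) ^ z.val

lemma zph_cast (z : ZMod 2) : (zph z : ℝ) = phase z := by simp [zph, phase]

lemma zph_add (a b : ZMod 2) : zph (a + b) = zph a * zph b := by
  have h := phase_add a b
  rw [← zph_cast, ← zph_cast, ← zph_cast] at h
  exact_mod_cast h

lemma zph_zero : zph 0 = 1 := by simp [zph]

lemma zph_one : zph 1 = -1 := by unfold zph; simp [ZMod.val_one]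

lemma abs_zph (z : ZMod 2) : |zph z| = 1 := by
  have key : ∀ z : ZMod 2, z = 0 ∨ z = 1 := by decide
  rcases key z with rfl | rfl
  · simp [zph_zero]
  · simp [zph_one]

variable {n : ℕ}

lemma sum_zph_linear (l : (Fin n → ZMod 2) →ₗ[ZMod 2] ZMod 2) :
    ∑ x, zph (l x) = if l = 0 then 2 ^ n else 0 := by
  classical
  by_cases hl : l = 0
  · simp [hl, zph_zero, ZMod.card]
  · rw [if_neg hl]
    obtain ⟨u, hu⟩ : ∃ u, l u ≠ 0 := by
      by_contra h
      push Not at h
      exact hl (LinearMap.ext h)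
    have hu1 : l u = 1 := by
      have key : ∀ z : ZMod 2, z ≠ 0 → z = 1 := by decide
      exact key _ hu
    have h1 : ∑ x, zph (l x) = ∑ x, zph (l (x + u)) :=
      (Equiv.sum_comp (Equiv.addRight u) (fun x => zph (l x))).symm
    have h2 : ∑ x, zph (l (x + u)) = - ∑ x, zph (l x) := by
      rw [← Finset.sum_neg_distrib]
      refine Finset.sum_congr rfl fun x _ => ?_
      rw [map_add, zph_add, hu1, zph_one]; ring
    omega

/-- The square of a complete quadratic character sum is divisible by `2 ^ n`. -/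
lemma sq_dvd {q : (Fin n → ZMod 2) → ZMod 2} (hq : QuadOn q) :
    (2 : ℤ) ^ n ∣ (∑ x, zph (q x)) ^ 2 := by
  classical
  obtain ⟨B, l, c, h⟩ := hq
  have h1 : (∑ x, zph (q x)) ^ 2 = ∑ u, ∑ x, zph (q x) * zph (q (x + u)) := by
    rw [sq, Finset.sum_mul_sum, Finset.sum_comm]
    rw [Finset.sum_comm]
    have : ∀ x : Fin n → ZMod 2, ∑ y, zph (q x) * zph (q y)
        = ∑ u, zph (q x) * zph (q (x + u)) := by
      intro x
      exact (Equiv.sum_comp (Equiv.addLeft x) (fun y => zph (q x) * zph (q y))).symm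
    simp_rw [this]
    rw [Finset.sum_comm]
  rw [h1]
  refine Finset.dvd_sum fun u _ => ?_
  have h2 : ∀ x, zph (q x) * zph (q (x + u))
      = zph (B u u + l u) * zph ((B u + B.flip u) x) := by
    intro x
    rw [← zph_add, ← zph_add, h, h]
    congr 1
    simp only [map_add, LinearMap.add_apply, LinearMap.flip_apply]
    have e1 := zmod2_add_self (B x x)
    have e2 := zmod2_add_self (l x)
    have e3 := zmod2_add_self c
    linear_combination e1 + e2 + e3
  simp_rw [h2]
  rw [← Finset.mul_sum, sum_zph_linear]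
  split_ifs
  · exact Dvd.intro_left _ rfl
  · simp

/-- A complete quadratic character sum in `n` variables is divisible by `2 ^ ⌈n / 2⌉`. -/
lemma sum_dvd {q : (Fin n → ZMod 2) → ZMod 2} (hq : QuadOn q) :
    (2 : ℤ) ^ ((n + 1) / 2) ∣ ∑ x, zph (q x) := by
  have h := sq_dvd hq
  set S := ∑ x, zph (q x)
  rcases Nat.even_or_odd' n with ⟨k, hk | hk⟩
  · have hk' : (n + 1) / 2 = k := by omega
    rw [hk'] 
    rw [hk, mul_comm, pow_mul] at h
    exact (Int.pow_dvd_pow_iff (by norm_num)).mp h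
  · have hk' : (n + 1) / 2 = k + 1 := by omega
    rw [hk']
    rw [hk, pow_succ, mul_comm 2 k, pow_mul] at h
    have h2 : (2 : ℤ) ^ k ∣ S :=
      (Int.pow_dvd_pow_iff (by norm_num)).mp (Dvd.dvd.trans (Dvd.intro _ rfl) h)
    obtain ⟨T, hT⟩ := h2
    rw [hT, mul_pow] at h
    have h3 : (2 : ℤ) ∣ T ^ 2 := by
      have hpos : ((2 : ℤ) ^ k) ^ 2 ≠ 0 := by positivity
      exact (mul_dvd_mul_iff_left hpos).mp h
    have h4 : (2 : ℤ) ∣ T := Int.prime_two.dvd_of_dvd_pow h3
    obtain ⟨R, hR⟩ := h4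
    rw [hT, hR]
    exact ⟨R, by ring⟩

end Pool.Agent.Lib.MP_a387ab_co
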