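import Mathlib

namespace Pool.Agent.Lib.MP_a387ab_co

open Finset Matrix

/-- The determinant is bounded by the product of the `l^1` norms of the rows. -/
lemma abs_det_le_prod {ι : Type*} [Fintype ι] [DecidableEq ι] (M : Matrix ι ι ℤ) :
    |M.det| ≤ ∏ i, ∑ j, |M i j| := by
  rw [← Matrix.det_transpose, Matrix.det_apply']
  calc |∑ σ : Equiv.Perm ι, ((Equiv.Perm.sign σ : ℤ) : ℤ) * ∏ i, Mᵀ (σ i) i|
      ≤ ∑ σ : Equiv.Perm ι, |((Equiv.Perm.sign σ : ℤ) : ℤ) * ∏ i, Mᵀ (σ i) i| :=
        Finset.abs_sum_le_sum_abs _ _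
    _ = ∑ σ : Equiv.Perm ι, ∏ i, |M i (σ i)| := by
        refine Finset.sum_congr rfl fun σ _ => ?_
        rw [abs_mul, Finset.abs_prod]
        have : |((Equiv.Perm.sign σ : ℤ) : ℤ)| = 1 := by
          rcases Int.units_eq_one_or (Equiv.Perm.sign σ) with h | h <;> simp [h]
        rw [this, one_mul]
        rfl
    _ = ∑ f ∈ (Finset.univ.image fun σ : Equiv.Perm ι => (σ : ι → ι)), ∏ i, |M i (f i)| := by
        rw [Finset.sum_image]
        intro σ _ τ _ h
        exact Equiv.coe_fn_injective h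
    _ ≤ ∑ f : ι → ι, ∏ i, |M i (f i)| :=
        Finset.sum_le_sum_of_subset_of_nonneg (Finset.subset_univ _)
          fun f _ _ => Finset.prod_nonneg fun i _ => abs_nonneg _
    _ = ∏ i, ∑ j, |M i j| := by
        rw [Finset.prod_univ_sum, Fintype.piFinset_univ]

/-- A Cramer type bound: if a real combination of `k` integer valued functions is the indicator
of a point, the functions are bounded in `l^1` norm by `L`, and all their sums are divisible by
`D`, then `D ≤ L ^ k`. -/
lemma height_bound {X : Type*} [Fintype X] [DecidableEq X] {k : ℕ} (F : X → Fin k → ℤ)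
    (a : Fin k → ℝ) (x0 : X) (h : ∀ x, ∑ j, a j * F x j = if x = x0 then 1 else 0)
    (L : ℕ) (hL : ∀ x, ∑ j, |F x j| ≤ L) (D : ℤ) (hD : ∀ j, D ∣ ∑ x, F x j) :
    D ≤ (L : ℤ) ^ k := by
  classical
  -- a support of minimal size
  let P : ℕ → Prop := fun s => ∃ J : Finset (Fin k), J.card = s ∧ ∃ b : Fin k → ℝ,
    (∀ j, j ∉ J → b j = 0) ∧ ∀ x, ∑ j, b j * F x j = if x = x0 then 1 else 0
  have hP : ∃ s, P s := ⟨_, Finset.univ, rfl, a, fun j hj => absurd (Finset.mem_univ j) hj, h⟩
  obtain ⟨J, hJcard, b, hbJ, hb⟩ := Nat.find_spec hP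
  have hmin : ∀ J' : Finset (Fin k), J'.card < J.card → ¬ ∃ b : Fin k → ℝ,
      (∀ j, j ∉ J' → b j = 0) ∧ ∀ x, ∑ j, b j * F x j = if x = x0 then 1 else 0 := by
    intro J' hJ' hcon
    exact Nat.find_min hP (hJcard ▸ hJ') ⟨J', rfl, hcon⟩
  -- the rows restricted to `J`
  let v : X → (J → ℝ) := fun x j => (F x j : ℝ)
  have hsumJ : ∀ (g : Fin k → ℝ), (∀ j, j ∉ J → g j = 0) →
      ∑ j, g j = ∑ j : J, g j := by
    intro g hg
    rw [← Finset.sum_subset (Finset.subset_univ J) (fun j _ hj => hg j hj)]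
    exact (Finset.sum_coe_sort J g).symm
  have hbv : ∀ x, ∑ j : J, b j * v x j = if x = x0 then 1 else 0 := by
    intro x
    rw [← hb x, hsumJ (fun j => b j * F x j) (fun j hj => by simp [hbJ j hj])]
  -- the rows span
  have hspan : Submodule.span ℝ (Set.range v) = ⊤ := by
    by_contra hne
    obtain ⟨f, hf0, hf⟩ := Submodule.exists_le_ker_of_lt_top _ (lt_top_iff_ne_top.mpr hne)
    have hfv : ∀ x, f (v x) = 0 := fun x => by
      have : v x ∈ LinearMap.ker f := hf (Submodule.subset_span ⟨x, rfl⟩)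
      simpa using this
    let c : Fin k → ℝ := fun j => if hj : j ∈ J then f (Pi.single ⟨j, hj⟩ 1) else 0
    have hc0 : ∀ j, j ∉ J → c j = 0 := fun j hj => by simp [c, hj]
    have hfc : ∀ w : J → ℝ, f w = ∑ j : J, c j * w j := by
      intro w
      have hw : w = ∑ j : J, w j • (Pi.single j (1 : ℝ) : J → ℝ) := by
        ext j
        simp [Finset.sum_apply, Pi.single_apply]
      conv_lhs => rw [hw]
      rw [map_sum]
      refine Finset.sum_congr rfl fun j _ => ?_
      rw [map_smul, smul_eq_mul, mul_comm]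
      congr 1
      simp [c]
    obtain ⟨j0, hj0⟩ : ∃ j0 : J, c j0 ≠ 0 := by
      by_contra hcon
      push Not at hcon
      apply hf0
      ext w
      simp [hfc, hcon]
    have hcF : ∀ x, ∑ j, c j * F x j = 0 := by
      intro x
      rw [hsumJ (fun j => c j * F x j) (fun j hj => by simp [hc0 j hj])]
      rw [← hfv x, hfc]
    refine hmin (J.erase j0) (Finset.card_erase_lt_of_mem j0.2)
      ⟨fun j => b j - b j0 / c j0 * c j, fun j hj => ?_, fun x => ?_⟩
    · by_cases hjj : j = j0
      · simp only [hjj]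
        rw [div_mul_cancel₀ _ hj0, sub_self]
      · have : j ∉ J := fun hj' => hj (Finset.mem_erase.mpr ⟨hjj, hj'⟩)
        simp [hbJ j this, hc0 j this]
    · have : ∑ j, (b j - b j0 / c j0 * c j) * (F x j : ℝ)
          = ∑ j, b j * F x j - b j0 / c j0 * ∑ j, c j * F x j := by
        rw [Finset.mul_sum, ← Finset.sum_sub_distrib]
        exact Finset.sum_congr rfl fun j _ => by ring
      rw [this, hb x, hcF x]
      simp
  have hv0 : v x0 ≠ 0 := by
    intro h0
    have := hbv x0
    simp [h0] at this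
  -- a basis of rows through `x0`
  obtain ⟨s, hs_range, hs0, hs_span, hs_ind⟩ := exists_linearIndepOn_id_extension
    (K := ℝ) (s := {v x0}) (t := Set.range v)
    ((linearIndepOn_singleton_iff (R := ℝ) (v := id)).mpr hv0)
    (by rintro _ rfl; exact ⟨x0, rfl⟩)
  have hs_top : ⊤ ≤ Submodule.span ℝ (Set.range ((↑) : s → (J → ℝ))) := by
    rw [Subtype.range_coe, ← hspan]
    exact Submodule.span_le.mpr hs_span
  let B : Module.Basis s ℝ (J → ℝ) := Module.Basis.mk hs_ind hs_top
  have : Fintype s := FiniteDimensional.fintypeBasisIndex B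
  have hcard : Fintype.card J = Fintype.card s := by
    rw [← Module.finrank_eq_card_basis B, Module.finrank_fintype_fun_eq_card]
  let e : J ≃ s := Fintype.equivOfCardEq hcard
  have hrow : ∀ i : J, ∃ x, v x = e i := fun i => hs_range (e i).2
  choose xr hxr using hrow
  let M : Matrix J J ℤ := fun i j => F (xr i) j
  let MR : Matrix J J ℝ := M.map (Int.castRingHom ℝ)
  have hMR : ∀ i j, MR i j = v (xr i) j := fun i j => rfl
  have hrows : LinearIndependent ℝ MR.row := by
    have h1 : MR.row = ((↑) : s → (J → ℝ)) ∘ e := by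
      ext i j
      simp only [Function.comp_apply, ← hxr i]
      rfl
    rw [h1]
    exact hs_ind.comp _ e.injective
  have hdetR : MR.det ≠ 0 := by
    have := Matrix.linearIndependent_rows_iff_isUnit.mp hrows
    rw [Matrix.isUnit_iff_isUnit_det] at this
    exact this.ne_zero
  have hdet_cast : (M.det : ℝ) = MR.det := by
    have := RingHom.map_det (Int.castRingHom ℝ) M
    simpa [MR] using this
  have hdet : M.det ≠ 0 := by
    intro h0
    apply hdetR
    rw [← hdet_cast, h0]; simp
  let i0 : J := e.symm ⟨v x0, hs0 rfl⟩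
  have hx_eq : ∀ x, v x = v x0 → x = x0 := by
    intro x hx
    by_contra hne
    have h1 := hbv x
    have h2 := hbv x0
    rw [hx] at h1
    rw [if_neg hne] at h1
    rw [if_pos rfl] at h2
    linarith
  have hmulvec : MR.mulVec (fun j => b j) = Pi.single i0 1 := by
    ext i
    have h1 : (MR.mulVec (fun j : J => b j)) i = ∑ j : J, b j * v (xr i) j := by
      simp only [Matrix.mulVec, dotProduct, hMR]
      exact Finset.sum_congr rfl fun j _ => mul_comm _ _
    rw [h1, hbv]
    by_cases hi : i = i0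
    · have : v (xr i) = v x0 := by
        rw [hxr, hi]; simp [i0]
      rw [if_pos (hx_eq _ this), hi, Pi.single_eq_same]
    · rw [Pi.single_eq_of_ne hi, if_neg]
      intro hx
      apply hi
      have h2 : (e i : J → ℝ) = v x0 := by rw [← hxr i, hx]
      have h3 : e i = ⟨v x0, hs0 rfl⟩ := Subtype.ext h2
      simp [i0, ← h3]
  have hadj : ∀ j : J, MR.det * b j = (M.adjugate j i0 : ℝ) := by
    intro j
    have h1 : MR.adjugate.mulVec (MR.mulVec (fun j => b j)) = MR.det • (fun j : J => b j) := by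
      rw [Matrix.mulVec_mulVec, Matrix.adjugate_mul, Matrix.smul_mulVec, Matrix.one_mulVec]
    rw [hmulvec] at h1
    have h2 := congrFun h1 j
    simp only [Pi.smul_apply, smul_eq_mul] at h2
    rw [← h2]
    have h3 : MR.adjugate = M.adjugate.map (Int.castRingHom ℝ) := by
      have := (RingHom.map_adjugate (Int.castRingHom ℝ) M).symm
      simpa [MR] using this
    rw [h3]
    simp
  have hsum1 : ∑ j : J, b j * ((∑ x, F x j : ℤ) : ℝ) = 1 := by
    have h1 : ∑ j : J, b j * ((∑ x, F x j : ℤ) : ℝ) = ∑ x, ∑ j : J, b j * v x j := by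
      rw [Finset.sum_comm]
      refine Finset.sum_congr rfl fun j _ => ?_
      push_cast
      rw [Finset.mul_sum]
    rw [h1]
    simp_rw [hbv]
    simp
  have hdet_eq : M.det = ∑ j : J, M.adjugate j i0 * ∑ x, F x j := by
    have h1 : (M.det : ℝ) = ((∑ j : J, M.adjugate j i0 * ∑ x, F x j : ℤ) : ℝ) := by
      rw [hdet_cast]
      calc MR.det = MR.det * ∑ j : J, b j * ((∑ x, F x j : ℤ) : ℝ) := by rw [hsum1, mul_one]
        _ = ∑ j : J, (M.adjugate j i0 : ℝ) * ((∑ x, F x j : ℤ) : ℝ) := by
            rw [Finset.mul_sum]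
            refine Finset.sum_congr rfl fun j _ => ?_
            rw [← hadj j]; ring
        _ = _ := by push_cast; rfl
    exact_mod_cast h1
  have hDdvd : D ∣ M.det := by
    rw [hdet_eq]
    exact Finset.dvd_sum fun j _ => Dvd.dvd.mul_left (hD j) _
  have hD_le : D ≤ |M.det| :=
    Int.le_of_dvd (abs_pos.mpr hdet) ((dvd_abs _ _).mpr hDdvd)
  have hL1 : (1 : ℤ) ≤ L := by
    by_contra hcon
    have hL0 : (L : ℤ) = 0 := by omega
    have h1 := hL x0
    rw [hL0] at h1
    have h2 : ∀ j, F x0 j = 0 := by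
      intro j
      have h3 : |F x0 j| ≤ ∑ j, |F x0 j| :=
        Finset.single_le_sum (f := fun j => |F x0 j|) (fun j _ => abs_nonneg _)
          (Finset.mem_univ j)
      have h4 : |F x0 j| = 0 := le_antisymm (h3.trans h1) (abs_nonneg _)
      exact abs_eq_zero.mp h4
    have := h x0
    simp [h2] at this
  calc D ≤ |M.det| := hD_le
    _ ≤ ∏ i : J, ∑ j : J, |M i j| := abs_det_le_prod M
    _ ≤ ∏ _i : J, (L : ℤ) := by
        refine Finset.prod_le_prod (fun i _ => Finset.sum_nonneg fun j _ => abs_nonneg _)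
          (fun i _ => ?_)
        calc ∑ j : J, |M i j| = ∑ j ∈ J, |F (xr i) j| :=
              Finset.sum_coe_sort J (fun j => |F (xr i) j|)
          _ ≤ ∑ j, |F (xr i) j| :=
              Finset.sum_le_sum_of_subset_of_nonneg (Finset.subset_univ _)
                fun j _ _ => abs_nonneg _
          _ ≤ L := hL _
    _ = (L : ℤ) ^ J.card := by simp
    _ ≤ (L : ℤ) ^ k := by
        refine pow_le_pow_right₀ hL1 ?_
        simpa using Finset.card_le_univ J

end Pool.Agent.Lib.MP_a387ab_co
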