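import Pool.Agent.Lib.MP_a387ab_co.Kill

/-!
# Totally singular subspaces, their joint eigenvectors, and the merging lemma
-/

namespace Pool.Agent.Lib.MP_a387ab_co.LB

open Module

variable {W : Type*} [AddCommGroup W] [Module (ZMod 2) W]
variable {β : LinearMap.BilinForm (ZMod 2) W}
variable {E : Type*} [NormedAddCommGroup E] [InnerProductSpace ℝ E]

/-- The symplectic complement. -/
def perp (β : LinearMap.BilinForm (ZMod 2) W) (A : Submodule (ZMod 2) W) :
    Submodule (ZMod 2) W where
  carrier := {w | ∀ z ∈ A, β z w + β w z = 0}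
  zero_mem' := by simp
  add_mem' := by
    intro x y hx hy z hz
    have h1 := hx z hz
    have h2 := hy z hz
    simp only [map_add, LinearMap.add_apply]
    have : β z x + β z y + (β x z + β y z) = (β z x + β x z) + (β z y + β y z) := by ring
    rw [this, h1, h2, add_zero]
  smul_mem' := by
    intro c x hx z hz
    have hc : c = 0 ∨ c = 1 := by revert c; decide
    rcases hc with rfl | rfl
    · simp
    · rw [one_smul]; exact hx z hz

lemma mem_perp {A : Submodule (ZMod 2) W} {w : W} :
    w ∈ perp β A ↔ ∀ z ∈ A, β z w + β w z = 0 := Iff.rfl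

/-- Totally singular subspaces. -/
def Sing (β : LinearMap.BilinForm (ZMod 2) W) (A : Submodule (ZMod 2) W) : Prop :=
  ∀ w ∈ A, β w w = 0

lemma Sing.iso {A : Submodule (ZMod 2) W} (hA : Sing β A) {w z : W} (hw : w ∈ A) (hz : z ∈ A) :
    β z w + β w z = 0 := by
  have h := hA _ (A.add_mem hw hz)
  simp only [map_add, LinearMap.add_apply, hA _ hw, hA _ hz, zero_add, add_zero] at h
  exact h

lemma Sing.le_perp {A : Submodule (ZMod 2) W} (hA : Sing β A) : A ≤ perp β A :=
  fun _ hw _ hz => hA.iso hw hz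

lemma Lag.perp_eq {A : Submodule (ZMod 2) W} (hA : Lag β A) : perp β A = A := by
  ext w
  exact ⟨fun h => hA.max w h, fun h _ hz => hA.iso h hz⟩

lemma Sing.mono {A B : Submodule (ZMod 2) W} (hA : Sing β A) (h : B ≤ A) : Sing β B :=
  fun w hw => hA w (h hw)

section fin

variable [Module.Finite (ZMod 2) W]

lemma finrank_perp {n : ℕ} (hW : Sympl β n) (A : Submodule (ZMod 2) W) :
    finrank (ZMod 2) (perp β A) + finrank (ZMod 2) A = 2 * n := by
  have hB : (β + β.flip).Nondegenerate := by
    constructor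
    · intro x hx
      refine hW.nondeg x fun z => ?_
      have := hx z
      simp only [LinearMap.add_apply, LinearMap.BilinForm.flip_apply] at this
      rw [add_comm]; exact this
    · intro x hx
      refine hW.nondeg x fun z => ?_
      have := hx z
      simpa only [LinearMap.add_apply, LinearMap.BilinForm.flip_apply] using this
  have h1 : (β + β.flip).orthogonal A = perp β A := by
    ext x
    rw [LinearMap.BilinForm.mem_orthogonal_iff]
    constructor
    · intro h z hz
      have := h z hz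
      simpa only [LinearMap.add_apply, LinearMap.BilinForm.flip_apply] using this
    · intro h z hz
      simp only [LinearMap.add_apply, LinearMap.BilinForm.flip_apply]
      exact h z hz
  have h2 := LinearMap.BilinForm.finrank_orthogonal hB A
  rw [h1, hW.dim] at h2
  have h3 : Module.finrank (ZMod 2) A ≤ 2 * n := hW.dim ▸ Submodule.finrank_le A
  omega

lemma Sing.finrank_le {n : ℕ} (hW : Sympl β n) {A : Submodule (ZMod 2) W} (hA : Sing β A) :
    finrank (ZMod 2) A ≤ n := by
  have h1 := finrank_perp hW A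
  have h2 := Submodule.finrank_mono hA.le_perp
  omega

/-- The merging lemma: the codimension of the intersection of two totally singular subspaces is
at most the sum of the codimensions plus the rank of the pairing. -/
lemma merge_dim {n l a b : ℕ} (hW : Sympl β n) {A B : Submodule (ZMod 2) W} (hA : Sing β A)
    (hB : Sing β B) (ha : n ≤ finrank (ZMod 2) A + a) (hb : n ≤ finrank (ZMod 2) B + b)
    (hr : finrank (ZMod 2) A ≤ finrank (ZMod 2) (A ⊓ perp β B : Submodule (ZMod 2) W) + l) :
    n ≤ finrank (ZMod 2) (A ⊓ B : Submodule (ZMod 2) W) + (a + b + l) := by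
  have hS : Sing β ((A ⊓ perp β B) ⊔ B) := by
    intro w hw
    obtain ⟨v, hv, z, hz, rfl⟩ := Submodule.mem_sup.mp hw
    have h1 := hv.2 z hz
    simp only [map_add, LinearMap.add_apply, hA v hv.1, hB z hz, zero_add, add_zero]
    exact h1
  have h1 := hS.finrank_le hW
  have h2 := Submodule.finrank_sup_add_finrank_inf_eq (A ⊓ perp β B) B
  have h3 : finrank (ZMod 2) ((A ⊓ perp β B) ⊓ B : Submodule (ZMod 2) W)
      ≤ finrank (ZMod 2) (A ⊓ B : Submodule (ZMod 2) W) :=
    Submodule.finrank_mono (inf_le_inf_right _ inf_le_left)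
  omega

end fin

variable (D : Weyl β E)

lemma Weyl.ortho' {A : Submodule (ZMod 2) W} {u : E} (hu : Eig D A u) {w : W}
    (hw : w ∉ perp β A) : inner ℝ (D.P w u) u = 0 := by
  have h : ∃ z ∈ A, β z w + β w z ≠ 0 := by
    by_contra hcon
    push Not at hcon
    exact hw hcon
  obtain ⟨z, hz, hzw⟩ := h
  have h1 := z2_ne hzw
  rw [add_comm] at h1
  have h2 := D.iso z (D.P w u) u
  rw [D.anti h1] at h2
  rcases hu z hz with h3 | h3
  · rw [h3, inner_neg_left] at h2
    linarith
  · rw [h3, map_neg, neg_neg, inner_neg_right] at h2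
    linarith

lemma Weyl.ortho2' {A : Submodule (ZMod 2) W} {u : E} (hu : Eig D A u) {w z : W}
    (hw : w + z ∉ perp β A) : inner ℝ (D.P w u) (D.P z u) = 0 := by
  rw [← D.iso z, D.mul, D.mul, wadd, D.one, inner_smul_left, inner_smul_right, add_comm z w,
    D.ortho' hu hw]
  simp

section fin

variable [Finite W]

/-- The basic inner product bound. -/
lemma Weyl.inner_bound' {A B C : Submodule (ZMod 2) W} {u v : E} (hu : Eig D A u)
    (hv : Eig D B v) (hCB : C ≤ B) (hCA : C ⊓ perp β A = ⊥) :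
    2 ^ (finrank (ZMod 2) C) * (inner ℝ u v) ^ 2 ≤ ‖u‖ ^ 2 * ‖v‖ ^ 2 := by
  classical
  rcases eq_or_ne u 0 with rfl | hu0
  · simp
  have hun : ‖u‖ ≠ 0 := norm_ne_zero_iff.mpr hu0
  have : Fintype C := Fintype.ofFinite C
  set e : C → E := fun w => ‖u‖⁻¹ • D.P w u with he
  have hort : Orthonormal ℝ e := by
    constructor
    · intro w
      rw [he]
      simp only
      rw [norm_smul, norm_inv, norm_norm, D.norm, inv_mul_cancel₀ hun]
    · intro w z hwz
      rw [he]
      simp only
      rw [inner_smul_left, inner_smul_right, D.ortho2' hu, mul_zero, mul_zero]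
      intro hcon
      have h1 : ((w : W) + z) ∈ C ⊓ perp β A := ⟨C.add_mem w.2 z.2, hcon⟩
      rw [hCA, Submodule.mem_bot] at h1
      apply hwz
      apply Subtype.ext
      have h2 : (w : W) = ((w : W) + z) + z := by rw [add_assoc, wadd, add_zero]
      rw [h2, h1, zero_add]
  have hb := hort.sum_inner_products_le (x := v) (s := Finset.univ)
  have hterm : ∀ w : C, ‖inner ℝ (e w) v‖ ^ 2 = (‖u‖⁻¹) ^ 2 * (inner ℝ u v) ^ 2 := by
    intro w
    rw [he]
    simp only
    rw [inner_smul_left, Real.norm_eq_abs, sq_abs, mul_pow]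
    congr 1
    have h1 : inner ℝ (D.P w u) v = inner ℝ u v ∨ inner ℝ (D.P w u) v = - inner ℝ u v := by
      rcases hv w (hCB w.2) with h | h
      · left
        rw [← D.iso w u v, h]
      · right
        rw [← D.iso w u v, h, inner_neg_right, neg_neg]
    rcases h1 with h | h
    · rw [h]
    · rw [h, neg_sq]
  rw [Finset.sum_congr rfl fun w _ => hterm w, Finset.sum_const, Finset.card_univ,
    nsmul_eq_mul] at hb
  have hcard : (Fintype.card C : ℝ) = 2 ^ (finrank (ZMod 2) C) := by
    rw [Module.card_eq_pow_finrank (K := ZMod 2) (V := C), ZMod.card]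
    push_cast
    ring
  rw [hcard] at hb
  have hpos : 0 < ‖u‖ ^ 2 := by positivity
  calc 2 ^ (finrank (ZMod 2) C) * (inner ℝ u v) ^ 2
      = ‖u‖ ^ 2 * (2 ^ (finrank (ZMod 2) C) * ((‖u‖⁻¹) ^ 2 * (inner ℝ u v) ^ 2)) := by
        field_simp
    _ ≤ ‖u‖ ^ 2 * ‖v‖ ^ 2 := mul_le_mul_of_nonneg_left hb hpos.le

lemma Weyl.inner_le' {k : ℕ} {A B : Submodule (ZMod 2) W} {u v : E} (hu : Eig D A u)
    (hv : Eig D B v)
    (hk : finrank (ZMod 2) (perp β A ⊓ B : Submodule (ZMod 2) W) + k ≤ finrank (ZMod 2) B) :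
    2 ^ k * (inner ℝ u v) ^ 2 ≤ ‖u‖ ^ 2 * ‖v‖ ^ 2 := by
  obtain ⟨C, h1, h2, -, h4⟩ := exists_compl (perp β A) B
  refine le_trans ?_ (D.inner_bound' hu hv h1 h2)
  refine mul_le_mul_of_nonneg_right ?_ (sq_nonneg _)
  refine pow_le_pow_right₀ (by norm_num) ?_
  omega

lemma Weyl.exists_eig' {A : Submodule (ZMod 2) W} (hA : Sing β A) {U : Submodule ℝ E}
    (hU : Inv D A U) (hne : U ≠ ⊥) : ∃ f ∈ U, f ≠ 0 ∧ Eig D A f := by
  classical
  have key : ∀ S : Finset W, (∀ w ∈ S, w ∈ A) →
      ∃ f ∈ U, f ≠ 0 ∧ ∀ w ∈ S, D.P w f = f ∨ D.P w f = -f := by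
    intro S
    induction S using Finset.induction_on with
    | empty =>
      intro _
      obtain ⟨f, hf, hf0⟩ := Submodule.exists_mem_ne_zero_of_ne_bot hne
      exact ⟨f, hf, hf0, by simp⟩
    | insert w S hw ih =>
      intro hS
      obtain ⟨f, hf, hf0, hfS⟩ := ih fun z hz => hS z (Finset.mem_insert_of_mem hz)
      have hwA := hS w (Finset.mem_insert_self _ _)
      by_cases hneg : D.P w f = -f
      · refine ⟨f, hf, hf0, fun z hz => ?_⟩
        rcases Finset.mem_insert.mp hz with rfl | hz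
        · exact Or.inr hneg
        · exact hfS z hz
      · refine ⟨f + D.P w f, U.add_mem hf (hU w hwA f hf), ?_, fun z hz => ?_⟩
        · intro h0
          apply hneg
          exact (eq_neg_of_add_eq_zero_right h0)
        · rcases Finset.mem_insert.mp hz with rfl | hz
          · left
            rw [map_add, D.sq (hA z hwA), add_comm]
          · have hzA := hS z (Finset.mem_insert_of_mem hz)
            rw [map_add, D.comm (hA.iso hzA hwA)]
            rcases hfS z hz with h | h
            · left; rw [h]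
            · right; rw [h, map_neg, neg_add]
  have : Fintype W := Fintype.ofFinite W
  obtain ⟨f, hf, hf0, hfS⟩ := key (Finset.univ.filter fun w => w ∈ A) (by simp)
  exact ⟨f, hf, hf0, fun w hw => hfS w (by simpa using hw)⟩

lemma Weyl.decomp' [FiniteDimensional ℝ E] {A : Submodule (ZMod 2) W} (hA : Sing β A) :
    ∀ (d : ℕ) (U : Submodule ℝ E), finrank ℝ U ≤ d → Inv D A U → ∀ f ∈ U, Dec D A d f := by
  intro d
  induction d with
  | zero =>
    intro U hd _ f hf
    have h0 : U = ⊥ := Submodule.finrank_eq_zero.mp (Nat.le_zero.mp hd)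
    rw [h0, Submodule.mem_bot] at hf
    exact ⟨Fin.elim0, fun k => k.elim0, by simp [hf], by simp⟩
  | succ d ih =>
    intro U hd hU f hf
    rcases eq_or_ne U ⊥ with h0 | hne
    · rw [h0, Submodule.mem_bot] at hf
      exact ⟨fun _ => 0, fun _ => eig_zero D A, by simp [hf], by simp⟩
    · obtain ⟨e, heU, he0, heE⟩ := D.exists_eig' hA hU hne
      have hen : ‖e‖ ≠ 0 := norm_ne_zero_iff.mpr he0
      have hlt : U ⊓ (ℝ ∙ e)ᗮ < U := by
        refine lt_of_le_of_ne inf_le_left fun h => ?_
        rw [← h] at heU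
        have h1 := Submodule.mem_orthogonal_singleton_iff_inner_right.mp heU.2
        rw [real_inner_self_eq_norm_sq] at h1
        exact hen (pow_eq_zero_iff (two_ne_zero) |>.mp h1)
      have hfin := Submodule.finrank_lt_finrank_of_lt hlt
      have hinv : Inv D A (U ⊓ (ℝ ∙ e)ᗮ) := by
        rintro w hw h ⟨hhU, hhe⟩
        refine ⟨hU w hw h hhU, ?_⟩
        rw [SetLike.mem_coe, Submodule.mem_orthogonal_singleton_iff_inner_right] at hhe ⊢
        rw [← D.iso w, D.sq (hA w hw)]
        rcases heE w hw with h1 | h1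
        · rw [h1, hhe]
        · rw [h1, inner_neg_left, hhe, neg_zero]
      set c : ℝ := inner ℝ e f / ‖e‖ ^ 2 with hc
      have hf' : f - c • e ∈ U ⊓ (ℝ ∙ e)ᗮ := by
        refine ⟨U.sub_mem hf (U.smul_mem c heU), ?_⟩
        rw [SetLike.mem_coe, Submodule.mem_orthogonal_singleton_iff_inner_right, inner_sub_right,
          inner_smul_right, real_inner_self_eq_norm_sq, hc]
        field_simp
        ring
      obtain ⟨g, hg1, hg2, hg3⟩ := ih (U ⊓ (ℝ ∙ e)ᗮ) (by omega) hinv _ hf'
      refine ⟨Fin.cons (c • e) g, ?_, ?_, ?_⟩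
      · intro k
        refine Fin.cases ?_ (fun k => ?_) k
        · exact heE.smul D c
        · exact hg1 k
      · rw [Fin.sum_univ_succ]
        simp only [Fin.cons_zero, Fin.cons_succ]
        rw [← hg2]
        abel
      · rw [Fin.sum_univ_succ]
        simp only [Fin.cons_zero, Fin.cons_succ]
        have h1 : f = c • e + (f - c • e) := by abel
        have h2 : inner ℝ (c • e) (f - c • e) = 0 := by
          rw [inner_smul_left, (Submodule.mem_orthogonal_singleton_iff_inner_right.mp hf'.2),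
            mul_zero]
        have h3 : ‖f‖ ^ 2 = ‖c • e‖ ^ 2 + ‖f - c • e‖ ^ 2 := by
          conv_lhs => rw [h1]
          rw [norm_add_sq_real, h2]
          ring
        rw [h3]
        linarith

/-- Inner product bound for decomposed vectors. -/
lemma Weyl.cross' {k d d' : ℕ} {A B : Submodule (ZMod 2) W} {f h : E} (hf : Dec D A d f)
    (hh : Dec D B d' h)
    (hk : finrank (ZMod 2) (perp β A ⊓ B : Submodule (ZMod 2) W) + k ≤ finrank (ZMod 2) B) :
    2 ^ k * (inner ℝ f h) ^ 2 ≤ (d * d' : ℝ) * (‖f‖ ^ 2 * ‖h‖ ^ 2) := by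
  obtain ⟨g, hg1, hg2, hg3⟩ := hf
  obtain ⟨g', hg1', hg2', hg3'⟩ := hh
  set s : ℝ := Real.sqrt (2 ^ k) with hs
  have hs0 : 0 ≤ s := Real.sqrt_nonneg _
  have hs2 : s ^ 2 = 2 ^ k := Real.sq_sqrt (by positivity)
  have hpair : ∀ i j, s * |inner ℝ (g i) (g' j)| ≤ ‖g i‖ * ‖g' j‖ := by
    intro i j
    have h1 := D.inner_le' (hg1 i) (hg1' j) hk
    rw [← hs2, ← mul_pow, ← mul_pow] at h1
    have h2 := abs_le_of_sq_le_sq h1 (by positivity)
    rw [abs_mul, abs_of_nonneg hs0] at h2
    exact h2
  have h1 : s * |inner ℝ f h| ≤ (∑ i, ‖g i‖) * (∑ j, ‖g' j‖) := by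
    calc s * |inner ℝ f h| = s * |∑ i, ∑ j, inner ℝ (g i) (g' j)| := by
          rw [hg2, hg2', sum_inner]
          simp_rw [inner_sum]
      _ ≤ s * ∑ i, ∑ j, |inner ℝ (g i) (g' j)| := by
          refine mul_le_mul_of_nonneg_left ?_ hs0
          refine (Finset.abs_sum_le_sum_abs _ _).trans (Finset.sum_le_sum fun i _ => ?_)
          exact Finset.abs_sum_le_sum_abs _ _
      _ = ∑ i, ∑ j, s * |inner ℝ (g i) (g' j)| := by
          simp_rw [Finset.mul_sum]
      _ ≤ ∑ i, ∑ j, ‖g i‖ * ‖g' j‖ :=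
          Finset.sum_le_sum fun i _ => Finset.sum_le_sum fun j _ => hpair i j
      _ = (∑ i, ‖g i‖) * (∑ j, ‖g' j‖) := by
          rw [Finset.sum_mul_sum]
  have hcs : (∑ i, ‖g i‖) ^ 2 ≤ d * ‖f‖ ^ 2 := by
    have := sq_sum_le_card_mul_sum_sq (s := (Finset.univ : Finset (Fin d))) (f := fun i => ‖g i‖)
    rw [Finset.card_univ, Fintype.card_fin] at this
    exact this.trans (mul_le_mul_of_nonneg_left hg3 (by positivity))
  have hcs' : (∑ j, ‖g' j‖) ^ 2 ≤ d' * ‖h‖ ^ 2 := by
    have := sq_sum_le_card_mul_sum_sq (s := (Finset.univ : Finset (Fin d')))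
      (f := fun i => ‖g' i‖)
    rw [Finset.card_univ, Fintype.card_fin] at this
    exact this.trans (mul_le_mul_of_nonneg_left hg3' (by positivity))
  calc 2 ^ k * (inner ℝ f h) ^ 2 = (s * |inner ℝ f h|) ^ 2 := by rw [mul_pow, hs2, sq_abs]
    _ ≤ ((∑ i, ‖g i‖) * (∑ j, ‖g' j‖)) ^ 2 := by
        refine pow_le_pow_left₀ (by positivity) h1 2
    _ = (∑ i, ‖g i‖) ^ 2 * (∑ j, ‖g' j‖) ^ 2 := mul_pow _ _ _
    _ ≤ (d * ‖f‖ ^ 2) * (d' * ‖h‖ ^ 2) := mul_le_mul hcs hcs' (by positivity) (by positivity)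
    _ = _ := by ring

omit [Finite W] in
/-- The span of joint eigenvectors of `A` is invariant. -/
lemma Weyl.span_inv [FiniteDimensional ℝ E] {ι : Type*} {A : Submodule (ZMod 2) W} (u : ι → E)
    (X : Finset ι) (hu : ∀ j ∈ X, Eig D A (u j)) :
    ∃ U : Submodule ℝ E, (∀ j ∈ X, u j ∈ U) ∧ Inv D A U ∧ finrank ℝ U ≤ X.card := by
  classical
  refine ⟨Submodule.span ℝ (X.image u : Set E), ?_, ?_, ?_⟩
  · intro j hj
    exact Submodule.subset_span (by
      rw [Finset.mem_coe]
      exact Finset.mem_image_of_mem u hj)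
  · intro w hw f hf
    induction hf using Submodule.span_induction with
    | mem x hx =>
      rw [Finset.mem_coe] at hx
      obtain ⟨j, hj, rfl⟩ := Finset.mem_image.mp hx
      have hmem : u j ∈ Submodule.span ℝ (X.image u : Set E) :=
        Submodule.subset_span (by
          rw [Finset.mem_coe]
          exact Finset.mem_image_of_mem u hj)
      rcases hu j hj w hw with h | h
      · rw [h]; exact hmem
      · rw [h]; exact Submodule.neg_mem _ hmem
    | zero => rw [map_zero]; exact Submodule.zero_mem _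
    | add x y _ _ hx hy => rw [map_add]; exact Submodule.add_mem _ hx hy
    | smul a x _ hx => rw [map_smul]; exact Submodule.smul_mem _ a hx
  · exact (finrank_span_finset_le_card _).trans Finset.card_image_le

end fin

end Pool.Agent.Lib.MP_a387ab_co.LB
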