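import Pool.Agent.Lib.MP_a387ab_co.Weyl

/-!
# Configurations and the killing step
-/

namespace Pool.Agent.Lib.MP_a387ab_co.LB

open Module

variable {W : Type*} [AddCommGroup W] [Module (ZMod 2) W]
variable {β : LinearMap.BilinForm (ZMod 2) W}
variable {E : Type*} [NormedAddCommGroup E] [InnerProductSpace ℝ E]
variable {ι : Type*}

/-- A nonzero joint eigenvector `ψ` of `A0` in the span of joint eigenvectors `u j` of `A j`, with
all `A0 ∩ A j` of dimension at most `s`. -/
structure Conf (D : Weyl β E) (s : ℕ) (J : Finset ι) (ψ : E) (A0 : Submodule (ZMod 2) W)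
    (u : ι → E) (A : ι → Submodule (ZMod 2) W) : Prop where
  lag0 : Lag β A0
  lag : ∀ j ∈ J, Lag β (A j)
  eig0 : Eig D A0 ψ
  eig : ∀ j ∈ J, Eig D (A j) (u j)
  ne : ψ ≠ 0
  span : ∃ c : ι → ℝ, ψ = ∑ j ∈ J, c j • u j
  inter : ∀ j ∈ J, finrank (ZMod 2) (A0 ⊓ A j : Submodule (ZMod 2) W) ≤ s

lemma Eig.reduce {D : Weyl β E} {A : Submodule (ZMod 2) W} {u : E} (hu : Eig D A u)
    {g : W} (hg : β g g = 0) {σ : ℝ} (hσ : σ = 1 ∨ σ = -1) :
    Eig D (red β g A) (u - σ • D.P g u) := by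
  have hσ2 : σ * σ = 1 := by rcases hσ with rfl | rfl <;> norm_num
  have key : ∀ x ∈ A, β g x + β x g = 0 →
      D.P x (u - σ • D.P g u) = u - σ • D.P g u ∨ D.P x (u - σ • D.P g u) = -(u - σ • D.P g u) := by
    intro x hx hgx
    rw [map_sub, map_smul, D.comm hgx]
    rcases hu x hx with h | h
    · left; rw [h]
    · right; rw [h, map_neg, smul_neg]; abel
  rintro x ⟨h1, h2 | h2⟩
  · exact key x h2 h1
  · have h3 : β g (x + g) + β (x + g) g = 0 := by
      simp only [map_add, LinearMap.add_apply, hg, add_zero]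
      exact h1
    have h4 := key (x + g) h2 h3
    have h5 : D.P x (u - σ • D.P g u)
        = phase (β (x + g) g) • D.P (x + g) (D.P g (u - σ • D.P g u)) := by
      rw [D.mul, smul_smul, phase_sq, one_smul, add_assoc, wadd, add_zero]
    have h6 : D.P g (u - σ • D.P g u) = -σ • (u - σ • D.P g u) := by
      rw [map_sub, map_smul, D.sq hg, smul_sub, smul_smul, neg_mul, hσ2, neg_smul, neg_smul,
        one_smul]
      abel
    rw [h5, h6, map_smul, smul_smul]
    have h7 : phase (β (x + g) g) * -σ = 1 ∨ phase (β (x + g) g) * -σ = -1 := by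
      rcases phase_eq (β (x + g) g) with h | h <;> rcases hσ with h' | h' <;> rw [h, h'] <;>
        norm_num
    rcases h7 with h7 | h7 <;> rcases h4 with h4 | h4 <;> rw [h7, h4]
    · left; rw [one_smul]
    · right; rw [one_smul]
    · right; rw [neg_smul, one_smul]
    · left; rw [neg_smul, one_smul, neg_neg]

variable [Finite W]

lemma kill_aux {D : Weyl β E} {s : ℕ} {J : Finset ι} {ψ : E} {A0 : Submodule (ZMod 2) W}
    {u : ι → E} {A : ι → Submodule (ZMod 2) W} (hc : Conf D s J ψ A0 u A) [DecidableEq ι]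
    {g : W} (hg : β g g = 0) (hg0 : g ∉ A0) {σ : ℝ} (hσ : σ = 1 ∨ σ = -1) {Y : Finset ι}
    (hYJ : Y ⊆ J) (hY : ∀ j ∈ Y, D.P g (u j) = σ • u j) :
    Conf D (s + 2) (J \ Y) (ψ - σ • D.P g ψ) (red β g A0) (fun j => u j - σ • D.P g (u j))
      (fun j => red β g (A j)) := by
  have hσ2 : σ * σ = 1 := by rcases hσ with rfl | rfl <;> norm_num
  refine ⟨hc.lag0.red hg, fun j hj => (hc.lag j (Finset.sdiff_subset hj)).red hg,
    hc.eig0.reduce hg hσ, fun j hj => (hc.eig j (Finset.sdiff_subset hj)).reduce hg hσ,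
    ?_, ?_, ?_⟩
  · intro h0
    have h1 : inner ℝ (ψ - σ • D.P g ψ) ψ = 0 := by rw [h0, inner_zero_left]
    rw [inner_sub_left, inner_smul_left, D.ortho hc.lag0 hc.eig0 hg0, mul_zero, sub_zero,
      real_inner_self_eq_norm_sq] at h1
    exact hc.ne (norm_eq_zero.mp (pow_eq_zero_iff (two_ne_zero) |>.mp h1))
  · obtain ⟨c, hc'⟩ := hc.span
    refine ⟨c, ?_⟩
    have h1 : ψ - σ • D.P g ψ = ∑ j ∈ J, c j • (u j - σ • D.P g (u j)) := by
      conv_lhs => rw [hc']
      rw [map_sum, Finset.smul_sum, ← Finset.sum_sub_distrib]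
      refine Finset.sum_congr rfl fun j _ => ?_
      rw [map_smul, smul_sub, smul_comm σ (c j)]
    rw [h1]
    refine (Finset.sum_subset Finset.sdiff_subset fun j hj hj' => ?_).symm
    have hjY : j ∈ Y := by
      by_contra hcon
      exact hj' (Finset.mem_sdiff.mpr ⟨hj, hcon⟩)
    rw [hY j hjY, smul_smul, hσ2, one_smul, sub_self, smul_zero]
  · intro j hj
    exact (red_inf_red_le A0 (A j)).trans
      (Nat.add_le_add_right (hc.inter j (Finset.sdiff_subset hj)) 2)

/-- The killing step. -/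
lemma kill {n : ℕ} {D : Weyl β E} {s K r : ℕ} (hK : 1 ≤ K) {J : Finset ι}
    {ψ : E} {A0 : Submodule (ZMod 2) W} {u : ι → E} {A : ι → Submodule (ZMod 2) W}
    (hc : Conf D s J ψ A0 u A) {C : Submodule (ZMod 2) W} (hC : finrank (ZMod 2) C = n)
    {X : Finset ι} (hXJ : X ⊆ J) (hX : X.card = 2 * K) (hr : ∀ j ∈ X, Near n r C (A j))
    (hn : 2 * K * r + s < n) :
    ∃ (J' : Finset ι) (ψ' : E) (A0' : Submodule (ZMod 2) W) (u' : ι → E)
      (A' : ι → Submodule (ZMod 2) W), Conf D (s + 2) J' ψ' A0' u' A' ∧ J'.card + K ≤ J.card := by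
  classical
  obtain ⟨U, hU1, hU2, hU3⟩ := common_inf hC A X hr
  rw [hX] at hU3
  obtain ⟨j0, hj0⟩ : X.Nonempty := by
    rw [← Finset.card_pos, hX]; omega
  have hUA0 : ¬ U ≤ A0 := by
    intro h
    have h1 : finrank (ZMod 2) U ≤ finrank (ZMod 2) (A0 ⊓ A j0 : Submodule (ZMod 2) W) :=
      Submodule.finrank_mono (le_inf h (hU2 j0 hj0))
    have h2 := hc.inter j0 (hXJ hj0)
    omega
  obtain ⟨g, hgU, hg0⟩ := SetLike.not_le_iff_exists.mp hUA0
  have hg : β g g = 0 := (hc.lag j0 (hXJ hj0)).sing g (hU2 j0 hj0 hgU)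
  have hsplit := Finset.card_filter_add_card_filter_not (s := X) (fun j => D.P g (u j) = u j)
  rw [hX] at hsplit
  have hfin : ∀ (Y : Finset ι), Y ⊆ J → K ≤ Y.card → (J \ Y).card + K ≤ J.card := by
    intro Y hY hYK
    rw [Finset.card_sdiff_of_subset hY]
    have := Finset.card_le_card hY
    omega
  by_cases hcase : K ≤ (X.filter fun j => D.P g (u j) = u j).card
  · have hsub : (X.filter fun j => D.P g (u j) = u j) ⊆ J := (Finset.filter_subset _ _).trans hXJ
    refine ⟨_, _, _, _, _, kill_aux hc hg hg0 (Or.inl rfl) hsub ?_, hfin _ hsub hcase⟩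
    intro j hj
    rw [one_smul]
    exact (Finset.mem_filter.mp hj).2
  · have hsub : (X.filter fun j => ¬ D.P g (u j) = u j) ⊆ J :=
      (Finset.filter_subset _ _).trans hXJ
    refine ⟨_, _, _, _, _, kill_aux hc hg hg0 (Or.inr rfl) hsub ?_, hfin _ hsub (by omega)⟩
    intro j hj
    obtain ⟨hjX, hj'⟩ := Finset.mem_filter.mp hj
    rw [neg_smul, one_smul]
    exact (hc.eig j (hXJ hjX) g (hU2 j hjX hgU)).resolve_left hj'

end Pool.Agent.Lib.MP_a387ab_co.LB
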