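import Mathlib

/-!
# Lagrangian subspaces over the field with two elements

`β` is a bilinear form on `W`, the symplectic form is `β z w + β w z` and the quadratic form is
`β w w`.
-/

namespace Pool.Agent.Lib.MP_a387ab_co.LB

open Module

variable {W : Type*} [AddCommGroup W] [Module (ZMod 2) W]

/-- Lagrangian: totally singular and equal to its own symplectic complement. -/
structure Lag (β : LinearMap.BilinForm (ZMod 2) W) (A : Submodule (ZMod 2) W) : Prop where
  sing : ∀ w ∈ A, β w w = 0
  max : ∀ w, (∀ z ∈ A, β z w + β w z = 0) → w ∈ A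

lemma z2_ne {a : ZMod 2} (h : a ≠ 0) : a = 1 := by
  revert a; decide

lemma wadd (w : W) : w + w = 0 := ZModModule.add_self w

variable {β : LinearMap.BilinForm (ZMod 2) W}

lemma Lag.iso {A : Submodule (ZMod 2) W} (hA : Lag β A) {w z : W} (hw : w ∈ A) (hz : z ∈ A) :
    β z w + β w z = 0 := by
  have h := hA.sing _ (A.add_mem hw hz)
  simp only [map_add, LinearMap.add_apply, hA.sing _ hw, hA.sing _ hz, zero_add, add_zero] at h
  exact h

/-- The reduction of `A` by the vector `g`: the space spanned by `g` and `A ∩ g^⊥`. -/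
def red (β : LinearMap.BilinForm (ZMod 2) W) (g : W) (A : Submodule (ZMod 2) W) :
    Submodule (ZMod 2) W where
  carrier := {x | β g x + β x g = 0 ∧ (x ∈ A ∨ x + g ∈ A)}
  zero_mem' := by simp
  add_mem' := by
    rintro x y ⟨hx, hx'⟩ ⟨hy, hy'⟩
    refine ⟨?_, ?_⟩
    · simp only [map_add, LinearMap.add_apply]
      have : β g x + β g y + (β x g + β y g) = (β g x + β x g) + (β g y + β y g) := by ring
      rw [this, hx, hy, add_zero]
    · rcases hx' with hx' | hx' <;> rcases hy' with hy' | hy'
      · exact Or.inl (A.add_mem hx' hy')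
      · right
        have := A.add_mem hx' hy'
        rwa [← add_assoc] at this
      · right
        have := A.add_mem hx' hy'
        rwa [add_right_comm] at this
      · left
        have := A.add_mem hx' hy'
        rwa [add_add_add_comm, wadd, add_zero] at this
  smul_mem' := by
    rintro c x ⟨hx, hx'⟩
    have hc : c = 0 ∨ c = 1 := by revert c; decide
    rcases hc with rfl | rfl
    · simp
    · rw [one_smul]; exact ⟨hx, hx'⟩

lemma mem_red {g : W} {A : Submodule (ZMod 2) W} {x : W} :
    x ∈ red β g A ↔ β g x + β x g = 0 ∧ (x ∈ A ∨ x + g ∈ A) := Iff.rfl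

lemma self_mem_red {g : W} (A : Submodule (ZMod 2) W) : g ∈ red β g A :=
  ⟨CharTwo.add_self_eq_zero _, Or.inr (by rw [wadd]; exact A.zero_mem)⟩

lemma Lag.red {g : W} (hg : β g g = 0) {A : Submodule (ZMod 2) W} (hA : Lag β A) :
    Lag β (red β g A) := by
  constructor
  · rintro w ⟨h1, h2 | h2⟩
    · exact hA.sing _ h2
    · have h := hA.sing _ h2
      simp only [map_add, LinearMap.add_apply, hg, add_zero] at h
      rw [add_assoc, h1, add_zero] at h
      exact h
  · intro w hw
    have hgw := hw g (self_mem_red A)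
    refine ⟨hgw, ?_⟩
    by_cases hall : ∀ z ∈ A, β z w + β w z = 0
    · exact Or.inl (hA.max w hall)
    · right
      push Not at hall
      obtain ⟨z0, hz0, hz0'⟩ := hall
      have hz1 := z2_ne hz0'
      have hgz0 : β g z0 + β z0 g = 1 := by
        apply z2_ne
        intro h
        exact hz0' (hw z0 ⟨h, Or.inl hz0⟩)
      refine hA.max _ fun z hz => ?_
      have e : β z (w + g) + β (w + g) z = (β z w + β w z) + (β g z + β z g) := by
        simp only [map_add, LinearMap.add_apply]; ring
      rw [e]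
      by_cases hgz : β g z + β z g = 0
      · rw [hgz, hw z ⟨hgz, Or.inl hz⟩, add_zero]
      · have hgz1 := z2_ne hgz
        have h2 : z + z0 ∈ Pool.Agent.Lib.MP_a387ab_co.LB.red β g A := by
          refine ⟨?_, Or.inl (A.add_mem hz hz0)⟩
          have e2 : β g (z + z0) + β (z + z0) g = (β g z + β z g) + (β g z0 + β z0 g) := by
            simp only [map_add, LinearMap.add_apply]; ring
          rw [e2, hgz1, hgz0]; decide
        have h3 := hw _ h2
        have e3 : β (z + z0) w + β w (z + z0) = (β z w + β w z) + (β z0 w + β w z0) := by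
          simp only [map_add, LinearMap.add_apply]; ring
        rw [e3, hz1] at h3
        have h4 : β z w + β w z = 1 := by
          revert h3
          generalize β z w + β w z = t
          revert t; decide
        rw [h4, hgz1]; decide

section fin

variable [Module.Finite (ZMod 2) W]

lemma finrank_le_add_one {S M : Submodule (ZMod 2) W} (h : ∀ x ∈ M, ∀ y ∈ M, x ∉ S → y ∉ S → x + y ∈ S) :
    finrank (ZMod 2) M ≤ finrank (ZMod 2) (M ⊓ S : Submodule (ZMod 2) W) + 1 := by
  by_cases hMS : M ≤ S
  · rw [inf_eq_left.mpr hMS]; omega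
  · obtain ⟨x0, hx0, hx0'⟩ := SetLike.not_le_iff_exists.mp hMS
    have hle : M ≤ (M ⊓ S) ⊔ Submodule.span (ZMod 2) {x0} := by
      intro x hx
      by_cases hxS : x ∈ S
      · exact Submodule.mem_sup_left ⟨hx, hxS⟩
      · have h1 := h x hx x0 hx0 hxS hx0'
        have h2 : x = (x + x0) + x0 := by rw [add_assoc, wadd, add_zero]
        rw [h2]
        exact Submodule.add_mem_sup ⟨M.add_mem hx hx0, h1⟩ (Submodule.mem_span_singleton_self x0)
    calc finrank (ZMod 2) M ≤ finrank (ZMod 2) ((M ⊓ S) ⊔ Submodule.span (ZMod 2) {x0} :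
          Submodule (ZMod 2) W) := Submodule.finrank_mono hle
      _ ≤ finrank (ZMod 2) (M ⊓ S : Submodule (ZMod 2) W)
          + finrank (ZMod 2) (Submodule.span (ZMod 2) {x0}) := Submodule.finrank_add_le_finrank_add_finrank _ _
      _ ≤ _ := by
          have := finrank_span_le_card (R := ZMod 2) ({x0} : Set W)
          simp at this
          omega

/-- `W` is a symplectic space of dimension `2 n`. -/
structure Sympl (β : LinearMap.BilinForm (ZMod 2) W) (n : ℕ) : Prop where
  dim : finrank (ZMod 2) W = 2 * n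
  nondeg : ∀ w, (∀ z, β z w + β w z = 0) → w = 0

lemma Lag.finrank {n : ℕ} (hW : Sympl β n) {A : Submodule (ZMod 2) W} (hA : Lag β A) :
    finrank (ZMod 2) A = n := by
  have hB : (β + β.flip).Nondegenerate := by
    constructor
    · intro x hx
      refine hW.nondeg x fun z => ?_
      have := hx z
      simp only [LinearMap.add_apply, LinearMap.BilinForm.flip_apply] at this
      rw [add_comm]; exact this
    · intro x hx
      refine hW.nondeg x fun z => ?_
      have := hx z
      simpa only [LinearMap.add_apply, LinearMap.BilinForm.flip_apply] using this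
  have h1 : (β + β.flip).orthogonal A = A := by
    ext x
    rw [LinearMap.BilinForm.mem_orthogonal_iff]
    constructor
    · intro h
      refine hA.max x fun z hz => ?_
      have := h z hz
      simpa only [LinearMap.add_apply, LinearMap.BilinForm.flip_apply] using this
    · intro h z hz
      simp only [LinearMap.add_apply, LinearMap.BilinForm.flip_apply]
      exact hA.iso h hz
  have h2 := LinearMap.BilinForm.finrank_orthogonal hB A
  rw [h1, hW.dim] at h2
  have h3 : Module.finrank (ZMod 2) A ≤ 2 * n := hW.dim ▸ Submodule.finrank_le A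
  omega

lemma red_inf_red_le {g : W} (A B : Submodule (ZMod 2) W) :
    finrank (ZMod 2) (red β g A ⊓ red β g B : Submodule (ZMod 2) W)
      ≤ finrank (ZMod 2) (A ⊓ B : Submodule (ZMod 2) W) + 2 := by
  have h1 : finrank (ZMod 2) (red β g A ⊓ red β g B : Submodule (ZMod 2) W)
      ≤ finrank (ZMod 2) ((red β g A ⊓ red β g B) ⊓ A : Submodule (ZMod 2) W) + 1 := by
    apply finrank_le_add_one
    rintro x ⟨⟨-, hx⟩, -⟩ y ⟨⟨-, hy⟩, -⟩ hxA hyA
    have hx' := hx.resolve_left hxA
    have hy' := hy.resolve_left hyA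
    have := A.add_mem hx' hy'
    rwa [add_add_add_comm, wadd, add_zero] at this
  have h2 : finrank (ZMod 2) ((red β g A ⊓ red β g B) ⊓ A : Submodule (ZMod 2) W)
      ≤ finrank (ZMod 2) (((red β g A ⊓ red β g B) ⊓ A) ⊓ B : Submodule (ZMod 2) W) + 1 := by
    apply finrank_le_add_one
    rintro x ⟨⟨-, ⟨-, hx⟩⟩, -⟩ y ⟨⟨-, ⟨-, hy⟩⟩, -⟩ hxA hyA
    have hx' := hx.resolve_left hxA
    have hy' := hy.resolve_left hyA
    have := B.add_mem hx' hy'
    rwa [add_add_add_comm, wadd, add_zero] at this
  have h3 : finrank (ZMod 2) (((red β g A ⊓ red β g B) ⊓ A) ⊓ B : Submodule (ZMod 2) W)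
      ≤ finrank (ZMod 2) (A ⊓ B : Submodule (ZMod 2) W) :=
    Submodule.finrank_mono (le_inf (inf_le_left.trans inf_le_right) inf_le_right)
  omega

/-- `A` and `B` are at distance at most `k`. -/
def Near (n k : ℕ) (A B : Submodule (ZMod 2) W) : Prop :=
  n ≤ finrank (ZMod 2) (A ⊓ B : Submodule (ZMod 2) W) + k

lemma Near.symm {n k : ℕ} {A B : Submodule (ZMod 2) W} (h : Near n k A B) : Near n k B A := by
  unfold Near at *; rwa [inf_comm]

lemma Near.mono {n k l : ℕ} {A B : Submodule (ZMod 2) W} (h : Near n k A B) (hkl : k ≤ l) :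
    Near n l A B := by
  unfold Near at *; omega

lemma Near.refl {n k : ℕ} {A : Submodule (ZMod 2) W} (h : finrank (ZMod 2) A = n) :
    Near n k A A := by
  unfold Near; rw [inf_idem]; omega

/-- Intersections lose at most the sum of the distances. -/
lemma inf_finrank_ge {A B C : Submodule (ZMod 2) W} :
    finrank (ZMod 2) (A ⊓ B : Submodule (ZMod 2) W) + finrank (ZMod 2) (B ⊓ C : Submodule (ZMod 2) W)
      ≤ finrank (ZMod 2) (A ⊓ B ⊓ C : Submodule (ZMod 2) W) + finrank (ZMod 2) B := by
  have h1 := Submodule.finrank_sup_add_finrank_inf_eq (A ⊓ B) (B ⊓ C)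
  have h2 : finrank (ZMod 2) ((A ⊓ B) ⊔ (B ⊓ C) : Submodule (ZMod 2) W) ≤ finrank (ZMod 2) B :=
    Submodule.finrank_mono (sup_le inf_le_right inf_le_left)
  have h3 : (A ⊓ B) ⊓ (B ⊓ C) = A ⊓ B ⊓ C := by
    rw [← inf_assoc, inf_assoc A B B, inf_idem]
  rw [h3] at h1
  omega

lemma Near.trans {n k l : ℕ} {A B C : Submodule (ZMod 2) W} (hB : finrank (ZMod 2) B = n)
    (h1 : Near n k A B) (h2 : Near n l B C) : Near n (k + l) A C := by
  unfold Near at *
  have h3 := inf_finrank_ge (A := A) (B := B) (C := C)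
  have h4 : finrank (ZMod 2) (A ⊓ B ⊓ C : Submodule (ZMod 2) W)
      ≤ finrank (ZMod 2) (A ⊓ C : Submodule (ZMod 2) W) :=
    Submodule.finrank_mono (le_inf (inf_le_left.trans inf_le_left) inf_le_right)
  omega

lemma near_red {n : ℕ} (hW : Sympl β n) {g : W} (hg : β g g = 0) {A : Submodule (ZMod 2) W}
    (hA : Lag β A) : Near n 1 A (red β g A) := by
  unfold Near
  have h1 : finrank (ZMod 2) (red β g A) ≤ finrank (ZMod 2) (red β g A ⊓ A : Submodule (ZMod 2) W) + 1 := by
    apply finrank_le_add_one
    rintro x ⟨-, hx⟩ y ⟨-, hy⟩ hxA hyA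
    have hx' := hx.resolve_left hxA
    have hy' := hy.resolve_left hyA
    have := A.add_mem hx' hy'
    rwa [add_add_add_comm, wadd, add_zero] at this
  rw [(hA.red hg).finrank hW] at h1
  rwa [inf_comm]

/-- The midpoint lemma. -/
lemma midpoint {n : ℕ} (hW : Sympl β n) {B : Submodule (ZMod 2) W} (hB : Lag β B) (y : ℕ) :
    ∀ (x : ℕ) {A : Submodule (ZMod 2) W}, Lag β A → Near n (x + y) A B →
      ∃ M, Lag β M ∧ Near n x A M ∧ Near n y M B := by
  intro x
  induction x with
  | zero =>
    intro A hA h
    refine ⟨A, hA, Near.refl (hA.finrank hW), ?_⟩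
    rwa [zero_add] at h
  | succ x ih =>
    intro A hA h
    by_cases hBA : B ≤ A
    · refine ⟨A, hA, Near.refl (hA.finrank hW), ?_⟩
      unfold Near
      rw [inf_eq_right.mpr hBA, hB.finrank hW]
      omega
    · obtain ⟨g, hgB, hgA⟩ := SetLike.not_le_iff_exists.mp hBA
      have hg := hB.sing g hgB
      have hlt : A ⊓ B < red β g A ⊓ B := by
        refine lt_of_le_of_ne ?_ ?_
        · rintro z ⟨hzA, hzB⟩
          exact ⟨⟨hB.iso hzB hgB, Or.inl hzA⟩, hzB⟩
        · intro heq
          have : g ∈ A ⊓ B := by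
            rw [heq]; exact ⟨self_mem_red A, hgB⟩
          exact hgA this.1
      have hlt' := Submodule.finrank_lt_finrank_of_lt hlt
      have h2 : Near n (x + y) (red β g A) B := by
        unfold Near at *; omega
      obtain ⟨M, hM, h3, h4⟩ := ih (hA.red hg) h2
      refine ⟨M, hM, ?_, h4⟩
      have := (near_red hW hg hA).trans ((hA.red hg).finrank hW) h3
      rwa [add_comm] at this

/-- Common intersections. -/
lemma common_inf {ι : Type*} {n r : ℕ} {C : Submodule (ZMod 2) W} (hC : finrank (ZMod 2) C = n)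
    (A : ι → Submodule (ZMod 2) W) (X : Finset ι) (h : ∀ j ∈ X, Near n r C (A j)) :
    ∃ U : Submodule (ZMod 2) W, U ≤ C ∧ (∀ j ∈ X, U ≤ A j) ∧
      n ≤ finrank (ZMod 2) U + X.card * r := by
  classical
  induction X using Finset.induction_on with
  | empty => exact ⟨C, le_refl _, by simp, by rw [hC]; omega⟩
  | insert a X ha ih =>
    obtain ⟨U, hU1, hU2, hU3⟩ := ih fun j hj => h j (Finset.mem_insert_of_mem hj)
    refine ⟨U ⊓ A a, inf_le_left.trans hU1, ?_, ?_⟩
    · intro j hj
      rcases Finset.mem_insert.mp hj with rfl | hj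
      · exact inf_le_right
      · exact inf_le_left.trans (hU2 j hj)
    · have h1 := inf_finrank_ge (A := U) (B := C) (C := A a)
      rw [inf_eq_left.mpr hU1, hC] at h1
      have h2 := h a (Finset.mem_insert_self _ _)
      unfold Near at h2
      rw [Finset.card_insert_of_notMem ha, add_mul, one_mul]
      omega

end fin

end Pool.Agent.Lib.MP_a387ab_co.LB
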