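import Pool.Agent.Lib.MP_a387ab_co.Iso
import Pool.Agent.Lib.MP_a387ab_co.Cluster

/-!
# The quadratic argument: partition into parts with a large common stabiliser
-/

namespace Pool.Agent.Lib.MP_a387ab_co.LB

open Module

variable {W : Type*} [AddCommGroup W] [Module (ZMod 2) W]
variable {β : LinearMap.BilinForm (ZMod 2) W}
variable {E : Type*} [NormedAddCommGroup E] [InnerProductSpace ℝ E]
variable {ι : Type*} [DecidableEq ι]

/-- A partition of `J` with labels `cl`, with a common subspace `U a` of the spaces of the part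
with label `a`, of codimension at most `(size - 1) * l`. -/
structure LabS (n l : ℕ) (J : Finset ι) (A : ι → Submodule (ZMod 2) W) (cl : ι → ι)
    (U : ι → Submodule (ZMod 2) W) : Prop where
  sub : ∀ j ∈ J, U (cl j) ≤ A j
  dim : ∀ a ∈ J.image cl, n ≤ finrank (ZMod 2) (U a) + ((cls J cl a).card - 1) * l

/-- The rank of the pairing of `A` and `B` is at most `l`. -/
def LowRank (β : LinearMap.BilinForm (ZMod 2) W) (l : ℕ) (A B : Submodule (ZMod 2) W) : Prop :=
  finrank (ZMod 2) A ≤ finrank (ZMod 2) (A ⊓ perp β B : Submodule (ZMod 2) W) + l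

variable [Finite W]

omit [Finite W] in
lemma LabS.sing {n l : ℕ} {J : Finset ι} {A : ι → Submodule (ZMod 2) W}
    (hA : ∀ j ∈ J, Lag β (A j)) {cl : ι → ι} {U : ι → Submodule (ZMod 2) W}
    (h : LabS n l J A cl U) {a : ι} (ha : a ∈ J.image cl) : Sing β (U a) := by
  obtain ⟨j, hj, rfl⟩ := Finset.mem_image.mp ha
  exact fun w hw => (hA j hj).sing w (h.sub j hj hw)

lemma merge2 {n l : ℕ} (hW : Sympl β n) {J : Finset ι} {A : ι → Submodule (ZMod 2) W}
    (hA : ∀ j ∈ J, Lag β (A j)) {cl : ι → ι} {U : ι → Submodule (ZMod 2) W}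
    (h : LabS n l J A cl U) {a b : ι} (ha : a ∈ J.image cl) (hb : b ∈ J.image cl) (hab : a ≠ b)
    (hlow : LowRank β l (U a) (U b)) :
    ∃ (cl' : ι → ι) (U' : ι → Submodule (ZMod 2) W), LabS n l J A cl' U' ∧
      (J.image cl').card < (J.image cl).card ∧
      (cls J cl' a).card = (cls J cl a).card + (cls J cl b).card ∧
      a ∈ J.image cl' ∧
      ∀ c ∈ J.image cl', c ≠ a → c ∈ J.image cl ∧ (cls J cl' c).card = (cls J cl c).card := by
  set sa := (cls J cl a).card with hsa
  set sb := (cls J cl b).card with hsb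
  have hsa1 : 1 ≤ sa := cls_pos ha
  have hsb1 : 1 ≤ sb := cls_pos hb
  set cl' : ι → ι := fun j => if cl j = b then a else cl j with hcl'
  have himg : J.image cl' ⊆ (J.image cl).erase b := by
    intro x hx
    obtain ⟨j, hj, rfl⟩ := Finset.mem_image.mp hx
    rw [Finset.mem_erase]
    by_cases hjb : cl j = b
    · simp only [hcl', if_pos hjb]; exact ⟨hab, ha⟩
    · simp only [hcl', if_neg hjb]; exact ⟨hjb, Finset.mem_image_of_mem cl hj⟩
  have hcls : ∀ c, c ≠ a → c ≠ b → cls J cl' c = cls J cl c := by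
    intro c hca hcb
    ext j
    rw [mem_cls, mem_cls]
    by_cases hjb : cl j = b
    · simp only [hcl', if_pos hjb]
      constructor
      · rintro ⟨-, h1⟩; exact absurd h1.symm hca
      · rintro ⟨-, h1⟩; exact absurd (h1.symm.trans hjb) hcb
    · simp only [hcl', if_neg hjb]
  have hclsa : cls J cl' a = cls J cl a ∪ cls J cl b := by
    ext j
    rw [Finset.mem_union, mem_cls, mem_cls, mem_cls]
    by_cases hjb : cl j = b
    · simp only [hcl', if_pos hjb]; tauto
    · simp only [hcl', if_neg hjb]; tauto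
  have hcarda : (cls J cl' a).card = sa + sb := by
    rw [hclsa, Finset.card_union_of_disjoint]
    rw [Finset.disjoint_left]
    intro j hj hj'
    rw [mem_cls] at hj hj'
    exact hab (hj.2.symm.trans hj'.2)
  refine ⟨cl', Function.update U a (U a ⊓ U b), ⟨?_, ?_⟩, ?_, hcarda, ?_, ?_⟩
  · intro j hj
    by_cases hjb : cl j = b
    · have e : cl' j = a := by simp only [hcl', if_pos hjb]
      rw [e, Function.update_self]
      have := h.sub j hj
      rw [hjb] at this
      exact inf_le_right.trans this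
    · have e : cl' j = cl j := by simp only [hcl', if_neg hjb]
      rw [e]
      by_cases hja : cl j = a
      · rw [hja, Function.update_self]
        have := h.sub j hj
        rw [hja] at this
        exact inf_le_left.trans this
      · rw [Function.update_of_ne hja]
        exact h.sub j hj
  · intro c hc
    rcases eq_or_ne c a with rfl | hca
    · rw [Function.update_self, hcarda]
      have h1 := merge_dim hW (h.sing hA ha) (h.sing hA hb) (h.dim _ ha) (h.dim _ hb) hlow
      rw [← hsa, ← hsb] at h1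
      refine h1.trans (Nat.add_le_add_left (le_of_eq ?_) _)
      obtain ⟨x, hx⟩ : ∃ x, sa = x + 1 := ⟨sa - 1, by omega⟩
      obtain ⟨y, hy⟩ : ∃ y, sb = y + 1 := ⟨sb - 1, by omega⟩
      rw [hx, hy]
      have e1 : x + 1 - 1 = x := by omega
      have e2 : y + 1 - 1 = y := by omega
      have e3 : x + 1 + (y + 1) - 1 = x + y + 1 := by omega
      rw [e1, e2, e3]
      ring
    · have hc' := Finset.mem_erase.mp (himg hc)
      rw [Function.update_of_ne hca, hcls c hca hc'.1]
      exact h.dim c hc'.2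
  · calc (J.image cl').card ≤ ((J.image cl).erase b).card := Finset.card_le_card himg
      _ < (J.image cl).card := Finset.card_erase_lt_of_mem hb
  · obtain ⟨j, hj, hja⟩ := Finset.mem_image.mp ha
    refine Finset.mem_image.mpr ⟨j, hj, ?_⟩
    have : cl j ≠ b := by rw [hja]; exact hab
    simp only [hcl', if_neg this]
    exact hja
  · intro c hc hca
    have hc' := Finset.mem_erase.mp (himg hc)
    exact ⟨hc'.2, by rw [hcls c hca hc'.1]⟩

/-- Either a part of size between `K + 1` and `2 K` appears, or there is a partition into parts of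
size at most `K` with pairings of rank greater than `l`. -/
lemma exists_part {n l K : ℕ} (hW : Sympl β n) {J : Finset ι} {A : ι → Submodule (ZMod 2) W}
    (hA : ∀ j ∈ J, Lag β (A j)) :
    ∀ (k : ℕ) (cl : ι → ι) (U : ι → Submodule (ZMod 2) W),
    (J.image cl).card ≤ k → LabS n l J A cl U → (∀ a ∈ J.image cl, (cls J cl a).card ≤ K) →
    ∃ (cl' : ι → ι) (U' : ι → Submodule (ZMod 2) W), LabS n l J A cl' U' ∧
      ((∃ a ∈ J.image cl', K < (cls J cl' a).card ∧ (cls J cl' a).card ≤ 2 * K) ∨
       ((∀ a ∈ J.image cl', (cls J cl' a).card ≤ K) ∧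
        ∀ a ∈ J.image cl', ∀ b ∈ J.image cl', a ≠ b → ¬ LowRank β l (U' a) (U' b))) := by
  intro k
  induction k with
  | zero =>
    intro cl U hk h hs
    have h0 : J.image cl = ∅ := Finset.card_eq_zero.mp (Nat.le_zero.mp hk)
    refine ⟨cl, U, h, Or.inr ⟨hs, ?_⟩⟩
    rw [h0]
    intro a ha
    exact absurd ha (Finset.notMem_empty _)
  | succ k ih =>
    intro cl U hk h hs
    by_cases hsep : ∀ a ∈ J.image cl, ∀ b ∈ J.image cl, a ≠ b → ¬ LowRank β l (U a) (U b)
    · exact ⟨cl, U, h, Or.inr ⟨hs, hsep⟩⟩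
    · push Not at hsep
      obtain ⟨a, ha, b, hb, hab, hlow⟩ := hsep
      obtain ⟨cl', U', h', hlt, hcard, ha', hoth⟩ := merge2 hW hA h ha hb hab hlow
      by_cases hbig : K < (cls J cl' a).card
      · refine ⟨cl', U', h', Or.inl ⟨a, ha', hbig, ?_⟩⟩
        have h1 := hs a ha
        have h2 := hs b hb
        omega
      · refine ih cl' U' (by omega) h' fun c hc => ?_
        rcases eq_or_ne c a with rfl | hca
        · omega
        · rw [(hoth c hc hca).2]
          exact hs c (hoth c hc hca).1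

lemma labS_init {n l : ℕ} (hW : Sympl β n) {J : Finset ι}
    {A : ι → Submodule (ZMod 2) W} (hA : ∀ j ∈ J, Lag β (A j)) : LabS n l J A id A := by
  refine ⟨fun j _ => le_refl _, ?_⟩
  intro a ha
  rw [Finset.image_id] at ha
  rw [(hA a ha).finrank hW]
  omega

lemma cls_id_card {J : Finset ι} (a : ι) : (cls J id a).card ≤ 1 := by
  refine Finset.card_le_one.mpr ?_
  intro x hx y hy
  rw [mem_cls] at hx hy
  exact hx.2.trans hy.2.symm

omit [DecidableEq ι] in
/-- The killing step for a given common subspace. -/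
lemma kill_sub {D : Weyl β E} {s K : ℕ} (hK : 1 ≤ K) {J : Finset ι}
    {ψ : E} {A0 : Submodule (ZMod 2) W} {u : ι → E} {A : ι → Submodule (ZMod 2) W}
    (hc : Conf D s J ψ A0 u A) {V : Submodule (ZMod 2) W}
    {X : Finset ι} (hXJ : X ⊆ J) (hX : 2 * K ≤ X.card) (hV : ∀ j ∈ X, V ≤ A j)
    (hs : s < finrank (ZMod 2) V) :
    ∃ (J' : Finset ι) (ψ' : E) (A0' : Submodule (ZMod 2) W) (u' : ι → E)
      (A' : ι → Submodule (ZMod 2) W), Conf D (s + 2) J' ψ' A0' u' A' ∧ J'.card + K ≤ J.card := by
  classical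
  obtain ⟨j0, hj0⟩ : X.Nonempty := by
    rw [← Finset.card_pos]; omega
  have hUA0 : ¬ V ≤ A0 := by
    intro h
    have h1 : finrank (ZMod 2) V ≤ finrank (ZMod 2) (A0 ⊓ A j0 : Submodule (ZMod 2) W) :=
      Submodule.finrank_mono (le_inf h (hV j0 hj0))
    have h2 := hc.inter j0 (hXJ hj0)
    omega
  obtain ⟨g, hgU, hg0⟩ := SetLike.not_le_iff_exists.mp hUA0
  have hg : β g g = 0 := (hc.lag j0 (hXJ hj0)).sing g (hV j0 hj0 hgU)
  have hsplit := Finset.card_filter_add_card_filter_not (s := X) (fun j => D.P g (u j) = u j)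
  have hfin : ∀ (Y : Finset ι), Y ⊆ J → K ≤ Y.card → (J \ Y).card + K ≤ J.card := by
    intro Y hY hYK
    rw [Finset.card_sdiff_of_subset hY]
    have := Finset.card_le_card hY
    omega
  by_cases hcase : K ≤ (X.filter fun j => D.P g (u j) = u j).card
  · have hsub : (X.filter fun j => D.P g (u j) = u j) ⊆ J := (Finset.filter_subset _ _).trans hXJ
    refine ⟨_, _, _, _, _, kill_aux hc hg hg0 (Or.inl rfl) hsub ?_, hfin _ hsub hcase⟩
    intro j hj
    rw [one_smul]
    exact (Finset.mem_filter.mp hj).2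
  · have hsub : (X.filter fun j => ¬ D.P g (u j) = u j) ⊆ J :=
      (Finset.filter_subset _ _).trans hXJ
    refine ⟨_, _, _, _, _, kill_aux hc hg hg0 (Or.inr rfl) hsub ?_, hfin _ hsub (by omega)⟩
    intro j hj
    obtain ⟨hjX, hj'⟩ := Finset.mem_filter.mp hj
    rw [neg_smul, one_smul]
    exact (hc.eig j (hXJ hjX) g (hV j hjX hgU)).resolve_left hj'

end Pool.Agent.Lib.MP_a387ab_co.LB
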