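import Pool.Agent.Lib.MP_a387ab_co.Part
import Pool.Agent.Lib.MP_a387ab_co.Concrete

/-!
# The quadratic argument: near orthogonality and the main induction
-/

namespace Pool.Agent.Lib.MP_a387ab_co.LB

open Module

variable {W : Type*} [AddCommGroup W] [Module (ZMod 2) W]
variable {β : LinearMap.BilinForm (ZMod 2) W}
variable {E : Type*} [NormedAddCommGroup E] [InnerProductSpace ℝ E]
variable {ι : Type*} [DecidableEq ι]

/-- Almost orthogonal vectors with small overlap with their sum, weighted version. -/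
lemma gram2 {L : Finset ι} {F : ι → E} {ψ : E} (hψ : ψ = ∑ a ∈ L, F a) (hne : ψ ≠ 0)
    {w : ι → ℝ} (hw : ∀ a ∈ L, 0 ≤ w a) {m M R : ℝ} (hm : ∑ a ∈ L, w a ≤ m) (hM : 2 * m ≤ M)
    (hMpos : 0 < M) (hR : 2 * m < R)
    (hcross : ∀ a ∈ L, ∀ b ∈ L, a ≠ b →
      (M * inner ℝ (F a) (F b)) ^ 2 ≤ w a * w b * (‖F a‖ * ‖F b‖) ^ 2)
    (hover : ∀ a ∈ L, R * (inner ℝ (F a) ψ) ^ 2 ≤ w a * (‖F a‖ * ‖ψ‖) ^ 2) : False := by
  have hψ0 : 0 < ‖ψ‖ := norm_pos_iff.mpr hne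
  have hm0 : 0 ≤ m := (Finset.sum_nonneg hw).trans hm
  have hR0 : 0 < R := by linarith
  set S : ℝ := ∑ a ∈ L, √(w a) * ‖F a‖ with hS
  set Q : ℝ := ∑ a ∈ L, ‖F a‖ ^ 2 with hQ
  have hS0 : 0 ≤ S := Finset.sum_nonneg fun _ _ => by positivity
  have hQ0 : 0 ≤ Q := Finset.sum_nonneg fun _ _ => by positivity
  have hSQ : S ^ 2 ≤ m * Q := by
    have h1 := Finset.sum_mul_sq_le_sq_mul_sq L (fun a => √(w a)) (fun a => ‖F a‖)
    have h2 : ∑ a ∈ L, √(w a) ^ 2 = ∑ a ∈ L, w a :=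
      Finset.sum_congr rfl fun a ha => Real.sq_sqrt (hw a ha)
    rw [h2] at h1
    exact h1.trans (mul_le_mul_of_nonneg_right hm hQ0)
  have h1 : M * Q ≤ M * ‖ψ‖ ^ 2 + S ^ 2 := by
    have e1 : ‖ψ‖ ^ 2 = ∑ a ∈ L, ∑ b ∈ L, inner ℝ (F a) (F b) := by
      rw [← real_inner_self_eq_norm_sq]
      conv_lhs => rw [hψ]
      rw [sum_inner]
      simp_rw [inner_sum]
    have e2 : S ^ 2 = ∑ a ∈ L, ∑ b ∈ L, (√(w a) * ‖F a‖) * (√(w b) * ‖F b‖) := by
      rw [sq, hS, Finset.sum_mul_sum]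
    have e3 : Q = ∑ a ∈ L, ∑ b ∈ L, if a = b then ‖F a‖ ^ 2 else 0 := by
      rw [hQ]
      refine Finset.sum_congr rfl fun a ha => ?_
      rw [Finset.sum_ite_eq, if_pos ha]
    rw [e1, e2, e3, Finset.mul_sum, Finset.mul_sum, ← Finset.sum_add_distrib]
    refine Finset.sum_le_sum fun a ha => ?_
    rw [Finset.mul_sum, Finset.mul_sum, ← Finset.sum_add_distrib]
    refine Finset.sum_le_sum fun b hb => ?_
    by_cases hab : a = b
    · subst hab
      rw [if_pos rfl, real_inner_self_eq_norm_sq]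
      have : 0 ≤ (√(w a) * ‖F a‖) * (√(w a) * ‖F a‖) := by positivity
      linarith
    · rw [if_neg hab]
      have h2 := hcross a ha b hb hab
      have h3 : (M * inner ℝ (F a) (F b)) ^ 2 ≤ ((√(w a) * ‖F a‖) * (√(w b) * ‖F b‖)) ^ 2 := by
        refine h2.trans (le_of_eq ?_)
        have ha' := Real.sq_sqrt (hw a ha)
        have hb' := Real.sq_sqrt (hw b hb)
        calc w a * w b * (‖F a‖ * ‖F b‖) ^ 2
            = (√(w a) ^ 2) * (√(w b) ^ 2) * (‖F a‖ * ‖F b‖) ^ 2 := by rw [ha', hb']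
          _ = _ := by ring
      have h4 := abs_le_of_sq_le_sq h3 (by positivity)
      have h5 := neg_abs_le (M * inner ℝ (F a) (F b))
      linarith
  have h2 : √R * ‖ψ‖ ^ 2 ≤ S * ‖ψ‖ := by
    have e1 : ‖ψ‖ ^ 2 = ∑ a ∈ L, inner ℝ (F a) ψ := by
      rw [← real_inner_self_eq_norm_sq, ← sum_inner, ← hψ]
    rw [e1, Finset.mul_sum, hS, Finset.sum_mul]
    refine Finset.sum_le_sum fun a ha => ?_
    have h3 : (√R * inner ℝ (F a) ψ) ^ 2 ≤ (√(w a) * ‖F a‖ * ‖ψ‖) ^ 2 := by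
      calc (√R * inner ℝ (F a) ψ) ^ 2 = √R ^ 2 * (inner ℝ (F a) ψ) ^ 2 := by ring
        _ = R * (inner ℝ (F a) ψ) ^ 2 := by rw [Real.sq_sqrt hR0.le]
        _ ≤ w a * (‖F a‖ * ‖ψ‖) ^ 2 := hover a ha
        _ = √(w a) ^ 2 * (‖F a‖ * ‖ψ‖) ^ 2 := by rw [Real.sq_sqrt (hw a ha)]
        _ = _ := by ring
    have h4 := abs_le_of_sq_le_sq h3 (by positivity)
    exact (le_abs_self _).trans h4
  have h3 : √R * ‖ψ‖ ≤ S := by
    have : √R * ‖ψ‖ * ‖ψ‖ ≤ S * ‖ψ‖ := by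
      calc √R * ‖ψ‖ * ‖ψ‖ = √R * ‖ψ‖ ^ 2 := by ring
        _ ≤ _ := h2
    exact le_of_mul_le_mul_right this hψ0
  have h4 : R * ‖ψ‖ ^ 2 ≤ m * Q := by
    calc R * ‖ψ‖ ^ 2 = (√R * ‖ψ‖) ^ 2 := by rw [mul_pow, Real.sq_sqrt hR0.le]
      _ ≤ S ^ 2 := pow_le_pow_left₀ (by positivity) h3 2
      _ ≤ m * Q := hSQ
  have h5 : Q ≤ 2 * ‖ψ‖ ^ 2 := by
    have h6 : M * Q ≤ M * ‖ψ‖ ^ 2 + M / 2 * Q := by
      have : m * Q ≤ M / 2 * Q := mul_le_mul_of_nonneg_right (by linarith) hQ0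
      linarith
    have h7 : M * Q ≤ M * (2 * ‖ψ‖ ^ 2) := by linarith
    exact le_of_mul_le_mul_left h7 hMpos
  have h6 : R * ‖ψ‖ ^ 2 ≤ 2 * m * ‖ψ‖ ^ 2 := by
    calc R * ‖ψ‖ ^ 2 ≤ m * Q := h4
      _ ≤ m * (2 * ‖ψ‖ ^ 2) := mul_le_mul_of_nonneg_left h5 hm0
      _ = _ := by ring
  have h7 : 0 < ‖ψ‖ ^ 2 := by positivity
  have h8 := le_of_mul_le_mul_right h6 h7
  linarith

variable [Finite W] [FiniteDimensional ℝ E]

/-- A configuration with a partition into small parts with pairings of high rank is impossible. -/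
theorem part_false {n h K s m : ℕ} {D : Weyl β E} (hh : 1 ≤ h) {J : Finset ι}
    {ψ : E} {A0 : Submodule (ZMod 2) W} {u : ι → E} {A : ι → Submodule (ZMod 2) W}
    (hc : Conf D s J ψ A0 u A) (hm : J.card ≤ m) (hl : 2 * m ≤ 2 ^ h)
    (hn : (K - 1) * (2 * h - 1) + s + (h + 1) ≤ n) {cl : ι → ι} {U : ι → Submodule (ZMod 2) W}
    (hlab : LabS n (2 * h - 1) J A cl U) (hsize : ∀ a ∈ J.image cl, (cls J cl a).card ≤ K)
    (hsep : ∀ a ∈ J.image cl, ∀ b ∈ J.image cl, a ≠ b → ¬ LowRank β (2 * h - 1) (U a) (U b)) :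
    False := by
  obtain ⟨c, hcψ⟩ := hc.span
  set L := J.image cl with hL
  set F : ι → E := fun a => ∑ j ∈ cls J cl a, c j • u j with hF
  have hψ : ψ = ∑ a ∈ L, F a := by
    rw [hcψ]
    exact (Finset.sum_fiberwise_of_maps_to (fun j hj => Finset.mem_image_of_mem cl hj) _).symm
  have hsub : ∀ a, cls J cl a ⊆ J := fun a => Finset.filter_subset _ _
  have hdec : ∀ a ∈ L, Dec D (U a) (cls J cl a).card (F a) := by
    intro a ha
    obtain ⟨V, hV1, hV2, hV3⟩ := D.span_inv (A := U a) u (cls J cl a) (fun j hj w hw => by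
      rw [mem_cls] at hj
      refine hc.eig j hj.1 w (hlab.sub j hj.1 ?_)
      rw [hj.2]; exact hw)
    refine D.decomp' (hlab.sing hc.lag ha) _ V hV3 hV2 _ ?_
    exact V.sum_mem fun j hj => V.smul_mem _ (hV1 j hj)
  have hsum : ∑ a ∈ L, ((cls J cl a).card : ℝ) ≤ m := by
    have h1 : ∑ a ∈ L, (cls J cl a).card = J.card :=
      (Finset.card_eq_sum_card_image cl J).symm
    have h2 : (∑ a ∈ L, (cls J cl a).card : ℕ) ≤ m := h1.le.trans hm
    exact_mod_cast h2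
  have hl' : (2 * m : ℝ) ≤ 2 ^ h := by exact_mod_cast hl
  have hpow : (0 : ℝ) < 2 ^ h := by positivity
  have hR : (2 * m : ℝ) < 2 ^ (h + 1) := by
    rw [pow_succ]
    linarith
  refine gram2 (w := fun a => ((cls J cl a).card : ℝ)) hψ hc.ne (fun _ _ => Nat.cast_nonneg _)
    hsum hl' hpow hR ?_ ?_
  · intro a ha b hb hab
    have hs := hsep b hb a ha (Ne.symm hab)
    unfold LowRank at hs
    rw [inf_comm] at hs
    have h1 := D.cross' (k := 2 * h) (hdec a ha) (hdec b hb) (by omega)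
    calc ((2 : ℝ) ^ h * inner ℝ (F a) (F b)) ^ 2 = 2 ^ (2 * h) * (inner ℝ (F a) (F b)) ^ 2 := by
          rw [mul_pow, ← pow_mul, mul_comm h 2]
      _ ≤ _ := h1
      _ = _ := by ring
  · intro a ha
    have hd := hlab.dim a ha
    have hsa1 : 1 ≤ (cls J cl a).card := cls_pos ha
    have hsaK := hsize a ha
    have hfr : finrank (ZMod 2) (A0 ⊓ U a : Submodule (ZMod 2) W) ≤ s := by
      obtain ⟨j, hj⟩ : (cls J cl a).Nonempty := Finset.card_pos.mp hsa1
      rw [mem_cls] at hj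
      refine le_trans (Submodule.finrank_mono ?_) (hc.inter j hj.1)
      have := hlab.sub j hj.1
      rw [hj.2] at this
      exact inf_le_inf_left _ this
    have hle : ((cls J cl a).card - 1) * (2 * h - 1) ≤ (K - 1) * (2 * h - 1) :=
      Nat.mul_le_mul_right _ (by omega)
    have h1 := D.cross' (k := h + 1) (D.dec_of_eig hc.eig0) (hdec a ha) (by
      rw [hc.lag0.perp_eq]
      omega)
    rw [real_inner_comm]
    calc (2 : ℝ) ^ (h + 1) * (inner ℝ ψ (F a)) ^ 2 ≤ _ := h1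
      _ = _ := by push_cast; ring

/-- The main induction. -/
theorem main2 {n h k m : ℕ} (hW : Sympl β n) {D : Weyl β E} (hk : 1 ≤ k) (hh : 1 ≤ h)
    (hl : 2 * m ≤ 2 ^ h) : ∀ (T s : ℕ) (J : Finset ι)
    (ψ : E) (A0 : Submodule (ZMod 2) W) (u : ι → E) (A : ι → Submodule (ZMod 2) W),
    Conf D s J ψ A0 u A → J.card ≤ m → J.card ≤ k * T →
      (4 * k - 3) * (2 * h - 1) + s + 2 * T ≤ n → False := by
  intro T
  induction T with
  | zero =>
    intro s J ψ A0 u A hc _ hJ _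
    rw [mul_zero] at hJ
    obtain ⟨c, hcψ⟩ := hc.span
    apply hc.ne
    rw [hcψ, Finset.card_eq_zero.mp (Nat.le_zero.mp hJ), Finset.sum_empty]
  | succ T ih =>
    intro s J ψ A0 u A hc hm hJ hn
    obtain ⟨cl, U, hlab, hcase⟩ := exists_part (K := 2 * k - 1) hW hc.lag _ id A le_rfl
      (labS_init (l := 2 * h - 1) hW hc.lag) (fun a _ => (cls_id_card a).trans (by omega))
    rcases hcase with ⟨a, ha, h1, h2⟩ | ⟨hsize, hsep⟩
    · have hd := hlab.dim a ha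
      have hle : ((cls J cl a).card - 1) * (2 * h - 1) ≤ (4 * k - 3) * (2 * h - 1) :=
        Nat.mul_le_mul_right _ (by omega)
      obtain ⟨J', ψ', A0', u', A', hc', hJ'⟩ := kill_sub (V := U a) (X := cls J cl a) hk hc
        (Finset.filter_subset _ _) (by omega)
        (fun j hj => by
          rw [mem_cls] at hj
          have := hlab.sub j hj.1
          rwa [hj.2] at this) (by omega)
      refine ih (s + 2) J' ψ' A0' u' A' hc' (by omega) ?_ (by omega)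
      have : k * (T + 1) = k * T + k := by ring
      omega
    · refine part_false hh hc hm hl ?_ hlab hsize hsep
      have h3 : (4 * k - 3) * (2 * h - 1)
          = (2 * k - 1 - 1) * (2 * h - 1) + (2 * k - 1) * (2 * h - 1) := by
        rw [← add_mul]
        congr 1
        omega
      have h4 : 1 * (2 * h - 1) ≤ (2 * k - 1) * (2 * h - 1) :=
        Nat.mul_le_mul_right _ (by omega)
      omega

/-- The parametric lower bound. -/
theorem lower_param2 {n m k T h : ℕ} (hk : 1 ≤ k) (hh : 1 ≤ h)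
    (hn : (4 * k - 3) * (2 * h - 1) + 2 * T ≤ n) (hl : 2 * (k * T) ≤ 2 ^ h)
    (hrep : Represents n m) : k * T < m := by
  by_contra hcon
  push Not at hcon
  obtain ⟨q, c, hq, hrep⟩ := hrep
  have hq' : ∀ i, ∃ (B : (Fin n → ZMod 2) →ₗ[ZMod 2] (Fin n → ZMod 2) →ₗ[ZMod 2] ZMod 2)
      (l : (Fin n → ZMod 2) →ₗ[ZMod 2] ZMod 2) (c : ZMod 2), ∀ x, q i x = B x x + l x + c :=
    fun i => (isQuad_iff_quadOn _).mp (hq i)
  choose B l' c' hB using hq'
  have hconf : Conf (weyl n) 0 (Finset.univ : Finset (Fin m)) (andV n) (lagPt n)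
      (fun i => phV (q i)) (fun i => lagQ (B i)) := by
    refine ⟨lag_lagPt n, fun i _ => lag_lagQ _, eig_andV n, fun i _ => eig_phV (hB i),
      andV_ne n, ⟨c, ?_⟩, fun i _ => ?_⟩
    · ext x
      rw [andV_apply, hrep x]
      simp [phV_apply]
    · rw [lagPt_inf_lagQ, finrank_bot]
  refine main2 (sympl_bet n) hk hh hl T 0 _ _ _ _ _ hconf ?_ ?_ (by omega)
  · rw [Finset.card_univ, Fintype.card_fin]; exact hcon
  · rw [Finset.card_univ, Fintype.card_fin]; exact hcon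

end Pool.Agent.Lib.MP_a387ab_co.LB
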