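import Pool.Agent.Lib.MP_a387ab_co.QuadMain

/-!
# The numerical form of the nearly quadratic lower bound
-/

namespace Pool.Agent.Lib.MP_a387ab_co.LB

theorem one_le_of_rep {n m : ℕ} (h : Represents n m) : 1 ≤ m := by
  by_contra hcon
  have hm : m = 0 := by omega
  subst hm
  obtain ⟨q, c, _, hrep⟩ := h
  have h1 := hrep (fun _ => 1)
  simp [andFn] at h1

/-- Choice of the parameters for large `n`. -/
theorem quad_large {n m : ℕ} (hn : 512 ≤ n) (h : Represents n m) :
    n ^ 2 ≤ 128 * Nat.log 2 n * m := by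
  set L := Nat.log 2 n with hL
  have hL9 : 9 ≤ L := by
    calc 9 = Nat.log 2 (2 ^ 9) := by rw [Nat.log_pow (by norm_num)]
      _ ≤ Nat.log 2 n := Nat.log_mono_right (by norm_num; omega)
  have hpow : n < 2 * 2 ^ L := by
    have := Nat.lt_pow_succ_log_self (b := 2) (by norm_num) n
    rw [pow_succ, ← hL] at this
    omega
  have hpow' : 2 ^ L ≤ n := Nat.pow_log_le_self 2 (by omega)
  have key : ∀ l : ℕ, 9 ≤ l → 32 * l ^ 2 ≤ 9 * 2 ^ l + 64 * l := by
    intro l hl
    induction l, hl using Nat.le_induction with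
    | base => norm_num
    | succ l hl ih =>
      rw [pow_succ 2 l]
      nlinarith
  have hkey := key L hL9
  have hN512 : 512 ≤ 2 ^ L := by
    calc 512 = 2 ^ 9 := by norm_num
      _ ≤ 2 ^ L := Nat.pow_le_pow_right (by norm_num) hL9
  have hh16 : 2 ^ (2 * L - 4) * 16 = 2 ^ L * 2 ^ L := by
    rw [← pow_add, show (16 : ℕ) = 2 ^ 4 by norm_num, ← pow_add]
    congr 1
    omega
  obtain ⟨N, hN⟩ : ∃ N, N = 2 ^ L := ⟨_, rfl⟩
  rw [← hN] at hpow hpow' hkey hN512 hh16
  obtain ⟨D, hD⟩ : ∃ D, 4 * L = D + 9 := ⟨4 * L - 9, by omega⟩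
  have hD27 : 27 ≤ D := by omega
  have hDn : 2 * D + 2 ≤ n := by
    have h1 : 9 * L ≤ L ^ 2 := by nlinarith
    omega
  set k := (n / 2 + 3 * D) / (4 * D) with hk
  set T := n / 4 with hT
  have hk1 : 4 * D * k ≤ n / 2 + 3 * D := Nat.mul_div_le _ _
  have hk2 : n / 2 + 3 * D < 4 * D * (k + 1) := Nat.lt_mul_div_succ _ (by omega)
  have hkpos : 1 ≤ k := by
    rw [hk, Nat.one_le_div_iff (by omega)]
    omega
  have hT4 : 4 * T ≤ n := by omega
  have hT3 : n ≤ 4 * T + 3 := by omega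
  have hn2 : 2 * (n / 2) ≤ n := by omega
  have hn2' : n ≤ 2 * (n / 2) + 1 := by omega
  have hcond1 : (4 * k - 3) * (2 * (2 * L - 4) - 1) + 2 * T ≤ n := by
    have e1 : 2 * (2 * L - 4) - 1 = D := by omega
    have e2 : (4 * k - 3) * D + 3 * D = 4 * D * k := by
      rw [← add_mul, Nat.sub_add_cancel (by omega)]
      ring
    rw [e1]
    omega
  have hcond2 : 2 * (k * T) ≤ 2 ^ (2 * L - 4) := by
    have h1 : 2 * (4 * D * k) ≤ n + 6 * D := by omega
    have h2 : (2 * (4 * D * k)) * (4 * T) ≤ (n + 6 * D) * n := Nat.mul_le_mul h1 hT4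
    have h3 : (n + 6 * D) * n ≤ (2 * N + 6 * D) * (2 * N) :=
      Nat.mul_le_mul (by omega) hpow.le
    have h4 : 4 * N + 12 * D ≤ D * N := by nlinarith
    have h5 : (2 * N + 6 * D) * (2 * N) ≤ D * (N * N) := by nlinarith
    have h6 : D * (16 * (2 * (k * T))) ≤ D * (N * N) := by
      calc D * (16 * (2 * (k * T))) = (2 * (4 * D * k)) * (4 * T) := by ring
        _ ≤ _ := h2.trans (h3.trans h5)
    have h7 := Nat.le_of_mul_le_mul_left h6 (by omega)
    omega
  have hm := lower_param2 hkpos (by omega) hcond1 hcond2 h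
  have hm1 : k * T + 1 ≤ m := hm
  -- the final inequality over the integers
  have g1 : (n : ℤ) + 1 - 2 * D ≤ 8 * D * k := by
    have : n + 1 ≤ 8 * D * k + 2 * D := by
      have e : 4 * D * (k + 1) = 4 * D * k + 4 * D := by ring
      have e' : 8 * D * k = 2 * (4 * D * k) := by ring
      omega
    push_cast [← Int.ofNat_le] at this ⊢
    linarith
  have g2 : (n : ℤ) - 3 ≤ 4 * T := by
    have : (n : ℤ) ≤ 4 * T + 3 := by exact_mod_cast hT3
    linarith
  have g3 : ((n : ℤ) + 1 - 2 * D) * (n - 3) ≤ (8 * D * k) * (4 * T) := by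
    apply mul_le_mul g1 g2
    · have : (512 : ℤ) ≤ n := by exact_mod_cast hn
      linarith
    · positivity
  have g4 : (4 * L : ℤ) = D + 9 := by exact_mod_cast hD
  have g5 : ((D : ℤ) + 9) * (2 * D + 2) ≤ 9 * n := by
    have h1 : (32 * L ^ 2 : ℤ) ≤ 9 * N + 64 * L := by exact_mod_cast hkey
    have h2 : (N : ℤ) ≤ n := by exact_mod_cast hpow'
    have h3 : ((D : ℤ) + 9) * (2 * D + 2) = 32 * L ^ 2 - 64 * L := by
      have hDL : (D : ℤ) = 4 * L - 9 := by linarith
      rw [hDL]; ring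
    rw [h3]
    linarith
  have g6 : (D : ℤ) * n ^ 2 ≤ D * (128 * L * (k * T + 1)) := by
    have h0 : (27 : ℤ) ≤ D := by exact_mod_cast hD27
    have hn0 : (512 : ℤ) ≤ n := by exact_mod_cast hn
    have h1 : (D : ℤ) * (128 * L * (k * T + 1)) =
        (4 * L) * ((8 * D * k) * (4 * T)) + 32 * (4 * L) * D := by ring
    rw [h1, g4]
    have h2 : ((D : ℤ) + 9) * (((n : ℤ) + 1 - 2 * D) * (n - 3)) ≤
        (D + 9) * ((8 * D * k) * (4 * T)) := mul_le_mul_of_nonneg_left g3 (by linarith)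
    have h3 : ((D : ℤ) + 9) * (2 * D + 2) * n ≤ 9 * n * n :=
      mul_le_mul_of_nonneg_right g5 (by linarith)
    nlinarith
  have g7 : (n : ℤ) ^ 2 ≤ 128 * L * (k * T + 1) :=
    le_of_mul_le_mul_left g6 (by exact_mod_cast (by omega : 0 < D))
  have g8 : n ^ 2 ≤ 128 * L * (k * T + 1) := by exact_mod_cast g7
  exact g8.trans (Nat.mul_le_mul_left _ hm1)

/-- `n ^ 2 ≤ 128 ⌊log₂ n⌋ M(n)`. -/
theorem quad_all {n m : ℕ} (hn : 2 ≤ n) (h : Represents n m) :
    n ^ 2 ≤ 128 * Nat.log 2 n * m := by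
  rcases Nat.lt_or_ge n 512 with h512 | h512
  swap
  · exact quad_large h512 h
  have hlog : ∀ j : ℕ, 2 ^ j ≤ n → j ≤ Nat.log 2 n := by
    intro j hj
    calc j = Nat.log 2 (2 ^ j) := by rw [Nat.log_pow (by norm_num)]
      _ ≤ Nat.log 2 n := Nat.log_mono_right hj
  have hfin : ∀ j b B : ℕ, j ≤ Nat.log 2 n → b ≤ m → n ≤ B → B ^ 2 ≤ 128 * j * b →
      n ^ 2 ≤ 128 * Nat.log 2 n * m := by
    intro j b B h1 h2 h3 h4
    calc n ^ 2 ≤ B ^ 2 := Nat.pow_le_pow_left h3 2
      _ ≤ 128 * j * b := h4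
      _ ≤ 128 * Nat.log 2 n * m := Nat.mul_le_mul (Nat.mul_le_mul_left _ h1) h2
  rcases Nat.lt_or_ge n 11 with h1 | h1
  · exact hfin 1 1 10 (hlog 1 (by omega)) (one_le_of_rep h) (by omega) (by norm_num)
  rcases Nat.lt_or_ge n 32 with h2 | h2
  · have hm := lower_param2 (k := 1) (T := 2) (h := 2) (by norm_num) (by norm_num) (by omega)
      (by norm_num) h
    exact hfin 3 3 31 (hlog 3 (by omega)) (by omega) (by omega) (by norm_num)
  rcases Nat.lt_or_ge n 64 with h3 | h3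
  · have hm := lower_param2 (k := 1) (T := 8) (h := 4) (by norm_num) (by norm_num) (by omega)
      (by norm_num) h
    exact hfin 5 9 63 (hlog 5 (by omega)) (by omega) (by omega) (by norm_num)
  rcases Nat.lt_or_ge n 128 with h4 | h4
  · have hm := lower_param2 (k := 1) (T := 26) (h := 6) (by norm_num) (by norm_num) (by omega)
      (by norm_num) h
    exact hfin 6 27 127 (hlog 6 (by omega)) (by omega) (by omega) (by norm_num)
  rcases Nat.lt_or_ge n 228 with h5 | h5
  · have hm := lower_param2 (k := 1) (T := 57) (h := 7) (by norm_num) (by norm_num) (by omega)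
      (by norm_num) h
    exact hfin 7 58 227 (hlog 7 (by omega)) (by omega) (by omega) (by norm_num)
  rcases Nat.lt_or_ge n 256 with h6 | h6
  · have hm := lower_param2 (k := 2) (T := 64) (h := 8) (by norm_num) (by norm_num) (by omega)
      (by norm_num) h
    exact hfin 7 129 255 (hlog 7 (by omega)) (by omega) (by omega) (by norm_num)
  rcases Nat.lt_or_ge n 364 with h7 | h7
  · have hm := lower_param2 (k := 2) (T := 64) (h := 8) (by norm_num) (by norm_num) (by omega)
      (by norm_num) h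
    exact hfin 8 129 363 (hlog 8 (by omega)) (by omega) (by omega) (by norm_num)
  · have hm := lower_param2 (k := 4) (T := 64) (h := 9) (by norm_num) (by norm_num) (by omega)
      (by norm_num) h
    exact hfin 8 257 511 (hlog 8 (by omega)) (by omega) (by omega) (by norm_num)

/-- `M(n) ≥ n ^ 2 / (128 log₂ n)` for every `n ≥ 2`. -/
theorem quad_real {n m : ℕ} (hn : 2 ≤ n) (h : Represents n m) :
    (n : ℝ) ^ 2 / (128 * Real.logb 2 n) ≤ m := by
  have hn2 : (2 : ℝ) ≤ n := by exact_mod_cast hn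
  have hpos : 0 < Real.logb 2 n := Real.logb_pos (by norm_num) (by linarith)
  rw [div_le_iff₀ (by positivity)]
  have h1 : ((Nat.log 2 n : ℕ) : ℝ) ≤ Real.logb 2 n := by
    rw [Real.le_logb_iff_rpow_le (by norm_num) (by linarith), Real.rpow_natCast]
    exact_mod_cast Nat.pow_log_le_self 2 (by omega : n ≠ 0)
  have h2 : (n : ℝ) ^ 2 ≤ 128 * (Nat.log 2 n : ℕ) * m := by exact_mod_cast quad_all hn h
  have hm0 : (0 : ℝ) ≤ m := Nat.cast_nonneg m
  calc (n : ℝ) ^ 2 ≤ 128 * (Nat.log 2 n : ℕ) * m := h2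
    _ ≤ 128 * Real.logb 2 n * m := by gcongr
    _ = m * (128 * Real.logb 2 n) := by ring

end Pool.Agent.Lib.MP_a387ab_co.LB
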