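import Pool.Agent.Lib.MP_a387ab_co.Cover

namespace Pool.Agent.Lib.MP_a387ab_co

open Finset

/-! ### Matchings and random restrictions -/

/-- Two ordered pairs without common entries. -/
def DisjE {n : ℕ} (e f : Fin n × Fin n) : Prop :=
  e.1 ≠ f.1 ∧ e.1 ≠ f.2 ∧ e.2 ≠ f.1 ∧ e.2 ≠ f.2

/-- The vertices of a set of pairs. -/
def verts {n : ℕ} (T : Finset (Fin n × Fin n)) : Finset (Fin n) :=
  T.image Prod.fst ∪ T.image Prod.snd

lemma card_verts {n : ℕ} (T : Finset (Fin n × Fin n)) (hlt : ∀ e ∈ T, e.1 < e.2)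
    (hT : (T : Set (Fin n × Fin n)).Pairwise DisjE) : (verts T).card = 2 * T.card := by
  classical
  unfold verts
  rw [Finset.card_union_of_disjoint, Finset.card_image_of_injOn, Finset.card_image_of_injOn]
  · ring
  · intro e he f hf hef
    by_contra hne
    exact (hT he hf hne).2.2.2 hef
  · intro e he f hf hef
    by_contra hne
    exact (hT he hf hne).1 hef
  · rw [Finset.disjoint_left]
    intro w hw1 hw2
    rw [Finset.mem_image] at hw1 hw2
    obtain ⟨e, he, rfl⟩ := hw1
    obtain ⟨f, hf, hfe⟩ := hw2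
    by_cases hef : e = f
    · subst hef
      exact absurd (hlt e he) (by rw [hfe]; exact lt_irrefl _)
    · exact (hT he hf hef).2.1 hfe.symm

/-- Without a matching of size `k` inside `S`, the pairs inside `S` have a small cover. -/
lemma exists_cover {n : ℕ} (E : Finset (Fin n × Fin n)) (S : Finset (Fin n)) (k : ℕ)
    (hno : ¬ ∃ T ⊆ E, T.card = k ∧ (T : Set (Fin n × Fin n)).Pairwise DisjE ∧ verts T ⊆ S) :
    ∃ W : Finset (Fin n), W.card ≤ 2 * (k - 1) ∧
      ∀ e ∈ E, e.1 ∈ S → e.2 ∈ S → e.1 ∈ W ∨ e.2 ∈ W := by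
  classical
  let P : Finset (Finset (Fin n × Fin n)) := E.powerset.filter fun T =>
    (T : Set (Fin n × Fin n)).Pairwise DisjE ∧ verts T ⊆ S
  have hne : P.Nonempty := by
    refine ⟨∅, Finset.mem_filter.mpr ⟨Finset.mem_powerset.mpr (Finset.empty_subset _), ?_, ?_⟩⟩
    · intro e he
      simp at he
    · simp [verts]
  obtain ⟨T, hTP, hmax⟩ := Finset.exists_max_image P Finset.card hne
  rw [Finset.mem_filter, Finset.mem_powerset] at hTP
  have hcard : T.card ≤ k - 1 := by
    by_contra hcon
    have hk : k ≤ T.card := by omega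
    obtain ⟨T', hT'T, hT'card⟩ := Finset.exists_subset_card_eq hk
    refine hno ⟨T', hT'T.trans hTP.1, hT'card, hTP.2.1.mono (by exact_mod_cast hT'T), ?_⟩
    refine Finset.Subset.trans ?_ hTP.2.2
    exact Finset.union_subset_union (Finset.image_subset_image hT'T)
      (Finset.image_subset_image hT'T)
  refine ⟨verts T, ?_, ?_⟩
  · calc (verts T).card ≤ (T.image Prod.fst).card + (T.image Prod.snd).card :=
          Finset.card_union_le _ _
      _ ≤ T.card + T.card := Nat.add_le_add Finset.card_image_le Finset.card_image_le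
      _ ≤ _ := by omega
  · intro e heE he1 he2
    by_contra hcon
    push Not at hcon
    have hdis : ∀ f ∈ T, DisjE e f ∧ DisjE f e := by
      intro f hf
      have h1 : f.1 ∈ verts T := Finset.mem_union_left _ (Finset.mem_image_of_mem _ hf)
      have h2 : f.2 ∈ verts T := Finset.mem_union_right _ (Finset.mem_image_of_mem _ hf)
      have a1 : e.1 ≠ f.1 := fun h => hcon.1 (h ▸ h1)
      have a2 : e.1 ≠ f.2 := fun h => hcon.1 (h ▸ h2)
      have a3 : e.2 ≠ f.1 := fun h => hcon.2 (h ▸ h1)
      have a4 : e.2 ≠ f.2 := fun h => hcon.2 (h ▸ h2)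
      exact ⟨⟨a1, a2, a3, a4⟩, ⟨a1.symm, a3.symm, a2.symm, a4.symm⟩⟩
    have heT : e ∉ T := by
      intro h
      exact hcon.1 (Finset.mem_union_left _ (Finset.mem_image_of_mem _ h))
    have hins : insert e T ∈ P := by
      rw [Finset.mem_filter, Finset.mem_powerset]
      refine ⟨Finset.insert_subset heE hTP.1, ?_, ?_⟩
      · rw [Finset.coe_insert]
        refine hTP.2.1.insert fun f hf _ => hdis f hf
      · unfold verts
        rw [Finset.image_insert, Finset.image_insert]
        intro w hw
        rw [Finset.mem_union, Finset.mem_insert, Finset.mem_insert] at hw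
        rcases hw with (h | h) | (h | h)
        · exact h ▸ he1
        · exact hTP.2.2 (Finset.mem_union_left _ h)
        · exact h ▸ he2
        · exact hTP.2.2 (Finset.mem_union_right _ h)
    have := hmax _ hins
    rw [Finset.card_insert_of_notMem heT] at this
    omega

/-- The number of transversals through a given set of vertices. -/
lemma card_transversals {n d b : ℕ} (ε : Fin d × Fin b → Fin n) (hε : Function.Injective ε)
    (V : Finset (Fin n)) :
    (Finset.univ.filter fun φ : Fin d → Fin b => ∀ w ∈ V, ∃ j, ε (j, φ j) = w).card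
      * b ^ V.card ≤ b ^ d := by
  classical
  by_cases hemp : (Finset.univ.filter
      fun φ : Fin d → Fin b => ∀ w ∈ V, ∃ j, ε (j, φ j) = w).Nonempty
  swap
  · rw [Finset.not_nonempty_iff_eq_empty] at hemp
    rw [hemp]; simp
  obtain ⟨φ0, hφ0⟩ := hemp
  rw [Finset.mem_filter] at hφ0
  have hch : ∀ w : V, ∃ p : Fin d × Fin b, ε p = w := fun w => by
    obtain ⟨j, hj⟩ := hφ0.2 w w.2
    exact ⟨_, hj⟩
  choose p hp using hch
  have hpinj : Function.Injective (fun w : V => (p w).1) := by
    intro w w' hww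
    obtain ⟨j, hj⟩ := hφ0.2 w w.2
    obtain ⟨j', hj'⟩ := hφ0.2 w' w'.2
    have h1 : (j, φ0 j) = p w := hε (by rw [hj, hp])
    have h2 : (j', φ0 j') = p w' := hε (by rw [hj', hp])
    have h3 : j = (p w).1 := by rw [← h1]
    have h4 : j' = (p w').1 := by rw [← h2]
    have h5 : j = j' := by rw [h3, h4]; exact hww
    apply Subtype.ext
    rw [← hj, ← hj', h5]
  have hmem : ∀ φ : Fin d → Fin b, (∀ w ∈ V, ∃ j, ε (j, φ j) = w) →
      ∀ w : V, φ (p w).1 = (p w).2 := by
    intro φ hφ w
    obtain ⟨j, hj⟩ := hφ w w.2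
    have h1 : (j, φ j) = p w := hε (by rw [hj, hp])
    rw [← h1]
  let Φ : (Finset.univ.filter fun φ : Fin d → Fin b => ∀ w ∈ V, ∃ j, ε (j, φ j) = w)
      × (V → Fin b) → (Fin d → Fin b) :=
    fun x j => if h : ∃ w : V, (p w).1 = j then x.2 h.choose else x.1.1 j
  have hΦw : ∀ x (w : V), Φ x (p w).1 = x.2 w := by
    intro x w
    have h : ∃ w' : V, (p w').1 = (p w).1 := ⟨w, rfl⟩
    have h2 : h.choose = w := hpinj h.choose_spec
    simp only [Φ]
    rw [dif_pos h, h2]
  have hΦn : ∀ x (j : Fin d), (¬ ∃ w : V, (p w).1 = j) → Φ x j = x.1.1 j := by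
    intro x j hj
    simp only [Φ]
    rw [dif_neg hj]
  have hinj : Function.Injective Φ := by
    intro x y hxy
    have h2 : x.2 = y.2 := by
      ext w
      rw [← hΦw x w, ← hΦw y w, hxy]
    have h1 : x.1.1 = y.1.1 := by
      ext j
      by_cases hj : ∃ w : V, (p w).1 = j
      · obtain ⟨w, rfl⟩ := hj
        rw [hmem _ (Finset.mem_filter.mp x.1.2).2, hmem _ (Finset.mem_filter.mp y.1.2).2]
      · rw [← hΦn x j hj, ← hΦn y j hj, hxy]
    exact Prod.ext (Subtype.ext h1) h2
  have hcard := Fintype.card_le_of_injective Φ hinj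
  rw [Fintype.card_prod, Fintype.card_coe, Fintype.card_fun, Fintype.card_fun,
    Fintype.card_fin, Fintype.card_fin, Fintype.card_coe] at hcard
  exact hcard

/-- A transversal avoiding all matchings of size `k` in `m` given sets of at most `s` pairs. -/
lemma exists_transversal {n d b m s k : ℕ} (ε : Fin d × Fin b → Fin n)
    (hε : Function.Injective ε) (hb : 0 < b) (E : Fin m → Finset (Fin n × Fin n))
    (hE : ∀ i, (E i).card ≤ s) (hlt : ∀ i, ∀ e ∈ E i, e.1 < e.2)
    (hnum : m * s.choose k < b ^ (2 * k)) :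
    ∃ φ : Fin d → Fin b, ∀ i, ¬ ∃ T ⊆ E i, T.card = k ∧
      (T : Set (Fin n × Fin n)).Pairwise DisjE ∧
      verts T ⊆ Finset.univ.image fun j => ε (j, φ j) := by
  classical
  by_contra hcon
  push Not at hcon
  have hmemS : ∀ (φ : Fin d → Fin b) (V : Finset (Fin n)),
      V ⊆ (Finset.univ.image fun j => ε (j, φ j)) → ∀ w ∈ V, ∃ j, ε (j, φ j) = w := by
    intro φ V hV w hw
    have := hV hw
    rw [Finset.mem_image] at this
    obtain ⟨j, _, hj⟩ := this
    exact ⟨j, hj⟩
  have hsub : (Finset.univ : Finset (Fin d → Fin b)) ⊆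
      Finset.univ.biUnion fun i : Fin m => ((E i).powersetCard k).biUnion fun T =>
        if (T : Set (Fin n × Fin n)).Pairwise DisjE then
          (Finset.univ.filter fun φ : Fin d → Fin b => ∀ w ∈ verts T, ∃ j, ε (j, φ j) = w)
        else ∅ := by
    intro φ _
    obtain ⟨i, T, hTE, hTk, hTd, hTS⟩ := hcon φ
    rw [Finset.mem_biUnion]
    refine ⟨i, Finset.mem_univ _, ?_⟩
    rw [Finset.mem_biUnion]
    refine ⟨T, Finset.mem_powersetCard.mpr ⟨hTE, hTk⟩, ?_⟩
    rw [if_pos hTd, Finset.mem_filter]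
    exact ⟨Finset.mem_univ _, hmemS φ _ hTS⟩
  have hcard := Finset.card_le_card hsub
  rw [Finset.card_univ, Fintype.card_fun, Fintype.card_fin, Fintype.card_fin] at hcard
  have h1 : b ^ d * b ^ (2 * k) ≤ m * s.choose k * b ^ d := by
    calc b ^ d * b ^ (2 * k) ≤ (∑ i : Fin m, ∑ T ∈ (E i).powersetCard k,
          (if (T : Set (Fin n × Fin n)).Pairwise DisjE then
          (Finset.univ.filter fun φ : Fin d → Fin b => ∀ w ∈ verts T, ∃ j, ε (j, φ j) = w)
        else ∅).card) * b ^ (2 * k) := by
          refine Nat.mul_le_mul_right _ (hcard.trans ?_)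
          refine Finset.card_biUnion_le.trans (Finset.sum_le_sum fun i _ => ?_)
          exact Finset.card_biUnion_le
      _ = ∑ i : Fin m, ∑ T ∈ (E i).powersetCard k,
          (if (T : Set (Fin n × Fin n)).Pairwise DisjE then
          (Finset.univ.filter fun φ : Fin d → Fin b => ∀ w ∈ verts T, ∃ j, ε (j, φ j) = w)
        else ∅).card * b ^ (2 * k) := by
          rw [Finset.sum_mul]
          exact Finset.sum_congr rfl fun i _ => by rw [Finset.sum_mul]
      _ ≤ ∑ i : Fin m, ∑ _T ∈ (E i).powersetCard k, b ^ d := by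
          refine Finset.sum_le_sum fun i _ => Finset.sum_le_sum fun T hT => ?_
          rw [Finset.mem_powersetCard] at hT
          by_cases hTd : (T : Set (Fin n × Fin n)).Pairwise DisjE
          · rw [if_pos hTd]
            have h2 := card_verts T (fun e he => hlt i e (hT.1 he)) hTd
            have h3 := card_transversals ε hε (verts T)
            rw [h2, hT.2] at h3
            exact h3
          · rw [if_neg hTd]; simp
      _ ≤ ∑ _i : Fin m, s.choose k * b ^ d := by
          refine Finset.sum_le_sum fun i _ => ?_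
          rw [Finset.sum_const, Finset.card_powersetCard, smul_eq_mul]
          exact Nat.mul_le_mul_right _ (Nat.choose_le_choose k (hE i))
      _ = m * s.choose k * b ^ d := by
          rw [Finset.sum_const, Finset.card_univ, Fintype.card_fin, smul_eq_mul, mul_assoc]
  have hbd : 0 < b ^ d := Nat.pow_pos hb
  have h2 : b ^ (2 * k) ≤ m * s.choose k := by
    have : b ^ d * b ^ (2 * k) ≤ b ^ d * (m * s.choose k) := by
      calc _ ≤ _ := h1
        _ = _ := by ring
    exact Nat.le_of_mul_le_mul_left this hbd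
  omega

end Pool.Agent.Lib.MP_a387ab_co
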