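import Pool.Agent.Lib.MP_a387ab_co.Restrict

namespace Pool.Agent.Lib.MP_a387ab_co

open Finset

/-- A polynomial of degree at most two with at most `s` monomials `x_i x_j`, `i < j`. -/
def SparseQuad {n : ℕ} (s : ℕ) (q : (Fin n → ZMod 2) → ZMod 2) : Prop :=
  ∃ (a : Fin n → Fin n → ZMod 2) (b : Fin n → ZMod 2) (c : ZMod 2),
    (∀ x, q x = ∑ i, ∑ j ∈ Finset.Ioi i, a i j * x i * x j + ∑ i, b i * x i + c) ∧
    (Finset.univ.filter fun p : Fin n × Fin n => p.1 < p.2 ∧ a p.1 p.2 ≠ 0).card ≤ s

/-- A sparse polynomial has a bilinear presentation whose polar form vanishes off few pairs. -/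
lemma SparseQuad.exists_form {n s : ℕ} {q : (Fin n → ZMod 2) → ZMod 2} (hq : SparseQuad s q) :
    ∃ (B : (Fin n → ZMod 2) →ₗ[ZMod 2] (Fin n → ZMod 2) →ₗ[ZMod 2] ZMod 2)
      (l : (Fin n → ZMod 2) →ₗ[ZMod 2] ZMod 2) (c : ZMod 2) (E : Finset (Fin n × Fin n)),
      (∀ x, q x = B x x + l x + c) ∧ E.card ≤ s ∧ (∀ e ∈ E, e.1 < e.2) ∧
      ∀ u v, (u, v) ∉ E → (v, u) ∉ E →
        B (Pi.single u 1) (Pi.single v 1) + B (Pi.single v 1) (Pi.single u 1) = 0 := by
  classical
  obtain ⟨a, b, c, h, hcard⟩ := hq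
  let B : (Fin n → ZMod 2) →ₗ[ZMod 2] (Fin n → ZMod 2) →ₗ[ZMod 2] ZMod 2 :=
    ∑ i, ∑ j ∈ Finset.Ioi i,
        (LinearMap.mk₂ (ZMod 2) (fun x y : Fin n → ZMod 2 => a i j * x i * y j)
          (fun _ _ _ => by simp; ring) (fun _ _ _ => by simp; ring)
          (fun _ _ _ => by simp; ring) (fun _ _ _ => by simp; ring))
  have hB : ∀ x y, B x y = ∑ i, ∑ j ∈ Finset.Ioi i, a i j * x i * y j := by
    intro x y
    simp [B, LinearMap.sum_apply, LinearMap.mk₂_apply]
  have hBs : ∀ u v, B (Pi.single u 1) (Pi.single v 1) = if u < v then a u v else 0 := by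
    intro u v
    rw [hB, Finset.sum_eq_single u]
    · by_cases huv : u < v
      · rw [if_pos huv, Finset.sum_eq_single v]
        · simp
        · intro j _ hj
          rw [Pi.single_eq_of_ne hj, mul_zero]
        · intro hv
          exact absurd (Finset.mem_Ioi.mpr huv) hv
      · rw [if_neg huv]
        refine Finset.sum_eq_zero fun j hj => ?_
        have : j ≠ v := by
          rintro rfl
          exact huv (Finset.mem_Ioi.mp hj)
        rw [Pi.single_eq_of_ne this, mul_zero]
    · intro i _ hi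
      refine Finset.sum_eq_zero fun j hj => ?_
      rw [Pi.single_eq_of_ne hi, mul_zero, zero_mul]
    · intro hu
      exact absurd (Finset.mem_univ _) hu
  refine ⟨B, ∑ i, b i • LinearMap.proj i, c,
    Finset.univ.filter fun p : Fin n × Fin n => p.1 < p.2 ∧ a p.1 p.2 ≠ 0, fun x => ?_, hcard,
    fun e he => (Finset.mem_filter.mp he).2.1, fun u v huv hvu => ?_⟩
  · rw [h, hB]
    simp [LinearMap.sum_apply]
  · rw [Finset.mem_filter] at huv hvu
    push Not at huv hvu
    rw [hBs, hBs]
    by_cases h1 : u < v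
    · rw [if_pos h1, if_neg (not_lt.mpr h1.le), huv (Finset.mem_univ _) h1, add_zero]
    · rw [if_neg h1]
      by_cases h2 : v < u
      · rw [if_pos h2, hvu (Finset.mem_univ _) h2, add_zero]
      · rw [if_neg h2, add_zero]

/-- The counting core: a random restriction leaves only covers of size `2 (k - 1)`. -/
lemma sparse_core {n d b m s k : ℕ} (hdb : d * b ≤ n) (hb : 0 < b)
    (hnum : m * s.choose k < b ^ (2 * k))
    (g : Fin m → (Fin n → ZMod 2) → ZMod 2) (p : Fin n → ZMod 2)
    (hg : ∀ i, ∃ r : (Fin n → ZMod 2) → ZMod 2, SparseQuad s r ∧ ∀ x, g i x = r (x + p))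
    (c : Fin m → ℝ)
    (h : ∀ x : Fin n → ZMod 2, (if x = 0 then (1 : ℝ) else 0) = ∑ i, c i * phase (g i x)) :
    2 ^ d ≤ m * 4 ^ (2 * (k - 1)) := by
  classical
  choose r hr hgr using hg
  choose B l c0 E hform hEcard hElt hEpol using fun i => (hr i).exists_form
  let ε : Fin d × Fin b → Fin n := fun x => (finProdFinEquiv x).castLE hdb
  have hε : Function.Injective ε :=
    (Fin.castLE_injective hdb).comp finProdFinEquiv.injective
  obtain ⟨φ, hφ⟩ := exists_transversal ε hε hb E hEcard hElt hnum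
  let w : Fin d → Fin n := fun j => ε (j, φ j)
  have hw : Function.Injective w := by
    intro j j' hjj
    have := hε hjj
    exact (Prod.ext_iff.mp this).1
  choose W hWcard hWcov using fun i => exists_cover (E i) (Finset.univ.image w) k (hφ i)
  -- the embedding of the restricted cube
  let e : (Fin d → ZMod 2) →ₗ[ZMod 2] (Fin n → ZMod 2) :=
    ∑ j, (LinearMap.single (ZMod 2) (fun _ : Fin n => ZMod 2) (w j)) ∘ₗ LinearMap.proj j
  have he : ∀ y, e y = ∑ j, Pi.single (w j) (y j) := by
    intro y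
    simp [e, LinearMap.sum_apply]
  have hesingle : ∀ j, e (Pi.single j 1) = Pi.single (w j) 1 := by
    intro j
    rw [he, Finset.sum_eq_single j]
    · simp
    · intro i _ hi
      rw [Pi.single_eq_of_ne hi, Pi.single_zero]
    · intro hj
      exact absurd (Finset.mem_univ _) hj
  have hew : ∀ y j, e y (w j) = y j := by
    intro y j
    rw [he, Finset.sum_apply, Finset.sum_eq_single j]
    · simp
    · intro i _ hi
      exact Pi.single_eq_of_ne (fun hh => hi (hw hh.symm)) _
    · intro hj
      exact absurd (Finset.mem_univ _) hj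
  have he0 : ∀ y, e y = 0 ↔ y = 0 := by
    intro y
    constructor
    · intro hy
      ext j
      rw [← hew y j, hy]; rfl
    · rintro rfl
      exact map_zero e
  -- apply the counting bound
  have hcount := two_pow_le_sum_card (d := d) (m := m) (fun i y => phase (g i (e y))) c
    (fun y => by
      have := h (e y)
      simpa only [he0] using this)
  refine hcount.trans ?_
  calc ∑ i, (Finset.univ.filter fun u => four (fun y => phase (g i (e y))) u ≠ 0).card
      ≤ ∑ _i : Fin m, 4 ^ (2 * (k - 1)) := by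
        refine Finset.sum_le_sum fun i _ => ?_
        let U : Finset (Fin d) := Finset.univ.filter fun j => w j ∈ W i
        have hUcard : U.card ≤ 2 * (k - 1) := by
          refine le_trans ?_ (hWcard i)
          have : (U.image w) ⊆ W i := by
            intro x hx
            rw [Finset.mem_image] at hx
            obtain ⟨j, hj, rfl⟩ := hx
            exact (Finset.mem_filter.mp hj).2
          calc U.card = (U.image w).card := (Finset.card_image_of_injective U hw).symm
            _ ≤ _ := Finset.card_le_card this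
        have hpol : ∀ u v, u ∉ U → v ∉ U →
            ((B i).compl₁₂ e e) (Pi.single u 1) (Pi.single v 1)
              + ((B i).compl₁₂ e e) (Pi.single v 1) (Pi.single u 1) = 0 := by
          intro u v hu hv
          rw [LinearMap.compl₁₂_apply, LinearMap.compl₁₂_apply, hesingle, hesingle]
          have hu' : w u ∉ W i := fun hh => hu (Finset.mem_filter.mpr ⟨Finset.mem_univ _, hh⟩)
          have hv' : w v ∉ W i := fun hh => hv (Finset.mem_filter.mpr ⟨Finset.mem_univ _, hh⟩)
          have hS : ∀ j, w j ∈ Finset.univ.image w := fun j =>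
            Finset.mem_image_of_mem _ (Finset.mem_univ j)
          refine hEpol i _ _ ?_ ?_
          · intro hmem
            rcases hWcov i _ hmem (hS u) (hS v) with hh | hh
            · exact hu' hh
            · exact hv' hh
          · intro hmem
            rcases hWcov i _ hmem (hS v) (hS u) with hh | hh
            · exact hv' hh
            · exact hu' hh
        have hfin := card_four_ne_zero_le ((B i).compl₁₂ e e)
          ((l i) ∘ₗ e + ((B i).flip p) ∘ₗ e + (B i p) ∘ₗ e) (B i p p + l i p + c0 i) U hpol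
        have heq : (fun y => phase (g i (e y))) = fun y =>
            phase (((B i).compl₁₂ e e) y y
              + ((l i) ∘ₗ e + ((B i).flip p) ∘ₗ e + (B i p) ∘ₗ e) y
              + (B i p p + l i p + c0 i)) := by
          funext y
          rw [hgr, hform]
          congr 1
          simp only [map_add, LinearMap.add_apply, LinearMap.compl₁₂_apply,
            LinearMap.comp_apply, LinearMap.flip_apply]
          ring
        rw [heq]
        exact hfin.trans (Nat.pow_le_pow_right (by norm_num) hUcard)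
    _ = m * 4 ^ (2 * (k - 1)) := by
        rw [Finset.sum_const, Finset.card_univ, Fintype.card_fin, smul_eq_mul]

lemma pow_self_le (k : ℕ) : k ^ k ≤ 3 ^ k * k.factorial := by
  have h1 := Real.pow_div_factorial_le_exp (k : ℝ) (Nat.cast_nonneg k) k
  have h2 : Real.exp (k : ℝ) ≤ 3 ^ k := by
    have h3 : Real.exp (k : ℝ) = Real.exp 1 ^ k := by
      rw [← Real.exp_nat_mul, mul_one]
    rw [h3]
    exact pow_le_pow_left₀ (Real.exp_pos 1).le (by
      have := Real.exp_one_lt_d9
      linarith) k
  have hf : (0 : ℝ) < k.factorial := by exact_mod_cast Nat.factorial_pos k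
  rw [div_le_iff₀ hf] at h1
  have h4 : (k : ℝ) ^ k ≤ 3 ^ k * k.factorial :=
    h1.trans (mul_le_mul_of_nonneg_right h2 hf.le)
  exact_mod_cast h4

lemma choose_mul_pow_le (s k : ℕ) : s.choose k * k ^ k ≤ 3 ^ k * s ^ k := by
  calc s.choose k * k ^ k ≤ s.choose k * (3 ^ k * k.factorial) :=
        Nat.mul_le_mul_left _ (pow_self_le k)
    _ = 3 ^ k * (k.factorial * s.choose k) := by ring
    _ = 3 ^ k * s.descFactorial k := by rw [Nat.descFactorial_eq_factorial_mul_choose]
    _ ≤ 3 ^ k * s ^ k := Nat.mul_le_mul_left _ (Nat.descFactorial_le_pow s k)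

/-- The lower bound for representations by sparse polynomials, at the origin. -/
lemma sparse_bound {n m s k : ℕ} (hn : 0 < n) (hs : n ≤ s) (hk : 1 ≤ k) (hks : 1536 * s * k ≤ n ^ 2)
    (g : Fin m → (Fin n → ZMod 2) → ZMod 2) (p : Fin n → ZMod 2)
    (hg : ∀ i, ∃ r : (Fin n → ZMod 2) → ZMod 2, SparseQuad s r ∧ ∀ x, g i x = r (x + p))
    (c : Fin m → ℝ)
    (h : ∀ x : Fin n → ZMod 2, (if x = 0 then (1 : ℝ) else 0) = ∑ i, c i * phase (g i x)) :
    2 ^ k ≤ m := by
  by_contra hm
  push Not at hm
  have hnk : 1536 * k ≤ n := by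
    have h1 : n * (1536 * k) ≤ n * n := by
      calc n * (1536 * k) ≤ s * (1536 * k) := Nat.mul_le_mul_right _ hs
        _ = 1536 * s * k := by ring
        _ ≤ n ^ 2 := hks
        _ = n * n := by ring
    exact Nat.le_of_mul_le_mul_left h1 hn
  set b := n / (8 * k) with hbdef
  have h8k : 0 < 8 * k := by omega
  have hb1 : 1 ≤ b := by
    rw [hbdef, Nat.le_div_iff_mul_le h8k]
    omega
  have hdb : 8 * k * b ≤ n := Nat.mul_div_le n (8 * k)
  have hbig : n ≤ 16 * k * b := by
    have h1 : n < 8 * k * (b + 1) := by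
      rw [hbdef]
      exact Nat.lt_mul_div_succ n h8k
    nlinarith
  have hkb : 6 * s ≤ k * b ^ 2 := by
    have h1 : n ^ 2 ≤ 256 * k * (k * b ^ 2) := by
      calc n ^ 2 ≤ (16 * k * b) ^ 2 := Nat.pow_le_pow_left hbig 2
        _ = 256 * k * (k * b ^ 2) := by ring
    have h2 : 256 * k * (6 * s) ≤ 256 * k * (k * b ^ 2) := by
      calc 256 * k * (6 * s) = 1536 * s * k := by ring
        _ ≤ n ^ 2 := hks
        _ ≤ _ := h1
    exact Nat.le_of_mul_le_mul_left h2 (by positivity)
  have hsk : k ≤ s := by omega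
  have hchoose : 2 ^ k * s.choose k ≤ b ^ (2 * k) := by
    have h1 : (2 ^ k * s.choose k) * k ^ k ≤ b ^ (2 * k) * k ^ k := by
      calc (2 ^ k * s.choose k) * k ^ k = 2 ^ k * (s.choose k * k ^ k) := by ring
        _ ≤ 2 ^ k * (3 ^ k * s ^ k) := Nat.mul_le_mul_left _ (choose_mul_pow_le s k)
        _ = (6 * s) ^ k := by rw [← mul_pow, ← mul_pow]; congr 1; ring
        _ ≤ (k * b ^ 2) ^ k := Nat.pow_le_pow_left hkb k
        _ = b ^ (2 * k) * k ^ k := by rw [mul_pow, ← pow_mul]; ring
    exact Nat.le_of_mul_le_mul_right h1 (Nat.pow_pos hk)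
  have hpos : 0 < s.choose k := Nat.choose_pos hsk
  have hnum : m * s.choose k < b ^ (2 * k) :=
    lt_of_lt_of_le (Nat.mul_lt_mul_of_pos_right hm hpos) hchoose
  have hcore := sparse_core (d := 8 * k) hdb hb1 hnum g p hg c h
  have h4 : (4 : ℕ) ^ (2 * (k - 1)) ≤ 2 ^ (4 * k) := by
    calc (4 : ℕ) ^ (2 * (k - 1)) = 2 ^ (2 * (2 * (k - 1))) := by
          rw [show (4 : ℕ) = 2 ^ 2 by norm_num, ← pow_mul]
      _ ≤ 2 ^ (4 * k) := Nat.pow_le_pow_right (by norm_num) (by omega)
  have h5 : m * 4 ^ (2 * (k - 1)) < 2 ^ (8 * k) := by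
    calc m * 4 ^ (2 * (k - 1)) ≤ m * 2 ^ (4 * k) := Nat.mul_le_mul_left _ h4
      _ < 2 ^ k * 2 ^ (4 * k) := Nat.mul_lt_mul_of_pos_right hm (by positivity)
      _ = 2 ^ (5 * k) := by rw [← pow_add]; congr 1; ring
      _ ≤ 2 ^ (8 * k) := Nat.pow_le_pow_right (by norm_num) (by omega)
  omega

end Pool.Agent.Lib.MP_a387ab_co
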