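import Pool.Agent.Lib.MP_a387ab_co.Cluster

/-!
# Sparse configurations are impossible
-/

namespace Pool.Agent.Lib.MP_a387ab_co.LB

open Module

variable {W : Type*} [AddCommGroup W] [Module (ZMod 2) W]
variable {β : LinearMap.BilinForm (ZMod 2) W}
variable {E : Type*} [NormedAddCommGroup E] [InnerProductSpace ℝ E]
variable {ι : Type*} [DecidableEq ι]

/-- Almost orthogonal vectors with small overlap with their sum. -/
lemma gram {L : Finset ι} {F : ι → E} {ψ : E} (hψ : ψ = ∑ a ∈ L, F a) (hne : ψ ≠ 0) {m : ℕ}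
    (hL : L.card ≤ m)
    (hcross : ∀ a ∈ L, ∀ b ∈ L, a ≠ b → 2 * m * |inner ℝ (F a) (F b)| ≤ ‖F a‖ * ‖F b‖)
    (hover : ∀ a ∈ L, 2 * m * |inner ℝ (F a) ψ| ≤ ‖F a‖ * ‖ψ‖) : False := by
  have hm : 0 < m := by
    rcases Nat.eq_zero_or_pos m with h | h
    · exfalso
      apply hne
      rw [h] at hL
      rw [hψ, Finset.card_eq_zero.mp (Nat.le_zero.mp hL), Finset.sum_empty]
    · exact h
  have hm' : (1 : ℝ) ≤ m := by exact_mod_cast hm
  have hψ0 : 0 < ‖ψ‖ := norm_pos_iff.mpr hne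
  set S : ℝ := ∑ a ∈ L, ‖F a‖ with hS
  set Q : ℝ := ∑ a ∈ L, ‖F a‖ ^ 2 with hQ
  have hS0 : 0 ≤ S := Finset.sum_nonneg fun _ _ => norm_nonneg _
  have hQ0 : 0 ≤ Q := Finset.sum_nonneg fun _ _ => by positivity
  have hSQ : S ^ 2 ≤ m * Q := by
    have h1 := sq_sum_le_card_mul_sum_sq (s := L) (f := fun a => ‖F a‖)
    refine h1.trans (mul_le_mul_of_nonneg_right ?_ hQ0)
    exact_mod_cast hL
  have h1 : 2 * m * Q ≤ 2 * m * ‖ψ‖ ^ 2 + S ^ 2 := by
    have e1 : ‖ψ‖ ^ 2 = ∑ a ∈ L, ∑ b ∈ L, inner ℝ (F a) (F b) := by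
      rw [← real_inner_self_eq_norm_sq]
      conv_lhs => rw [hψ]
      rw [sum_inner]
      simp_rw [inner_sum]
    have e2 : S ^ 2 = ∑ a ∈ L, ∑ b ∈ L, ‖F a‖ * ‖F b‖ := by
      rw [sq, hS, Finset.sum_mul_sum]
    have e3 : Q = ∑ a ∈ L, ∑ b ∈ L, if a = b then ‖F a‖ ^ 2 else 0 := by
      rw [hQ]
      refine Finset.sum_congr rfl fun a ha => ?_
      rw [Finset.sum_ite_eq, if_pos ha]
    rw [e1, e2, e3, Finset.mul_sum, Finset.mul_sum, ← Finset.sum_add_distrib]
    refine Finset.sum_le_sum fun a ha => ?_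
    rw [Finset.mul_sum, Finset.mul_sum, ← Finset.sum_add_distrib]
    refine Finset.sum_le_sum fun b hb => ?_
    by_cases hab : a = b
    · subst hab
      rw [if_pos rfl, real_inner_self_eq_norm_sq]
      have : 0 ≤ ‖F a‖ * ‖F a‖ := by positivity
      linarith
    · rw [if_neg hab]
      have h2 := hcross a ha b hb hab
      have h3 : -(2 * m * |inner ℝ (F a) (F b)|) ≤ 2 * m * inner ℝ (F a) (F b) := by
        rw [← mul_neg]
        exact mul_le_mul_of_nonneg_left (neg_abs_le _) (by positivity)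
      linarith
  have h2 : 2 * m * ‖ψ‖ ^ 2 ≤ S * ‖ψ‖ := by
    have e1 : ‖ψ‖ ^ 2 = ∑ a ∈ L, inner ℝ (F a) ψ := by
      rw [← real_inner_self_eq_norm_sq, ← sum_inner, ← hψ]
    rw [e1, Finset.mul_sum, hS, Finset.sum_mul]
    refine Finset.sum_le_sum fun a ha => ?_
    refine le_trans ?_ (hover a ha)
    exact mul_le_mul_of_nonneg_left (le_abs_self _) (by positivity)
  have h3 : 2 * m * ‖ψ‖ ≤ S := by
    have : 2 * m * ‖ψ‖ * ‖ψ‖ ≤ S * ‖ψ‖ := by
      calc 2 * m * ‖ψ‖ * ‖ψ‖ = 2 * m * ‖ψ‖ ^ 2 := by ring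
        _ ≤ _ := h2
    exact le_of_mul_le_mul_right this hψ0
  have h4 : m * Q ≤ 2 * m * ‖ψ‖ ^ 2 := by
    nlinarith
  have h5 : (2 * m * ‖ψ‖) ^ 2 ≤ 2 * m * ‖ψ‖ ^ 2 := by
    calc (2 * m * ‖ψ‖) ^ 2 ≤ S ^ 2 := pow_le_pow_left₀ (by positivity) h3 2
      _ ≤ m * Q := hSQ
      _ ≤ _ := h4
  have h6 : (2 * m * ‖ψ‖) ^ 2 = 2 * m * (2 * m * ‖ψ‖ ^ 2) := by ring
  rw [h6] at h5
  have h7 : 0 < 2 * m * ‖ψ‖ ^ 2 := by positivity
  nlinarith

variable [Finite W] [FiniteDimensional ℝ E]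

/-- A sparse configuration does not exist. -/
theorem sparse_false {n l N s m : ℕ} (hW : Sympl β n) {D : Weyl β E} (hN : 1 ≤ N) {J : Finset ι}
    {ψ : E} {A0 : Submodule (ZMod 2) W} {u : ι → E} {A : ι → Submodule (ZMod 2) W}
    (hc : Conf D s J ψ A0 u A) (hm : J.card ≤ m) (hl : 2 * m * N ≤ 2 ^ l)
    (hn : 2 * N * l + s ≤ n) (hsp : Sparse β n l N J A) : False := by
  obtain ⟨cl, cen, hlab, hsep⟩ := exists_sep hW hsp _ id A le_rfl (lab_init hW hN hc.lag)
  obtain ⟨c, hcψ⟩ := hc.span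
  set L := J.image cl with hL
  set F : ι → E := fun a => ∑ j ∈ cls J cl a, c j • u j with hF
  have hψ : ψ = ∑ a ∈ L, F a := by
    rw [hcψ]
    exact (Finset.sum_fiberwise_of_maps_to (fun j hj => Finset.mem_image_of_mem cl hj) _).symm
  have hLm : L.card ≤ m := (Finset.card_image_le).trans hm
  have hsub : ∀ a, cls J cl a ⊆ J := fun a => Finset.filter_subset _ _
  have hNear : ∀ a, ∀ j ∈ cls J cl a, Near n (((cls J cl a).card - 1) * l) (cen a) (A j) := by
    intro a j hj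
    rw [mem_cls] at hj
    have := hlab.near j hj.1
    rwa [hj.2] at this
  have hdec : ∀ a ∈ L, Dec D (cen a)
      ((cls J cl a).card * 2 ^ (((cls J cl a).card - 1) * l)) (F a) := by
    intro a ha
    obtain ⟨U, hU1, hU2, hU3⟩ := D.cluster ((hlab.lag a ha).finrank hW) A u (cls J cl a)
      (fun j hj => hc.eig j (hsub a hj)) (hNear a)
    refine D.decomp (hlab.lag a ha) _ U hU3 hU2 _ ?_
    exact U.sum_mem fun j hj => U.smul_mem _ (hU1 j hj)
  have hl' : (2 * m * N : ℝ) ≤ 2 ^ l := by exact_mod_cast hl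
  have hN' : (1 : ℝ) ≤ N := by exact_mod_cast hN
  refine gram hψ hc.ne hLm ?_ ?_
  · intro a ha b hb hab
    have hs := hsep a ha b hb hab
    unfold Near at hs
    set sa := (cls J cl a).card with hsa
    set sb := (cls J cl b).card with hsb
    have hsa1 : 1 ≤ sa := cls_pos ha
    have hsb1 : 1 ≤ sb := cls_pos hb
    have hsaN : sa ≤ N := hlab.size a ha
    have hsbN : sb ≤ N := hlab.size b hb
    have h1 := D.cross hW (hlab.lag a ha) (hlab.lag b hb) (hdec a ha) (hdec b hb)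
      (k := (sa + sb) * l) (by omega)
    rw [← hsa, ← hsb] at h1
    obtain ⟨ta, hta⟩ : ∃ t, sa = t + 1 := ⟨sa - 1, by omega⟩
    obtain ⟨tb, htb⟩ : ∃ t, sb = t + 1 := ⟨sb - 1, by omega⟩
    have e1 : (2 : ℝ) ^ ((sa + sb) * l) = 2 ^ (ta * l) * 2 ^ (tb * l) * (2 ^ l) ^ 2 := by
      rw [hta, htb, ← pow_mul, ← pow_add, ← pow_add]
      congr 1
      ring
    have e2 : sa - 1 = ta := by omega
    have e3 : sb - 1 = tb := by omega
    rw [e1, e2, e3] at h1
    push_cast at h1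
    have h2 : (2 ^ l * |inner ℝ (F a) (F b)|) ^ 2 ≤ (N * (‖F a‖ * ‖F b‖)) ^ 2 := by
      have hp : (0 : ℝ) < 2 ^ (ta * l) * 2 ^ (tb * l) := by positivity
      have h3 : (2 ^ (ta * l) * 2 ^ (tb * l)) * (2 ^ l * |inner ℝ (F a) (F b)|) ^ 2
          ≤ (2 ^ (ta * l) * 2 ^ (tb * l)) * (N * (‖F a‖ * ‖F b‖)) ^ 2 := by
        calc (2 ^ (ta * l) * 2 ^ (tb * l)) * (2 ^ l * |inner ℝ (F a) (F b)|) ^ 2
            = 2 ^ (ta * l) * 2 ^ (tb * l) * (2 ^ l) ^ 2 * (inner ℝ (F a) (F b)) ^ 2 := by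
              rw [mul_pow, sq_abs]; ring
          _ ≤ _ := h1
          _ = (2 ^ (ta * l) * 2 ^ (tb * l)) * ((sa * sb) * (‖F a‖ * ‖F b‖) ^ 2) := by ring
          _ ≤ (2 ^ (ta * l) * 2 ^ (tb * l)) * ((N * N) * (‖F a‖ * ‖F b‖) ^ 2) := by
              refine mul_le_mul_of_nonneg_left ?_ hp.le
              refine mul_le_mul_of_nonneg_right ?_ (by positivity)
              exact mul_le_mul (Nat.cast_le.mpr hsaN) (Nat.cast_le.mpr hsbN) (Nat.cast_nonneg _)
                (Nat.cast_nonneg _)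
          _ = _ := by ring
      exact le_of_mul_le_mul_left h3 hp
    have h4 := abs_le_of_sq_le_sq h2 (by positivity)
    rw [abs_of_nonneg (by positivity)] at h4
    have h5 : (2 * m * N) * |inner ℝ (F a) (F b)| ≤ N * (‖F a‖ * ‖F b‖) :=
      (mul_le_mul_of_nonneg_right hl' (abs_nonneg _)).trans h4
    have h6 : N * (2 * m * |inner ℝ (F a) (F b)|) ≤ N * (‖F a‖ * ‖F b‖) := by
      calc N * (2 * m * |inner ℝ (F a) (F b)|) = (2 * m * N) * |inner ℝ (F a) (F b)| := by ring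
        _ ≤ _ := h5
    exact le_of_mul_le_mul_left h6 (by linarith)
  · intro a ha
    set sa := (cls J cl a).card with hsa
    have hsa1 : 1 ≤ sa := cls_pos ha
    have hsaN : sa ≤ N := hlab.size a ha
    obtain ⟨ta, hta⟩ : ∃ t, sa = t + 1 := ⟨sa - 1, by omega⟩
    have e2 : sa - 1 = ta := by omega
    have hle : ta * l + l ≤ N * l := by
      calc ta * l + l = sa * l := by rw [hta]; ring
        _ ≤ N * l := Nat.mul_le_mul_right l hsaN
    have hfr : finrank (ZMod 2) (cen a ⊓ A0 : Submodule (ZMod 2) W) ≤ s + ta * l := by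
      obtain ⟨j, hj⟩ : (cls J cl a).Nonempty := Finset.card_pos.mp hsa1
      have h1 := hNear a j hj
      rw [← hsa, e2] at h1
      unfold Near at h1
      have h2 := inf_finrank_ge (A := A0) (B := cen a) (C := A j)
      have h3 : finrank (ZMod 2) (A0 ⊓ cen a ⊓ A j : Submodule (ZMod 2) W)
          ≤ finrank (ZMod 2) (A0 ⊓ A j : Submodule (ZMod 2) W) :=
        Submodule.finrank_mono (le_inf (inf_le_left.trans inf_le_left) inf_le_right)
      have h4 := hc.inter j (hsub a hj)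
      rw [(hlab.lag a ha).finrank hW] at h2
      rw [inf_comm]
      omega
    obtain ⟨k, hk⟩ : ∃ k, k + (s + ta * l) = n := by
      refine ⟨n - (s + ta * l), ?_⟩
      have : 2 * N * l = N * l + N * l := by ring
      omega
    have h1 := D.cross hW (hlab.lag a ha) hc.lag0 (hdec a ha) (D.dec_of_eig hc.eig0)
      (k := k) (by omega)
    rw [← hsa, e2] at h1
    have hk2 : ta * l + 2 * l ≤ k := by
      have : 2 * N * l = N * l + N * l := by ring
      omega
    push_cast at h1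
    have h2 : (2 ^ l * |inner ℝ (F a) ψ|) ^ 2 ≤ (N * (‖F a‖ * ‖ψ‖)) ^ 2 := by
      have hp : (0 : ℝ) < 2 ^ (ta * l) := by positivity
      have h3 : 2 ^ (ta * l) * (2 ^ l * |inner ℝ (F a) ψ|) ^ 2
          ≤ 2 ^ (ta * l) * (N * (‖F a‖ * ‖ψ‖)) ^ 2 := by
        calc 2 ^ (ta * l) * (2 ^ l * |inner ℝ (F a) ψ|) ^ 2
            = 2 ^ (ta * l + 2 * l) * (inner ℝ (F a) ψ) ^ 2 := by
              rw [mul_pow, sq_abs, pow_add, mul_comm 2 l, pow_mul]; ring
          _ ≤ 2 ^ k * (inner ℝ (F a) ψ) ^ 2 := by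
              refine mul_le_mul_of_nonneg_right ?_ (sq_nonneg _)
              exact pow_le_pow_right₀ (by norm_num) hk2
          _ ≤ _ := h1
          _ = 2 ^ (ta * l) * (sa * (‖F a‖ * ‖ψ‖) ^ 2) := by ring
          _ ≤ 2 ^ (ta * l) * ((N * N) * (‖F a‖ * ‖ψ‖) ^ 2) := by
              refine mul_le_mul_of_nonneg_left ?_ hp.le
              refine mul_le_mul_of_nonneg_right ?_ (by positivity)
              have h7 : (sa : ℝ) ≤ N := Nat.cast_le.mpr hsaN
              nlinarith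
          _ = _ := by ring
      exact le_of_mul_le_mul_left h3 hp
    have h4 := abs_le_of_sq_le_sq h2 (by positivity)
    rw [abs_of_nonneg (by positivity)] at h4
    have h5 : (2 * m * N) * |inner ℝ (F a) ψ| ≤ N * (‖F a‖ * ‖ψ‖) :=
      (mul_le_mul_of_nonneg_right hl' (abs_nonneg _)).trans h4
    have h6 : N * (2 * m * |inner ℝ (F a) ψ|) ≤ N * (‖F a‖ * ‖ψ‖) := by
      calc N * (2 * m * |inner ℝ (F a) ψ|) = (2 * m * N) * |inner ℝ (F a) ψ| := by ring
        _ ≤ _ := h5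
    exact le_of_mul_le_mul_left h6 (by linarith)

/-- The main induction. -/
theorem main_induction {n l K m : ℕ} (hW : Sympl β n) {D : Weyl β E} (hK : 1 ≤ K)
    (hl : 4 * m * K ≤ 2 ^ l) : ∀ (T s : ℕ) (J : Finset ι)
    (ψ : E) (A0 : Submodule (ZMod 2) W) (u : ι → E) (A : ι → Submodule (ZMod 2) W),
    Conf D s J ψ A0 u A → J.card ≤ m → J.card ≤ K * T → 8 * K ^ 2 * l + s + 2 * T ≤ n → False := by
  intro T
  induction T with
  | zero =>
    intro s J ψ A0 u A hc _ hJ _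
    rw [mul_zero] at hJ
    obtain ⟨c, hcψ⟩ := hc.span
    apply hc.ne
    rw [hcψ, Finset.card_eq_zero.mp (Nat.le_zero.mp hJ), Finset.sum_empty]
  | succ T ih =>
    intro s J ψ A0 u A hc hm hJ hn
    by_cases hsp : Sparse β n l (2 * K - 1) J A
    · refine sparse_false (N := 2 * K - 1) hW (by omega) hc hm ?_ ?_ hsp
      · calc 2 * m * (2 * K - 1) ≤ 2 * m * (2 * K) := Nat.mul_le_mul_left _ (Nat.sub_le _ _)
          _ = 4 * m * K := by ring
          _ ≤ _ := hl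
      · have h1 : 2 * (2 * K - 1) * l ≤ 8 * K ^ 2 * l := by
          refine Nat.mul_le_mul_right l ?_
          have h2 : 2 * (2 * K - 1) ≤ 4 * K := by omega
          nlinarith
        omega
    · unfold Sparse at hsp
      push Not at hsp
      obtain ⟨C, hC, X, hXJ, hX, hXc⟩ := hsp
      obtain ⟨X', hX'X, hX'c⟩ := Finset.exists_subset_card_eq (show 2 * K ≤ X.card by omega)
      have hcond : 2 * K * (2 * (2 * K - 1) * l) + s < n := by
        have h1 : 2 * K * (2 * (2 * K - 1) * l) ≤ 8 * K ^ 2 * l := by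
          obtain ⟨k, rfl⟩ : ∃ k, K = k + 1 := ⟨K - 1, by omega⟩
          have : 2 * (k + 1) - 1 = 2 * k + 1 := by omega
          rw [this]
          nlinarith [Nat.zero_le (k * l)]
        omega
      obtain ⟨J', ψ', A0', u', A', hc', hJ'⟩ := kill hK hc (hC.finrank hW) (hX'X.trans hXJ) hX'c
        (fun j hj => hX j (hX'X hj)) hcond
      refine ih (s + 2) J' ψ' A0' u' A' hc' (by omega) ?_ (by omega)
      have : K * (T + 1) = K * T + K := by ring
      omega

end Pool.Agent.Lib.MP_a387ab_co.LB
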