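import Pool.Agent.Lib.MP_a387ab_co.Defs

namespace Pool.Agent.Lib.MP_a387ab_co

open Finset

/-! ### An explicit representation with 13 terms in 8 variables

Each entry is a positive integer weight together with a list of pairs `(i, j)` standing for the
monomial `y_i y_j`, where `y = x + (1, ..., 1)`. -/

/-- The thirteen weighted forms. -/
def table : List (ℕ × List (ℕ × ℕ)) :=
  [(1, []),
    (2, [(0, 0), (0, 1), (0, 3), (0, 5), (1, 1), (1, 2), (1, 4), (2, 6), (3, 6), (3, 7), (4, 6), (5, 6), (5, 7)]),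
    (3, [(0, 4), (0, 6), (1, 4), (1, 5), (1, 6), (1, 7), (2, 2), (2, 3), (2, 4), (2, 5), (3, 3), (3, 5), (4, 4), (4, 5), (4, 7), (5, 5), (5, 6), (6, 6), (6, 7), (7, 7)]),
    (1, [(0, 4), (0, 6), (1, 4), (1, 5), (1, 6), (1, 7), (2, 4), (2, 6), (2, 7), (3, 4), (3, 5), (3, 7), (4, 6), (5, 6), (5, 7)]),
    (1, [(0, 0), (0, 1), (0, 2), (0, 6), (0, 7), (1, 1), (1, 2), (1, 3), (1, 7), (2, 2), (2, 3), (2, 6), (3, 3), (3, 6), (3, 7), (4, 6), (4, 7), (5, 7)]),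
    (1, [(0, 2), (0, 6), (1, 2), (1, 3), (1, 6), (1, 7), (2, 2), (2, 3), (2, 5), (3, 3), (3, 4), (4, 4), (4, 5), (4, 6), (4, 7), (5, 5), (5, 7)]),
    (1, [(0, 2), (0, 6), (0, 7), (1, 2), (1, 3), (1, 7), (2, 2), (2, 3), (2, 4), (2, 5), (2, 6), (2, 7), (3, 3), (3, 5), (3, 7), (4, 6), (5, 6), (5, 7), (6, 6), (6, 7), (7, 7)]),
    (1, [(0, 0), (0, 1), (0, 5), (0, 6), (0, 7), (1, 1), (1, 4), (1, 7), (2, 4), (2, 5), (2, 6), (2, 7), (3, 5), (3, 7), (4, 4), (4, 5), (4, 6), (4, 7), (5, 5), (5, 7), (6, 6), (6, 7), (7, 7)]),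
    (1, [(0, 0), (0, 1), (0, 4), (0, 7), (1, 1), (1, 4), (1, 5), (1, 6), (2, 2), (2, 3), (2, 5), (3, 3), (3, 4), (4, 4), (4, 5), (4, 6), (5, 5), (5, 6), (5, 7)]),
    (1, [(0, 4), (0, 6), (1, 4), (1, 5), (1, 6), (1, 7), (2, 4), (3, 4), (3, 5), (4, 7), (5, 6), (6, 6), (6, 7), (7, 7)]),
    (1, [(0, 0), (0, 1), (0, 2), (0, 3), (0, 5), (0, 6), (1, 1), (1, 3), (1, 4), (1, 6), (1, 7), (2, 5), (2, 7), (3, 4), (3, 6), (4, 4), (4, 5), (4, 7), (5, 5), (5, 6)]),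
    (1, [(0, 0), (0, 1), (0, 4), (0, 5), (0, 6), (1, 1), (1, 5), (1, 6), (1, 7), (2, 5), (2, 6), (3, 4), (3, 6), (3, 7), (4, 6), (4, 7), (5, 7), (6, 6), (6, 7), (7, 7)]),
    (1, [(0, 0), (0, 1), (0, 3), (0, 4), (0, 5), (0, 6), (1, 1), (1, 2), (1, 5), (1, 6), (1, 7), (2, 2), (2, 3), (2, 4), (2, 5), (2, 6), (3, 3), (3, 5), (3, 6), (3, 7), (4, 4), (4, 5), (4, 6), (4, 7), (5, 5), (5, 7), (6, 6), (6, 7), (7, 7)])]

/-- Boolean evaluation of a list of monomials at the point encoded by the bits of `v`. -/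
def evB (L : List (ℕ × ℕ)) (v : ℕ) : Bool :=
  L.foldr (fun p acc => xor (v.testBit p.1 && v.testBit p.2) acc) false

/-- The weight of the forms that take the value one at `v`. -/
def oneWeight (v : ℕ) : ℕ :=
  (table.map fun p => if evB p.2 v then p.1 else 0).sum

lemma oneWeight_check : ∀ v < 256, oneWeight v = if v = 0 then 0 else 8 := by
  decide +kernel

lemma table_indices : ∀ p ∈ table, ∀ r ∈ p.2, r.1 < 8 ∧ r.2 < 8 := by
  decide +kernel

lemma table_weight : (table.map fun p => p.1).sum = 16 := by decide +kernel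

lemma table_length : table.length = 13 := by decide +kernel

end Pool.Agent.Lib.MP_a387ab_co
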