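import Pool.Agent.Lib.MP_a387ab_co.Table

namespace Pool.Agent.Lib.MP_a387ab_co

open Finset

/-! ### Coordinate free representations -/

/-- A version of `Represents` with arbitrary finite index types. -/
lemma represents_of_fintype {n : ℕ} {κ : Type*} [Fintype κ]
    (q : κ → (Fin n → ZMod 2) → ZMod 2) (c : κ → ℝ) (hq : ∀ i, QuadOn (q i))
    (h : ∀ x, andFn x = ∑ i, c i * phase (q i x)) : Represents n (Fintype.card κ) := by
  classical
  let e := Fintype.equivFin κ
  refine ⟨fun i => q (e.symm i), fun i => c (e.symm i), fun i => ?_, fun x => ?_⟩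
  · exact (isQuad_iff_quadOn _).mpr (hq _)
  · rw [h x]
    exact (Equiv.sum_comp e.symm (fun i => c i * phase (q i x))).symm

/-- Restriction to fewer variables. -/
lemma Represents.restrict {n n' m : ℕ} (h : Represents n m) (hn : n' ≤ n) :
    Represents n' m := by
  obtain ⟨q, c, hq, hrep⟩ := h
  let f : (Fin n' → ZMod 2) →ₗ[ZMod 2] (Fin n → ZMod 2) :=
    { toFun := fun x i => if h : (i : ℕ) < n' then x ⟨i, h⟩ else 0
      map_add' := by
        intro x y; ext i; by_cases h : (i : ℕ) < n' <;> simp [h]
      map_smul' := by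
        intro a x; ext i; by_cases h : (i : ℕ) < n' <;> simp [h] }
  let t : Fin n → ZMod 2 := fun i => if (i : ℕ) < n' then 0 else 1
  have hone : ∀ x, (f x + t = fun _ => 1) ↔ x = fun _ => 1 := by
    intro x
    constructor
    · intro hx
      ext j
      have := congrFun hx ⟨j, lt_of_lt_of_le j.2 hn⟩
      simpa [f, t] using this
    · intro hx
      ext i
      by_cases h : (i : ℕ) < n' <;> simp [f, t, h, hx]
  refine ⟨fun i x => q i (f x + t), c, fun i => ?_, fun x => ?_⟩
  · exact (isQuad_iff_quadOn _).mpr (((isQuad_iff_quadOn _).mp (hq i)).comp_affine f t)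
  · rw [← hrep (f x + t)]
    unfold andFn
    simp only [hone]

/-- Products of representations. -/
lemma Represents.mul {a b m k : ℕ} (h : Represents a m) (h' : Represents b k) :
    Represents (a + b) (m * k) := by
  obtain ⟨q, c, hq, hrep⟩ := h
  obtain ⟨q', c', hq', hrep'⟩ := h'
  have key := represents_of_fintype (n := a + b) (κ := Fin m × Fin k)
    (fun p x => q p.1 (fun i => x (Fin.castAdd b i)) + q' p.2 (fun i => x (Fin.natAdd a i)))
    (fun p => c p.1 * c' p.2) (fun p => ?_) (fun x => ?_)
  · simpa using key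
  · refine QuadOn.add ?_ ?_
    · have := ((isQuad_iff_quadOn _).mp (hq p.1)).comp_affine
        (LinearMap.funLeft (ZMod 2) (ZMod 2) (Fin.castAdd b : Fin a → Fin (a + b))) 0
      simpa [LinearMap.funLeft, Function.comp_def] using this
    · have := ((isQuad_iff_quadOn _).mp (hq' p.2)).comp_affine
        (LinearMap.funLeft (ZMod 2) (ZMod 2) (Fin.natAdd a : Fin b → Fin (a + b))) 0
      simpa [LinearMap.funLeft, Function.comp_def] using this
  · have h1 := hrep (fun i => x (Fin.castAdd b i))
    have h2 := hrep' (fun i => x (Fin.natAdd a i))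
    have h3 : andFn x = andFn (fun i => x (Fin.castAdd b i))
        * andFn (fun i => x (Fin.natAdd a i)) := by
      unfold andFn
      have : (x = fun _ => 1) ↔ ((fun i => x (Fin.castAdd b i)) = fun _ => 1) ∧
          ((fun i => x (Fin.natAdd a i)) = fun _ => 1) := by
        constructor
        · intro hx; simp [hx]
        · rintro ⟨hx, hy⟩
          ext i
          refine Fin.addCases (fun j => ?_) (fun j => ?_) i
          · exact congrFun hx j
          · exact congrFun hy j
      by_cases ha : (fun i => x (Fin.castAdd b i)) = fun _ => 1 <;>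
      by_cases hb : (fun i => x (Fin.natAdd a i)) = fun _ => 1 <;> simp [this, ha, hb]
    rw [h3, h1, h2, Finset.sum_mul_sum, Fintype.sum_prod_type]
    refine Finset.sum_congr rfl fun i _ => Finset.sum_congr rfl fun j _ => ?_
    rw [phase_add]; ring

lemma represents_zero : Represents 0 1 := by
  refine ⟨fun _ _ => 0, fun _ => 1, fun _ => ?_, fun x => ?_⟩
  · exact (isQuad_iff_quadOn _).mpr (QuadOn.const 0)
  · have : x = fun _ => 1 := Subsingleton.elim _ _
    simp [andFn, this, phase_zero]

lemma Represents.pow {a m : ℕ} (h : Represents a m) (k : ℕ) : Represents (a * k) (m ^ k) := by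
  induction k with
  | zero => simpa using represents_zero
  | succ k ih =>
    rw [Nat.mul_succ, pow_succ]
    exact ih.mul h

/-! ### The base case -/

/-- The coordinate with index `i`, read as zero when `i` is out of range. -/
def co (i : ℕ) : (Fin 8 → ZMod 2) →ₗ[ZMod 2] ZMod 2 :=
  if h : i < 8 then LinearMap.proj ⟨i, h⟩ else 0

/-- Evaluation of a list of monomials at a point of `F_2^8`. -/
def evZ (L : List (ℕ × ℕ)) (y : Fin 8 → ZMod 2) : ZMod 2 :=
  (L.map fun p => co p.1 y * co p.2 y).sum

lemma evZ_nil (y : Fin 8 → ZMod 2) : evZ [] y = 0 := by simp [evZ]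

lemma evZ_cons (p : ℕ × ℕ) (L : List (ℕ × ℕ)) (y : Fin 8 → ZMod 2) :
    evZ (p :: L) y = co p.1 y * co p.2 y + evZ L y := by simp [evZ]

lemma quadOn_evZ (L : List (ℕ × ℕ)) : QuadOn (evZ L) := by
  induction L with
  | nil =>
    have h : evZ [] = fun _ => 0 := funext evZ_nil
    rw [h]
    exact QuadOn.const 0
  | cons p L ih =>
    have h1 : QuadOn (fun y : Fin 8 → ZMod 2 => co p.1 y * co p.2 y) :=
      ⟨(LinearMap.mul (ZMod 2) (ZMod 2)).compl₁₂ (co p.1) (co p.2), 0, 0, fun x => by simp⟩
    have h2 := h1.add ih
    have h : evZ (p :: L) = fun y => co p.1 y * co p.2 y + evZ L y := funext (evZ_cons p L)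
    rw [h]
    exact h2

/-- The code of a point: bit `i` is set when coordinate `i` vanishes. -/
def code (x : Fin 8 → ZMod 2) : ℕ := Nat.ofBits (fun i => decide (x i = 0))

lemma code_lt (x : Fin 8 → ZMod 2) : code x < 256 := Nat.ofBits_lt_two_pow _

lemma code_eq_zero (x : Fin 8 → ZMod 2) : code x = 0 ↔ x = fun _ => 1 := by
  have key : ∀ z : ZMod 2, z = 0 ∨ z = 1 := by decide
  constructor
  · intro h
    ext i
    have h1 : (code x).testBit i = decide (x i = 0) := by
      unfold code
      rw [Nat.testBit_ofBits_lt _ _ i.2]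
    rw [h] at h1
    simp only [Nat.zero_testBit] at h1
    rcases key (x i) with h2 | h2
    · rw [h2] at h1; simp at h1
    · rw [h2]
  · intro h
    apply Nat.eq_of_testBit_eq
    intro i
    unfold code
    rw [Nat.testBit_ofBits]
    by_cases hi : i < 8 <;> simp [hi, h]

lemma evB_code (L : List (ℕ × ℕ)) (hL : ∀ r ∈ L, r.1 < 8 ∧ r.2 < 8) (x : Fin 8 → ZMod 2) :
    evZ L (fun i => x i + 1) = if evB L (code x) then 1 else 0 := by
  induction L with
  | nil => simp [evZ, evB]
  | cons p L ih =>
    have hp := hL p (by simp)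
    have ih' := ih (fun r hr => hL r (by simp [hr]))
    have hc : ∀ (i : ℕ) (hi : i < 8), co i (fun i => x i + 1)
        = if (code x).testBit i then 1 else 0 := by
      intro i hi
      unfold code co
      rw [Nat.testBit_ofBits_lt _ _ hi, dif_pos hi]
      have key : ∀ z : ZMod 2, z + 1 = if decide (z = 0) = true then 1 else 0 := by decide
      exact key _
    rw [evZ_cons, ih', hc p.1 hp.1, hc p.2 hp.2]
    have hstep2 : evB (p :: L) (code x)
        = xor ((code x).testBit p.1 && (code x).testBit p.2) (evB L (code x)) := by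
      simp [evB]
    rw [hstep2]
    cases (code x).testBit p.1 <;> cases (code x).testBit p.2 <;> cases evB L (code x) <;>
      decide

lemma phase_ite (b : Bool) : phase (if b then 1 else 0) = 1 - 2 * (if b then (1 : ℝ) else 0) := by
  cases b
  · simp [phase_zero]
  · simp [phase_one]; norm_num

lemma table_sum (T : List (ℕ × List (ℕ × ℕ))) (hT : ∀ p ∈ T, ∀ r ∈ p.2, r.1 < 8 ∧ r.2 < 8)
    (x : Fin 8 → ZMod 2) :
    (T.map fun p => (p.1 : ℝ) * phase (evZ p.2 (fun j => x j + 1))).sum
      = ((T.map fun p => p.1).sum : ℕ)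
        - 2 * (((T.map fun p => if evB p.2 (code x) then p.1 else 0).sum : ℕ) : ℝ) := by
  induction T with
  | nil => simp
  | cons p T ih =>
    have h1 := ih (fun q hq => hT q (by simp [hq]))
    simp only [List.map_cons, List.sum_cons]
    rw [h1, evB_code p.2 (hT p (by simp)) x, phase_ite]
    push_cast
    by_cases hb : evB p.2 (code x) = true
    · simp [hb]; ring
    · simp [hb]; ring

lemma represents_eight : Represents 8 13 := by
  have hlen : table.length = 13 := table_length
  refine ⟨fun i x => evZ (table.get (i.cast hlen.symm)).2 (fun j => x j + 1),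
    fun i => ((table.get (i.cast hlen.symm)).1 : ℝ) / 16, fun i => ?_, fun x => ?_⟩
  · refine (isQuad_iff_quadOn _).mpr ?_
    exact (quadOn_evZ (table.get (i.cast hlen.symm)).2).comp_affine LinearMap.id
      (fun _ => (1 : ZMod 2))
  · have h1 := table_sum table table_indices x
    have h2 : (table.map fun p => (p.1 : ℝ) * phase (evZ p.2 (fun j => x j + 1))).sum
        = ∑ i : Fin 13, ((table.get (i.cast hlen.symm)).1 : ℝ)
          * phase (evZ (table.get (i.cast hlen.symm)).2 (fun j => x j + 1)) := by
      rw [← Fin.sum_univ_getElem]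
      refine Fintype.sum_equiv (finCongr (by simp [hlen])) _ _ (fun i => ?_)
      simp
    have h3 : (table.map fun p => if evB p.2 (code x) then p.1 else 0).sum
        = oneWeight (code x) := rfl
    rw [h3, table_weight, oneWeight_check (code x) (code_lt x)] at h1
    have h4 : ∑ i : Fin 13, ((table.get (i.cast hlen.symm)).1 : ℝ) / 16
          * phase (evZ (table.get (i.cast hlen.symm)).2 (fun j => x j + 1))
        = (∑ i : Fin 13, ((table.get (i.cast hlen.symm)).1 : ℝ)
          * phase (evZ (table.get (i.cast hlen.symm)).2 (fun j => x j + 1))) / 16 := by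
      rw [Finset.sum_div]
      exact Finset.sum_congr rfl fun i _ => by ring
    rw [h4, ← h2, h1]
    unfold andFn
    by_cases hx : x = fun _ => 1
    · have : code x = 0 := (code_eq_zero x).mpr hx
      simp [hx, (code_eq_zero (fun _ => (1 : ZMod 2))).mpr rfl]
    · have : code x ≠ 0 := fun h => hx ((code_eq_zero x).mp h)
      simp [hx, this]
      norm_num

/-- Upper bound: `AND_n` is a combination of `13 ^ ⌈n / 8⌉` quadratic phases. -/
lemma represents_upper (n : ℕ) : Represents n (13 ^ ((n + 7) / 8)) :=
  (represents_eight.pow ((n + 7) / 8)).restrict (by omega)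

end Pool.Agent.Lib.MP_a387ab_co
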