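import Pool.Agent.Lib.MP_a387ab_co.Lag
import Pool.Agent.Lib.MP_a387ab_co.Defs

/-!
# Weyl operators on a real inner product space and their joint eigenvectors
-/

namespace Pool.Agent.Lib.MP_a387ab_co.LB

open Module

variable {W : Type*} [AddCommGroup W] [Module (ZMod 2) W]
variable {β : LinearMap.BilinForm (ZMod 2) W}
variable {E : Type*} [NormedAddCommGroup E] [InnerProductSpace ℝ E]

/-- A real projective representation of `W` by isometries, with cocycle `(-1)^β`. -/
structure Weyl (β : LinearMap.BilinForm (ZMod 2) W) (E : Type*) [NormedAddCommGroup E]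
    [InnerProductSpace ℝ E] where
  P : W → E →ₗ[ℝ] E
  mul : ∀ w z f, P w (P z f) = phase (β w z) • P (w + z) f
  one : ∀ f, P 0 f = f
  iso : ∀ w f g, inner ℝ (P w f) (P w g) = inner ℝ f g

/-- `u` is a joint eigenvector of the operators of `A`. -/
def Eig (D : Weyl β E) (A : Submodule (ZMod 2) W) (u : E) : Prop :=
  ∀ w ∈ A, D.P w u = u ∨ D.P w u = -u

lemma phase_eq (z : ZMod 2) : phase z = 1 ∨ phase z = -1 := by
  have key : ∀ z : ZMod 2, z = 0 ∨ z = 1 := by decide
  rcases key z with rfl | rfl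
  · exact Or.inl phase_zero
  · exact Or.inr phase_one

variable (D : Weyl β E)

lemma Weyl.sq {w : W} (hw : β w w = 0) (f : E) : D.P w (D.P w f) = f := by
  rw [D.mul, hw, phase_zero, one_smul, wadd, D.one]

lemma Weyl.norm (w : W) (f : E) : ‖D.P w f‖ = ‖f‖ := by
  have h := D.iso w f f
  rw [real_inner_self_eq_norm_sq, real_inner_self_eq_norm_sq] at h
  exact (sq_eq_sq₀ (norm_nonneg _) (norm_nonneg _)).mp h

lemma Weyl.comm {w z : W} (h : β z w + β w z = 0) (f : E) :
    D.P w (D.P z f) = D.P z (D.P w f) := by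
  rw [D.mul, D.mul, add_comm w z]
  have : β w z = β z w := by
    revert h
    generalize β w z = a
    generalize β z w = b
    revert a b; decide
  rw [this]

lemma Weyl.anti {w z : W} (h : β z w + β w z = 1) (f : E) :
    D.P w (D.P z f) = - D.P z (D.P w f) := by
  rw [D.mul, D.mul, add_comm w z]
  have : β w z = β z w + 1 := by
    revert h
    generalize β w z = a
    generalize β z w = b
    revert a b; decide
  rw [this, phase_add, phase_one, mul_neg_one, neg_smul]

lemma Weyl.ortho {A : Submodule (ZMod 2) W} (hA : Lag β A) {u : E} (hu : Eig D A u) {w : W}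
    (hw : w ∉ A) : inner ℝ (D.P w u) u = 0 := by
  have h : ∃ z ∈ A, β z w + β w z ≠ 0 := by
    by_contra hcon
    push Not at hcon
    exact hw (hA.max w hcon)
  obtain ⟨z, hz, hzw⟩ := h
  have h1 := z2_ne hzw
  rw [add_comm] at h1
  have h2 := D.iso z (D.P w u) u
  rw [D.anti h1] at h2
  rcases hu z hz with h3 | h3
  · rw [h3, inner_neg_left] at h2
    linarith
  · rw [h3, map_neg, neg_neg, inner_neg_right] at h2
    linarith

lemma Weyl.ortho2 {A : Submodule (ZMod 2) W} (hA : Lag β A) {u : E} (hu : Eig D A u) {w z : W}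
    (hw : w + z ∉ A) : inner ℝ (D.P w u) (D.P z u) = 0 := by
  rw [← D.iso z, D.mul, D.mul, wadd, D.one, inner_smul_left, inner_smul_right, add_comm z w,
    D.ortho hA hu hw]
  simp

section fin

variable [Finite W]

/-- The basic inner product bound. -/
lemma Weyl.inner_bound {A B C : Submodule (ZMod 2) W} (hA : Lag β A) {u v : E} (hu : Eig D A u)
    (hv : Eig D B v) (hCB : C ≤ B) (hCA : C ⊓ A = ⊥) :
    2 ^ (finrank (ZMod 2) C) * (inner ℝ u v) ^ 2 ≤ ‖u‖ ^ 2 * ‖v‖ ^ 2 := by
  classical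
  rcases eq_or_ne u 0 with rfl | hu0
  · simp
  have hun : ‖u‖ ≠ 0 := norm_ne_zero_iff.mpr hu0
  have : Fintype C := Fintype.ofFinite C
  set e : C → E := fun w => ‖u‖⁻¹ • D.P w u with he
  have hort : Orthonormal ℝ e := by
    constructor
    · intro w
      rw [he]
      simp only
      rw [norm_smul, norm_inv, norm_norm, D.norm, inv_mul_cancel₀ hun]
    · intro w z hwz
      rw [he]
      simp only
      rw [inner_smul_left, inner_smul_right, D.ortho2 hA hu, mul_zero, mul_zero]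
      intro hcon
      have h1 : ((w : W) + z) ∈ C ⊓ A := ⟨C.add_mem w.2 z.2, hcon⟩
      rw [hCA, Submodule.mem_bot] at h1
      apply hwz
      apply Subtype.ext
      have h2 : (w : W) = ((w : W) + z) + z := by rw [add_assoc, wadd, add_zero]
      rw [h2, h1, zero_add]
  have hb := hort.sum_inner_products_le (x := v) (s := Finset.univ)
  have hterm : ∀ w : C, ‖inner ℝ (e w) v‖ ^ 2 = (‖u‖⁻¹) ^ 2 * (inner ℝ u v) ^ 2 := by
    intro w
    rw [he]
    simp only
    rw [inner_smul_left, Real.norm_eq_abs, sq_abs, mul_pow]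
    congr 1
    have h1 : inner ℝ (D.P w u) v = inner ℝ u v ∨ inner ℝ (D.P w u) v = - inner ℝ u v := by
      rcases hv w (hCB w.2) with h | h
      · left
        rw [← D.iso w u v, h]
      · right
        rw [← D.iso w u v, h, inner_neg_right, neg_neg]
    rcases h1 with h | h
    · rw [h]
    · rw [h, neg_sq]
  rw [Finset.sum_congr rfl fun w _ => hterm w, Finset.sum_const, Finset.card_univ,
    nsmul_eq_mul] at hb
  have hcard : (Fintype.card C : ℝ) = 2 ^ (finrank (ZMod 2) C) := by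
    rw [Module.card_eq_pow_finrank (K := ZMod 2) (V := C), ZMod.card]
    push_cast
    ring
  rw [hcard] at hb
  have hpos : 0 < ‖u‖ ^ 2 := by positivity
  calc 2 ^ (finrank (ZMod 2) C) * (inner ℝ u v) ^ 2
      = ‖u‖ ^ 2 * (2 ^ (finrank (ZMod 2) C) * ((‖u‖⁻¹) ^ 2 * (inner ℝ u v) ^ 2)) := by
        field_simp
    _ ≤ ‖u‖ ^ 2 * ‖v‖ ^ 2 := mul_le_mul_of_nonneg_left hb hpos.le

/-- Complement of `A ⊓ B` inside `B`. -/
lemma exists_compl (A B : Submodule (ZMod 2) W) : ∃ C : Submodule (ZMod 2) W, C ≤ B ∧ C ⊓ A = ⊥ ∧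
    (A ⊓ B) ⊔ C = B ∧ finrank (ZMod 2) C + finrank (ZMod 2) (A ⊓ B : Submodule (ZMod 2) W)
      = finrank (ZMod 2) B := by
  obtain ⟨C', hC'⟩ := exists_isCompl (A ⊓ B)
  have h1 : C' ⊓ B ⊓ (A ⊓ B) = ⊥ := by
    rw [eq_bot_iff, ← hC'.inf_eq_bot]
    exact le_inf inf_le_right (inf_le_left.trans inf_le_left)
  have h2 : (A ⊓ B) ⊔ (C' ⊓ B) = B := by
    rw [← sup_inf_assoc_of_le C' (inf_le_right : A ⊓ B ≤ B), hC'.sup_eq_top, top_inf_eq]
  refine ⟨C' ⊓ B, inf_le_right, ?_, h2, ?_⟩
  · rw [eq_bot_iff, ← h1]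
    exact le_inf inf_le_left (le_inf inf_le_right (inf_le_left.trans inf_le_right))
  · have h3 := Submodule.finrank_sup_add_finrank_inf_eq (A ⊓ B) (C' ⊓ B)
    rw [h2, inf_comm (A ⊓ B), h1, finrank_bot] at h3
    omega

lemma Weyl.inner_le {n k : ℕ} (hW : Sympl β n) {A B : Submodule (ZMod 2) W} (hA : Lag β A)
    (hB : Lag β B) {u v : E} (hu : Eig D A u) (hv : Eig D B v)
    (hk : finrank (ZMod 2) (A ⊓ B : Submodule (ZMod 2) W) + k ≤ n) :
    2 ^ k * (inner ℝ u v) ^ 2 ≤ ‖u‖ ^ 2 * ‖v‖ ^ 2 := by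
  obtain ⟨C, h1, h2, -, h4⟩ := exists_compl A B
  refine le_trans ?_ (D.inner_bound hA hu hv h1 h2)
  refine mul_le_mul_of_nonneg_right ?_ (sq_nonneg _)
  refine pow_le_pow_right₀ (by norm_num) ?_
  rw [hB.finrank hW] at h4
  omega

/-- Invariance of a subspace. -/
def Inv (D : Weyl β E) (A : Submodule (ZMod 2) W) (U : Submodule ℝ E) : Prop :=
  ∀ w ∈ A, ∀ f ∈ U, D.P w f ∈ U

lemma Weyl.exists_eig {A : Submodule (ZMod 2) W} (hA : Lag β A) {U : Submodule ℝ E}
    (hU : Inv D A U) (hne : U ≠ ⊥) : ∃ f ∈ U, f ≠ 0 ∧ Eig D A f := by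
  classical
  have key : ∀ S : Finset W, (∀ w ∈ S, w ∈ A) →
      ∃ f ∈ U, f ≠ 0 ∧ ∀ w ∈ S, D.P w f = f ∨ D.P w f = -f := by
    intro S
    induction S using Finset.induction_on with
    | empty =>
      intro _
      obtain ⟨f, hf, hf0⟩ := Submodule.exists_mem_ne_zero_of_ne_bot hne
      exact ⟨f, hf, hf0, by simp⟩
    | insert w S hw ih =>
      intro hS
      obtain ⟨f, hf, hf0, hfS⟩ := ih fun z hz => hS z (Finset.mem_insert_of_mem hz)
      have hwA := hS w (Finset.mem_insert_self _ _)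
      by_cases hneg : D.P w f = -f
      · refine ⟨f, hf, hf0, fun z hz => ?_⟩
        rcases Finset.mem_insert.mp hz with rfl | hz
        · exact Or.inr hneg
        · exact hfS z hz
      · refine ⟨f + D.P w f, U.add_mem hf (hU w hwA f hf), ?_, fun z hz => ?_⟩
        · intro h0
          apply hneg
          exact (eq_neg_of_add_eq_zero_right h0)
        · rcases Finset.mem_insert.mp hz with rfl | hz
          · left
            rw [map_add, D.sq (hA.sing z hwA), add_comm]
          · have hzA := hS z (Finset.mem_insert_of_mem hz)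
            rw [map_add, D.comm (hA.iso hzA hwA)]
            rcases hfS z hz with h | h
            · left; rw [h]
            · right; rw [h, map_neg, neg_add]
  have : Fintype W := Fintype.ofFinite W
  obtain ⟨f, hf, hf0, hfS⟩ := key (Finset.univ.filter fun w => w ∈ A) (by simp)
  exact ⟨f, hf, hf0, fun w hw => hfS w (by simpa using hw)⟩

/-- Orthogonal decomposition into joint eigenvectors. -/
def Dec (D : Weyl β E) (A : Submodule (ZMod 2) W) (d : ℕ) (f : E) : Prop :=
  ∃ g : Fin d → E, (∀ k, Eig D A (g k)) ∧ f = ∑ k, g k ∧ ∑ k, ‖g k‖ ^ 2 ≤ ‖f‖ ^ 2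

lemma Weyl.dec_of_eig {A : Submodule (ZMod 2) W} {u : E} (hu : Eig D A u) : Dec D A 1 u :=
  ⟨fun _ => u, fun _ => hu, by simp, by simp⟩

lemma eig_zero (A : Submodule (ZMod 2) W) : Eig D A (0 : E) := by
  intro w _
  left
  rw [map_zero]

lemma Eig.smul {A : Submodule (ZMod 2) W} {u : E} (hu : Eig D A u) (c : ℝ) : Eig D A (c • u) := by
  intro w hw
  rcases hu w hw with h | h
  · left; rw [map_smul, h]
  · right; rw [map_smul, h, smul_neg]

lemma Weyl.decomp [FiniteDimensional ℝ E] {A : Submodule (ZMod 2) W} (hA : Lag β A) :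
    ∀ (d : ℕ) (U : Submodule ℝ E), finrank ℝ U ≤ d → Inv D A U → ∀ f ∈ U, Dec D A d f := by
  intro d
  induction d with
  | zero =>
    intro U hd _ f hf
    have h0 : U = ⊥ := Submodule.finrank_eq_zero.mp (Nat.le_zero.mp hd)
    rw [h0, Submodule.mem_bot] at hf
    exact ⟨Fin.elim0, fun k => k.elim0, by simp [hf], by simp⟩
  | succ d ih =>
    intro U hd hU f hf
    rcases eq_or_ne U ⊥ with h0 | hne
    · rw [h0, Submodule.mem_bot] at hf
      exact ⟨fun _ => 0, fun _ => eig_zero D A, by simp [hf], by simp⟩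
    · obtain ⟨e, heU, he0, heE⟩ := D.exists_eig hA hU hne
      have hen : ‖e‖ ≠ 0 := norm_ne_zero_iff.mpr he0
      have hlt : U ⊓ (ℝ ∙ e)ᗮ < U := by
        refine lt_of_le_of_ne inf_le_left fun h => ?_
        rw [← h] at heU
        have h1 := Submodule.mem_orthogonal_singleton_iff_inner_right.mp heU.2
        rw [real_inner_self_eq_norm_sq] at h1
        exact hen (pow_eq_zero_iff (two_ne_zero) |>.mp h1)
      have hfin := Submodule.finrank_lt_finrank_of_lt hlt
      have hinv : Inv D A (U ⊓ (ℝ ∙ e)ᗮ) := by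
        rintro w hw h ⟨hhU, hhe⟩
        refine ⟨hU w hw h hhU, ?_⟩
        rw [SetLike.mem_coe, Submodule.mem_orthogonal_singleton_iff_inner_right] at hhe ⊢
        rw [← D.iso w, D.sq (hA.sing w hw)]
        rcases heE w hw with h1 | h1
        · rw [h1, hhe]
        · rw [h1, inner_neg_left, hhe, neg_zero]
      set c : ℝ := inner ℝ e f / ‖e‖ ^ 2 with hc
      have hf' : f - c • e ∈ U ⊓ (ℝ ∙ e)ᗮ := by
        refine ⟨U.sub_mem hf (U.smul_mem c heU), ?_⟩
        rw [SetLike.mem_coe, Submodule.mem_orthogonal_singleton_iff_inner_right, inner_sub_right, inner_smul_right,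
          real_inner_self_eq_norm_sq, hc]
        field_simp
        ring
      obtain ⟨g, hg1, hg2, hg3⟩ := ih (U ⊓ (ℝ ∙ e)ᗮ) (by omega) hinv _ hf'
      refine ⟨Fin.cons (c • e) g, ?_, ?_, ?_⟩
      · intro k
        refine Fin.cases ?_ (fun k => ?_) k
        · exact heE.smul D c
        · exact hg1 k
      · rw [Fin.sum_univ_succ]
        simp only [Fin.cons_zero, Fin.cons_succ]
        rw [← hg2]
        abel
      · rw [Fin.sum_univ_succ]
        simp only [Fin.cons_zero, Fin.cons_succ]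
        have h1 : f = c • e + (f - c • e) := by abel
        have h2 : inner ℝ (c • e) (f - c • e) = 0 := by
          rw [inner_smul_left, (Submodule.mem_orthogonal_singleton_iff_inner_right.mp hf'.2),
            mul_zero]
        have h3 : ‖f‖ ^ 2 = ‖c • e‖ ^ 2 + ‖f - c • e‖ ^ 2 := by
          conv_lhs => rw [h1]
          rw [norm_add_sq_real, h2]
          ring
        rw [h3]
        linarith

/-- Inner product bound for decomposed vectors. -/
lemma Weyl.cross {n k d d' : ℕ} (hW : Sympl β n) {A B : Submodule (ZMod 2) W} (hA : Lag β A)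
    (hB : Lag β B) {f h : E} (hf : Dec D A d f) (hh : Dec D B d' h)
    (hk : finrank (ZMod 2) (A ⊓ B : Submodule (ZMod 2) W) + k ≤ n) :
    2 ^ k * (inner ℝ f h) ^ 2 ≤ (d * d' : ℝ) * (‖f‖ ^ 2 * ‖h‖ ^ 2) := by
  obtain ⟨g, hg1, hg2, hg3⟩ := hf
  obtain ⟨g', hg1', hg2', hg3'⟩ := hh
  set s : ℝ := Real.sqrt (2 ^ k) with hs
  have hs0 : 0 ≤ s := Real.sqrt_nonneg _
  have hs2 : s ^ 2 = 2 ^ k := Real.sq_sqrt (by positivity)
  have hpair : ∀ i j, s * |inner ℝ (g i) (g' j)| ≤ ‖g i‖ * ‖g' j‖ := by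
    intro i j
    have h1 := D.inner_le hW hA hB (hg1 i) (hg1' j) hk
    rw [← hs2, ← mul_pow, ← mul_pow] at h1
    have h2 := abs_le_of_sq_le_sq h1 (by positivity)
    rw [abs_mul, abs_of_nonneg hs0] at h2
    exact h2
  have h1 : s * |inner ℝ f h| ≤ (∑ i, ‖g i‖) * (∑ j, ‖g' j‖) := by
    calc s * |inner ℝ f h| = s * |∑ i, ∑ j, inner ℝ (g i) (g' j)| := by
          rw [hg2, hg2', sum_inner]
          simp_rw [inner_sum]
      _ ≤ s * ∑ i, ∑ j, |inner ℝ (g i) (g' j)| := by
          refine mul_le_mul_of_nonneg_left ?_ hs0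
          refine (Finset.abs_sum_le_sum_abs _ _).trans (Finset.sum_le_sum fun i _ => ?_)
          exact Finset.abs_sum_le_sum_abs _ _
      _ = ∑ i, ∑ j, s * |inner ℝ (g i) (g' j)| := by
          simp_rw [Finset.mul_sum]
      _ ≤ ∑ i, ∑ j, ‖g i‖ * ‖g' j‖ :=
          Finset.sum_le_sum fun i _ => Finset.sum_le_sum fun j _ => hpair i j
      _ = (∑ i, ‖g i‖) * (∑ j, ‖g' j‖) := by
          rw [Finset.sum_mul_sum]
  have hcs : (∑ i, ‖g i‖) ^ 2 ≤ d * ‖f‖ ^ 2 := by
    have := sq_sum_le_card_mul_sum_sq (s := (Finset.univ : Finset (Fin d))) (f := fun i => ‖g i‖)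
    rw [Finset.card_univ, Fintype.card_fin] at this
    exact this.trans (mul_le_mul_of_nonneg_left hg3 (by positivity))
  have hcs' : (∑ j, ‖g' j‖) ^ 2 ≤ d' * ‖h‖ ^ 2 := by
    have := sq_sum_le_card_mul_sum_sq (s := (Finset.univ : Finset (Fin d'))) (f := fun i => ‖g' i‖)
    rw [Finset.card_univ, Fintype.card_fin] at this
    exact this.trans (mul_le_mul_of_nonneg_left hg3' (by positivity))
  calc 2 ^ k * (inner ℝ f h) ^ 2 = (s * |inner ℝ f h|) ^ 2 := by rw [mul_pow, hs2, sq_abs]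
    _ ≤ ((∑ i, ‖g i‖) * (∑ j, ‖g' j‖)) ^ 2 := by
        refine pow_le_pow_left₀ (by positivity) h1 2
    _ = (∑ i, ‖g i‖) ^ 2 * (∑ j, ‖g' j‖) ^ 2 := mul_pow _ _ _
    _ ≤ (d * ‖f‖ ^ 2) * (d' * ‖h‖ ^ 2) := mul_le_mul hcs hcs' (by positivity) (by positivity)
    _ = _ := by ring

/-- The space spanned by the translates of `u` by `C`. -/
lemma Weyl.orbit [FiniteDimensional ℝ E] {n k : ℕ} {A C : Submodule (ZMod 2) W}
    (hC : finrank (ZMod 2) C = n) {u : E} (hu : Eig D A u) (hk : Near n k C A) :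
    ∃ U : Submodule ℝ E, u ∈ U ∧ Inv D C U ∧ finrank ℝ U ≤ 2 ^ k := by
  classical
  obtain ⟨C', h1, h2, h3, h4⟩ := exists_compl A C
  have : Fintype C' := Fintype.ofFinite C'
  set U : Submodule ℝ E := Submodule.span ℝ (Set.range fun w : C' => D.P w u) with hUdef
  have hmem : ∀ w ∈ C, D.P w u ∈ U := by
    intro w hw
    rw [← h3] at hw
    obtain ⟨l, hl, c, hc, rfl⟩ := Submodule.mem_sup.mp hw
    have h5 : D.P (l + c) u = phase (β c l) • D.P c (D.P l u) := by
      rw [D.mul, smul_smul, phase_sq, one_smul, add_comm]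
    have h6 : D.P c u ∈ U := Submodule.subset_span ⟨⟨c, hc⟩, rfl⟩
    rw [h5]
    refine U.smul_mem _ ?_
    rcases hu l hl.1 with h | h
    · rw [h]; exact h6
    · rw [h, map_neg]; exact U.neg_mem h6
  refine ⟨U, ?_, ?_, ?_⟩
  · have := hmem 0 C.zero_mem
    rwa [D.one] at this
  · intro w hw f hf
    rw [hUdef] at hf
    induction hf using Submodule.span_induction with
    | mem x hx =>
      obtain ⟨c, rfl⟩ := hx
      simp only
      rw [D.mul]
      exact U.smul_mem _ (hmem _ (C.add_mem hw (h1 c.2)))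
    | zero => rw [map_zero]; exact U.zero_mem
    | add x y _ _ hx hy => rw [map_add]; exact U.add_mem hx hy
    | smul a x _ hx => rw [map_smul]; exact U.smul_mem a hx
  · have h5 : finrank ℝ U ≤ Fintype.card C' := finrank_range_le_card _
    have h6 : Fintype.card C' = 2 ^ finrank (ZMod 2) C' := by
      rw [Module.card_eq_pow_finrank (K := ZMod 2) (V := C'), ZMod.card]
    rw [h6] at h5
    refine h5.trans (Nat.pow_le_pow_right (by norm_num) ?_)
    unfold Near at hk
    rw [inf_comm] at hk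
    omega

lemma Weyl.cluster [FiniteDimensional ℝ E] {ι : Type*} {n k : ℕ} {C : Submodule (ZMod 2) W}
    (hC : finrank (ZMod 2) C = n) (A : ι → Submodule (ZMod 2) W) (u : ι → E) (X : Finset ι)
    (hu : ∀ j ∈ X, Eig D (A j) (u j)) (hk : ∀ j ∈ X, Near n k C (A j)) :
    ∃ U : Submodule ℝ E, (∀ j ∈ X, u j ∈ U) ∧ Inv D C U ∧ finrank ℝ U ≤ X.card * 2 ^ k := by
  classical
  induction X using Finset.induction_on with
  | empty =>
    refine ⟨⊥, by simp, ?_, by simp⟩
    intro w _ f hf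
    rw [Submodule.mem_bot] at hf ⊢
    rw [hf, map_zero]
  | insert a X ha ih =>
    obtain ⟨U, hU1, hU2, hU3⟩ := ih (fun j hj => hu j (Finset.mem_insert_of_mem hj))
      (fun j hj => hk j (Finset.mem_insert_of_mem hj))
    obtain ⟨U', hU1', hU2', hU3'⟩ := D.orbit hC (hu a (Finset.mem_insert_self _ _))
      (hk a (Finset.mem_insert_self _ _))
    refine ⟨U ⊔ U', ?_, ?_, ?_⟩
    · intro j hj
      rcases Finset.mem_insert.mp hj with rfl | hj
      · exact Submodule.mem_sup_right hU1'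
      · exact Submodule.mem_sup_left (hU1 j hj)
    · intro w hw f hf
      obtain ⟨x, hx, y, hy, rfl⟩ := Submodule.mem_sup.mp hf
      rw [map_add]
      exact Submodule.add_mem_sup (hU2 w hw x hx) (hU2' w hw y hy)
    · rw [Finset.card_insert_of_notMem ha, add_mul, one_mul]
      exact (Submodule.finrank_add_le_finrank_add_finrank _ _).trans (add_le_add hU3 hU3')

end fin

end Pool.Agent.Lib.MP_a387ab_co.LB
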